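import Mathlib

/-!
# The three lattices in the plane
-/

set_option autoImplicit false

namespace Q214.SF

/-- the adjacency of the honeycomb lattice (brick wall) -/
def hexA (p q : ℤ × ℤ) : Prop :=
  q - p = (1, 0) ∨ q - p = (-1, 0) ∨ (q - p = (0, 1) ∧ Even (p.1 + p.2)) ∨
    (q - p = (0, -1) ∧ Even (q.1 + q.2))

/-- the embedding of the square lattice -/
noncomputable def sqPos (x : ℤ × ℤ) : ℂ := ⟨x.1, x.2⟩

/-- the embedding of the triangular lattice -/
noncomputable def triPos (x : ℤ × ℤ) : ℂ := ⟨x.1 + x.2 / 2, √3 / 2 * x.2⟩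

/-- the embedding of the honeycomb lattice -/
noncomputable def hexPos (x : ℤ × ℤ) : ℂ :=
  ⟨√3 / 2 * x.1, 3 / 2 * x.2 + (if Even (x.1 + x.2) then 1 / 4 else -1 / 4)⟩

theorem norm_one {z : ℂ} (h : z.re ^ 2 + z.im ^ 2 = 1) : ‖z‖ = 1 := by
  rw [Complex.norm_eq_sqrt_sq_add_sq, h, Real.sqrt_one]

theorem s3 : √3 ^ 2 = (3 : ℝ) := Real.sq_sqrt (by norm_num)

theorem sq_edge {p q : ℤ × ℤ} (h : |p.1 - q.1| + |p.2 - q.2| = 1) : ‖sqPos p - sqPos q‖ = 1 := by
  apply norm_one
  unfold sqPos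
  simp only [Complex.sub_re, Complex.sub_im]
  obtain ⟨a, b⟩ := p
  obtain ⟨c, d⟩ := q
  simp only at h ⊢
  have h2 : (a - c) ^ 2 + (b - d) ^ 2 = 1 := by
    rcases abs_cases (a - c) with ⟨h3, -⟩ | ⟨h3, -⟩ <;> rcases abs_cases (b - d) with ⟨h4, -⟩ | ⟨h4, -⟩ <;>
      rw [h3, h4] at h
    all_goals
      have h5 : 0 ≤ |a - c| := abs_nonneg _
      have h6 : 0 ≤ |b - d| := abs_nonneg _
      rw [h3] at h5
      rw [h4] at h6
    · have : a - c = 0 ∧ b - d = 1 ∨ a - c = 1 ∧ b - d = 0 := by omega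
      rcases this with ⟨e1, e2⟩ | ⟨e1, e2⟩ <;> rw [e1, e2] <;> norm_num
    · have : a - c = 0 ∧ b - d = -1 ∨ a - c = 1 ∧ b - d = 0 := by omega
      rcases this with ⟨e1, e2⟩ | ⟨e1, e2⟩ <;> rw [e1, e2] <;> norm_num
    · have : a - c = 0 ∧ b - d = 1 ∨ a - c = -1 ∧ b - d = 0 := by omega
      rcases this with ⟨e1, e2⟩ | ⟨e1, e2⟩ <;> rw [e1, e2] <;> norm_num
    · have : a - c = 0 ∧ b - d = -1 ∨ a - c = -1 ∧ b - d = 0 := by omega
      rcases this with ⟨e1, e2⟩ | ⟨e1, e2⟩ <;> rw [e1, e2] <;> norm_num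
  have h3 : (((a - c) ^ 2 + (b - d) ^ 2 : ℤ) : ℝ) = 1 := by rw [h2]; norm_num
  push_cast at h3
  exact h3

theorem tri_edge {p q : ℤ × ℤ}
    (h : q - p ∈ ({(1, 0), (-1, 0), (0, 1), (0, -1), (1, -1), (-1, 1)} : Set (ℤ × ℤ))) :
    ‖triPos p - triPos q‖ = 1 := by
  apply norm_one
  unfold triPos
  simp only [Complex.sub_re, Complex.sub_im]
  obtain ⟨a, b⟩ := p
  obtain ⟨c, d⟩ := q
  have s := s3
  simp only [Set.mem_insert_iff, Set.mem_singleton_iff, Prod.mk_sub_mk, Prod.mk.injEq] at h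
  rcases h with h | h | h | h | h | h <;>
  · obtain ⟨h1, h2⟩ := h
    have e1 : c = a + (c - a) := by ring
    have e2 : d = b + (d - b) := by ring
    rw [h1] at e1
    rw [h2] at e2
    rw [e1, e2]
    push_cast
    nlinarith [s]

theorem hex_edge {p q : ℤ × ℤ} (h : hexA p q) : ‖hexPos p - hexPos q‖ = 1 := by
  apply norm_one
  unfold hexPos
  simp only [Complex.sub_re, Complex.sub_im]
  obtain ⟨a, b⟩ := p
  obtain ⟨c, d⟩ := q
  have s := s3
  unfold hexA at h
  simp only [Prod.mk_sub_mk, Prod.mk.injEq] at h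
  rcases h with ⟨h1, h2⟩ | ⟨h1, h2⟩ | ⟨⟨h1, h2⟩, h3⟩ | ⟨⟨h1, h2⟩, h3⟩
  · have e1 : c = a + 1 := by omega
    have e2 : d = b := by omega
    subst e1 e2
    by_cases he : Even (a + d)
    · have ho : ¬ Even (a + 1 + d) := by
        rw [show a + 1 + d = a + d + 1 by ring, Int.even_add_one]
        simpa using he
      simp only [if_pos he, if_neg ho]
      push_cast
      nlinarith [s]
    · have ho : Even (a + 1 + d) := by
        rw [show a + 1 + d = a + d + 1 by ring, Int.even_add_one]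
        exact he
      simp only [if_neg he, if_pos ho]
      push_cast
      nlinarith [s]
  · have e1 : a = c + 1 := by omega
    have e2 : d = b := by omega
    subst e1 e2
    by_cases he : Even (c + d)
    · have ho : ¬ Even (c + 1 + d) := by
        rw [show c + 1 + d = c + d + 1 by ring, Int.even_add_one]
        simpa using he
      simp only [if_pos he, if_neg ho]
      push_cast
      nlinarith [s]
    · have ho : Even (c + 1 + d) := by
        rw [show c + 1 + d = c + d + 1 by ring, Int.even_add_one]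
        exact he
      simp only [if_neg he, if_pos ho]
      push_cast
      nlinarith [s]
  · have e1 : c = a := by omega
    have e2 : d = b + 1 := by omega
    subst e1 e2
    have ho : ¬ Even (c + (b + 1)) := by
      rw [← add_assoc, Int.even_add_one]
      simpa using h3
    simp only [if_pos h3, if_neg ho]
    push_cast
    nlinarith [s]
  · have e1 : a = c := by omega
    have e2 : b = d + 1 := by omega
    subst e1 e2
    have ho : ¬ Even (a + (d + 1)) := by
      rw [← add_assoc, Int.even_add_one]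
      simpa using h3
    simp only [if_pos h3, if_neg ho]
    push_cast
    nlinarith [s]

/-- the diameter of a path with edges of length one -/
theorem diam_bounds {pos : ℤ × ℤ → ℂ} {n : ℕ} (ω : Fin (n + 1) → ℤ × ℤ)
    (h : ∀ i : Fin n, ‖pos (ω i.castSucc) - pos (ω i.succ)‖ = 1) (hn : 1 ≤ n) :
    1 ≤ (⨆ p : Fin (n + 1) × Fin (n + 1), ‖pos (ω p.1) - pos (ω p.2)‖) ∧
      (⨆ p : Fin (n + 1) × Fin (n + 1), ‖pos (ω p.1) - pos (ω p.2)‖) ≤ 2 * (n : ℝ) := by
  have h0 : ∀ k (hk : k < n + 1), ‖pos (ω 0) - pos (ω ⟨k, hk⟩)‖ ≤ k := by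
    intro k
    induction k with
    | zero =>
      intro hk
      have : (⟨0, hk⟩ : Fin (n + 1)) = 0 := rfl
      rw [this, sub_self, norm_zero]
      simp
    | succ k ih =>
      intro hk
      have h1 := ih (by omega)
      have h2 := h ⟨k, by omega⟩
      have h3 : pos (ω 0) - pos (ω ⟨k + 1, hk⟩) = (pos (ω 0) - pos (ω ⟨k, by omega⟩)) +
          (pos (ω (Fin.castSucc ⟨k, by omega⟩)) - pos (ω (Fin.succ ⟨k, by omega⟩))) := by
        have e1 : (Fin.castSucc (⟨k, by omega⟩ : Fin n)) = ⟨k, by omega⟩ := rfl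
        have e2 : (Fin.succ (⟨k, by omega⟩ : Fin n)) = ⟨k + 1, hk⟩ := rfl
        rw [e1, e2]
        ring
      rw [h3]
      refine (norm_add_le _ _).trans ?_
      rw [h2]
      push_cast
      linarith
  constructor
  · have h1 := h ⟨0, by omega⟩
    rw [← h1]
    exact le_ciSup (f := fun p : Fin (n + 1) × Fin (n + 1) => ‖pos (ω p.1) - pos (ω p.2)‖)
      (Set.finite_range _).bddAbove (Fin.castSucc ⟨0, by omega⟩, Fin.succ ⟨0, by omega⟩)
  · refine ciSup_le fun p => ?_
    have h1 := h0 p.1.1 p.1.2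
    have h2 := h0 p.2.1 p.2.2
    have h3 : pos (ω p.1) - pos (ω p.2) = (pos (ω 0) - pos (ω p.2)) - (pos (ω 0) - pos (ω p.1)) := by
      ring
    rw [h3]
    refine (norm_sub_le _ _).trans ?_
    have h4 : (p.1.1 : ℝ) ≤ n := by exact_mod_cast (show p.1.1 ≤ n by have := p.1.2; omega)
    have h5 : (p.2.1 : ℝ) ≤ n := by exact_mod_cast (show p.2.1 ≤ n by have := p.2.2; omega)
    linarith

end Q214.SF
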