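import Pool.Agent.Q214.SF.Traj
import Pool.Agent.Q214.SF.Emb
import Pool.Agent.Q215.SAW.Lat
import Pool.Agent.W832.HR.Cont

/-!
# Critical walks on the honeycomb lattice in the approximations of a domain
-/

set_option autoImplicit false

namespace Q214.SF

open Finset Filter Topology TH966.AK Q219.SAW Q215.SAW
open Pool.Agent.W832.HR (Nbr Traj emb HD Hd Bd lv)

theorem nbr_hex {p q : ℤ × ℤ} : Nbr p q ↔ Hex.A p q := by
  obtain ⟨p1, p2⟩ := p
  obtain ⟨q1, q2⟩ := q
  rw [Hex.A_iff]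
  unfold Nbr
  simp only [Int.even_iff]
  omega

theorem Traj_eq (D : Set P) (p q : P) : Traj D p q = Tr Hex.A D p q := by
  have h : (Nbr : ℤ × ℤ → ℤ × ℤ → Prop) = Hex.A := by
    funext x y
    exact propext nbr_hex
  unfold Traj Tr
  rw [h]

theorem emb_sub (p q : P) : emb p - emb q = hexPos p - hexPos q := by
  unfold emb hexPos
  apply Complex.ext
  · simp only [Complex.sub_re]
  · simp only [Complex.sub_im]
    split_ifs <;> ring

theorem emb_edge {p q : P} (h : Hex.A p q) : ‖emb p - emb q‖ = 1 := by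
  rw [emb_sub]
  apply hex_edge
  rw [← hex_eq] at h
  exact h

theorem chain_dist {l : List P} : ∀ {p q : P}, l.IsChain Hex.A → l.head? = some p →
    l.getLast? = some q → ‖emb p - emb q‖ ≤ (l.length : ℝ) - 1 := by
  induction l with
  | nil => intro p q _ h; simp at h
  | cons x t ih =>
    intro p q hc hp hq
    rw [List.head?_cons, Option.some.injEq] at hp
    subst hp
    rcases t with _ | ⟨y, t⟩
    · simp at hq
      subst hq
      simp
    · rw [List.isChain_cons_cons] at hc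
      rw [List.getLast?_cons_cons] at hq
      have h1 := ih (p := y) hc.2 (by simp) hq
      have h2 := emb_edge hc.1
      have h3 : emb x - emb q = (emb x - emb y) + (emb y - emb q) := by ring
      rw [h3]
      refine (norm_add_le _ _).trans ?_
      rw [h2, List.length_cons]
      push_cast
      linarith

/-- the critical weight -/
noncomputable def wH (D : Set P) (p q : P) (Q : List P → Prop) : ℝ :=
  ∑ᶠ l ∈ {l | l ∈ Traj D p q ∧ Q l}, (1 / √(2 + √2)) ^ (l.length - 1)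

theorem wH_eq (D : Set P) (p q : P) (Q : List P → Prop) :
    wH D p q Q = wt Hex.A (muu Hex.A) D p q Q := by
  unfold wH wt
  rw [hex_mu', Traj_eq]

theorem wH_nonneg (D : Set P) (p q : P) (Q : List P → Prop) : 0 ≤ wH D p q Q := by
  unfold wH
  exact finsum_nonneg fun _ => finsum_nonneg fun _ => by positivity

theorem wH_sum {D : Set P} (hD : D.Finite) (p q : P) (Q : List P → Prop) [DecidablePred Q] :
    ∃ T : Finset (List P), (T : Set (List P)) = Traj D p q ∧
      wH D p q Q = ∑ l ∈ T, if Q l then (1 / √(2 + √2)) ^ (l.length - 1) else 0 := by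
  classical
  obtain ⟨K0, hN⟩ := hex4_nice
  have hT := TF_eq (Z := Hex4.rule) hexV hD p q (M := D.ncard) (by omega)
  refine ⟨TF hexV D p q D.ncard, by rw [hT, Traj_eq], ?_⟩
  unfold wH
  rw [Traj_eq, finsum_TF hexV p q hT]
  refine sum_congr rfl fun l _ => ?_
  split_ifs <;> rfl

theorem wH_le {D : Set P} (hD : D.Finite) (p q : P) (Q : List P → Prop) :
    wH D p q Q ≤ wH D p q (fun _ => True) := by
  classical
  have hT := TF_eq (Z := Hex4.rule) hexV hD p q (M := D.ncard) (by omega)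
  unfold wH
  rw [Traj_eq, finsum_TF hexV p q hT, finsum_TF hexV p q hT]
  refine sum_le_sum fun l _ => ?_
  split_ifs
  · exact le_rfl
  · positivity

theorem wH_exists {D : Set P} {p q : P} (h : 0 < wH D p q (fun _ => True)) :
    ∃ l, l ∈ Traj D p q := by
  by_contra hc
  push Not at hc
  have : wH D p q (fun _ => True) = 0 := by
    unfold wH
    have : {l | l ∈ Traj D p q ∧ True} = ∅ := by
      ext l
      simp only [and_true, Set.mem_ofPred_eq, Set.mem_empty_iff_false, iff_false]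
      exact hc l
    rw [this, finsum_mem_empty]
  linarith

/-- **critical walks in a finite domain** -/
theorem hex_crit (J : ℕ) : ∃ C : ℝ, 0 < C ∧ ∀ (D : Set P) (p q : P), D.Finite →
    1 ≤ ‖emb p - emb q‖ → 0 < wH D p q (fun _ => True) →
    ∀ Λ : ℝ, Real.log D.ncard ^ 2 ≤ Λ → Real.log (1 / wH D p q (fun _ => True)) ≤ Λ →
    ∀ (ρ : Fin J → P → P → ℝ) (U : ℕ → (Fin J → ℝ) → Prop),
    |wH D p q (fun l => U (l.length - 1 + 4) (fun i => ex (ρ i) l)) / wH D p q (fun _ => True) -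
      wH D p q (fun l => U (l.length - 1) (fun i => ex (ρ i) l)) / wH D p q (fun _ => True)| ≤
      C * √(Λ / ‖emb p - emb q‖) := by
  obtain ⟨K0, hN⟩ := hex4_nice
  obtain ⟨R, δ, m0, hR, hδ, h⟩ := crit_traj hN.gr hN.sh hexV J
  have hl2 : 0 < Real.log 2 := Real.log_pos (by norm_num)
  refine ⟨2 * R + √((m0 : ℝ) + 1) / Real.log 2 + √(2 / δ), by positivity, ?_⟩
  intro D p q hD hd hw Λ hΛ1 hΛ2 ρ U
  obtain ⟨l0, hl0⟩ := wH_exists hw
  have hlen : ∀ l ∈ Traj D p q, ‖emb p - emb q‖ ≤ (l.length : ℝ) - 1 := by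
    intro l hl
    rw [Traj_eq] at hl
    exact chain_dist hl.2.2.2.1 hl.1 hl.2.1
  have hlenD : ∀ l ∈ Traj D p q, l.length ≤ D.ncard := by
    intro l hl
    exact len_le hD hl.2.2.1 hl.2.2.2.2
  obtain ⟨d, hdd⟩ : ∃ d, d = ‖emb p - emb q‖ := ⟨_, rfl⟩
  rw [← hdd] at hd hlen ⊢
  have hd0 : 0 < d := by linarith
  have hDn : (2 : ℝ) ≤ D.ncard := by
    have h1 := hlen l0 hl0
    have h2 : (l0.length : ℝ) ≤ D.ncard := by exact_mod_cast hlenD l0 hl0
    linarith
  have hlogD : Real.log 2 ≤ Real.log D.ncard := Real.log_le_log (by norm_num) hDn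
  have hΛ3 : Real.log 2 ^ 2 ≤ Λ := (pow_le_pow_left₀ hl2.le hlogD 2).trans hΛ1
  have hΛ0 : 0 < Λ := lt_of_lt_of_le (by positivity) hΛ3
  obtain ⟨W, hW⟩ : ∃ W, W = wH D p q (fun _ => True) := ⟨_, rfl⟩
  obtain ⟨W1, hW1⟩ : ∃ W1, W1 = wH D p q (fun l => U (l.length - 1 + 4) (fun i => ex (ρ i) l)) :=
    ⟨_, rfl⟩
  obtain ⟨W2, hW2⟩ : ∃ W2, W2 = wH D p q (fun l => U (l.length - 1) (fun i => ex (ρ i) l)) :=
    ⟨_, rfl⟩
  rw [← hW] at hw hΛ2 ⊢
  rw [← hW1, ← hW2]
  have hW1l : W1 ≤ W := by rw [hW1, hW]; exact wH_le hD _ _ _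
  have hW2l : W2 ≤ W := by rw [hW2, hW]; exact wH_le hD _ _ _
  have hW10 : 0 ≤ W1 := by rw [hW1]; exact wH_nonneg _ _ _ _
  have hW20 : 0 ≤ W2 := by rw [hW2]; exact wH_nonneg _ _ _ _
  have triv : |W1 / W - W2 / W| ≤ 1 := by
    have a1 : W1 / W ≤ 1 := div_le_one_of_le₀ hW1l hw.le
    have a2 : 0 ≤ W1 / W := div_nonneg hW10 hw.le
    have a3 : W2 / W ≤ 1 := div_le_one_of_le₀ hW2l hw.le
    have a4 : 0 ≤ W2 / W := div_nonneg hW20 hw.le
    rw [abs_le]
    constructor <;> linarith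
  have hX : 0 ≤ √(Λ / d) := Real.sqrt_nonneg _
  have t1 : 0 ≤ 2 * R * √(Λ / d) := by positivity
  have t2 : 0 ≤ √((m0 : ℝ) + 1) / Real.log 2 * √(Λ / d) := by positivity
  have t3 : 0 ≤ √(2 / δ) * √(Λ / d) := by positivity
  rw [add_mul, add_mul]
  rcases lt_or_ge d ((m0 : ℝ) + 1) with h1 | h1
  · have h2 : 1 ≤ √((m0 : ℝ) + 1) / Real.log 2 * √(Λ / d) := by
      rw [div_mul_eq_mul_div, one_le_div hl2, ← Real.sqrt_mul (by positivity),
        Real.le_sqrt' hl2]
      refine hΛ3.trans ?_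
      rw [mul_div_assoc', le_div_iff₀ hd0, mul_comm]
      exact mul_le_mul_of_nonneg_right h1.le hΛ0.le
    linarith
  obtain ⟨m, hm⟩ : ∃ m, m = ⌊d⌋₊ := ⟨_, rfl⟩
  have hmd : (m : ℝ) ≤ d := by rw [hm]; exact Nat.floor_le hd0.le
  have hdm : d < m + 1 := by rw [hm]; exact Nat.lt_floor_add_one d
  have hmm0 : m0 ≤ m := by
    have : (m0 : ℝ) < m + 1 := by linarith
    have : m0 < m + 1 := by exact_mod_cast this
    omega
  have hm1 : (1 : ℝ) ≤ m := by
    rw [hm]
    exact_mod_cast Nat.le_floor (by exact_mod_cast hd)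
  have hm0 : (0 : ℝ) < m := by linarith
  have hmd2 : d ≤ 2 * m := by linarith
  rcases lt_or_ge (δ * m) Λ with h2 | h2
  · have h3 : 1 ≤ √(2 / δ) * √(Λ / d) := by
      rw [← Real.sqrt_mul (by positivity), Real.one_le_sqrt, div_mul_div_comm, one_le_div
        (by positivity)]
      have := mul_le_mul_of_nonneg_left hmd2 hδ.le
      linarith
    linarith
  have hmM : m + 1 ≤ D.ncard := by
    have h3 := hlen l0 hl0
    have h4 : (l0.length : ℝ) ≤ D.ncard := by exact_mod_cast hlenD l0 hl0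
    have h5 : ((m + 1 : ℕ) : ℝ) ≤ D.ncard := by
      push_cast
      linarith
    exact_mod_cast h5
  have hMle : Real.log ((D.ncard - 1 : ℕ) : ℝ) ^ 2 ≤ Λ := by
    refine le_trans (pow_le_pow_left₀ ?_ ?_ 2) hΛ1
    · exact Real.log_natCast_nonneg _
    · refine Real.log_le_log ?_ ?_
      · have : 0 < D.ncard - 1 := by
          have : (1 : ℝ) ≤ m := hm1
          have : 1 ≤ m := by exact_mod_cast this
          omega
        exact_mod_cast this
      · exact_mod_cast Nat.sub_le _ _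
  have hlow : Real.exp (-Λ) ≤ W := by
    rw [one_div, Real.log_inv] at hΛ2
    rw [← Real.exp_log hw]
    exact Real.exp_le_exp.2 (by linarith)
  have hfin := h D p q m (D.ncard - 1) Λ hmm0 (by omega) hD (by omega) (by
      intro l hl
      rw [← Traj_eq] at hl
      have h3 := hlen l hl
      have h4 : ((m + 1 : ℕ) : ℝ) ≤ l.length := by
        push_cast
        linarith
      exact_mod_cast h4) hMle h2 (by rw [← wH_eq, ← hW]; exact hlow) ρ U
  rw [← wH_eq, ← wH_eq, ← wH_eq] at hfin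
  have hs : Hex4.rule.s = 4 := rfl
  rw [hs, ← hW, ← hW1, ← hW2] at hfin
  have h5 : |W1 / W - W2 / W| ≤ R * √(Λ / m) := by
    rw [← sub_div, abs_div, abs_of_pos hw, div_le_iff₀ hw]
    exact hfin
  have h6 : √(Λ / m) ≤ 2 * √(Λ / d) := by
    have h7 : √(Λ / m) ≤ √(4 * (Λ / d)) := by
      refine Real.sqrt_le_sqrt ?_
      rw [div_le_iff₀ hm0, mul_assoc, div_mul_eq_mul_div, mul_div_assoc', le_div_iff₀ hd0]
      have := mul_le_mul_of_nonneg_left hmd2 hΛ0.le
      nlinarith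
    refine h7.trans (le_of_eq ?_)
    rw [Real.sqrt_mul (by norm_num), show (4 : ℝ) = 2 ^ 2 by norm_num,
      Real.sqrt_sq (by norm_num)]
  have h7 : R * √(Λ / m) ≤ R * (2 * √(Λ / d)) := mul_le_mul_of_nonneg_left h6 hR.le
  linarith

end Q214.SF
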