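import Pool.Agent.TH966.AK.Conv

/-!
# Approximate logarithmic convexity for weights of bounded relative total influence

The weights may change under the moves: for each object the sum of the changes of the weight over
all downward moves is at most `k` times the weight.
-/

set_option autoImplicit false

namespace Q214.SF

open Finset Filter Topology TH966.AK TH966.AK.Sys
open scoped Classical

variable {α σ : Type} (Y : Sys α σ)

/-- nonnegative weights whose total influence is at most `k` times the weight -/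
def Inf (k : ℝ) (f : α → ℝ) : Prop :=
  (∀ n w, w ∈ Y.K n → 0 ≤ f w) ∧
    ∀ n w, w ∈ Y.K (n + Y.s) → ∑ q ∈ Y.B w, |f (Y.rem w q) - f w| ≤ k * f w

variable {Y} {k : ℝ} {f : α → ℝ}

/-- sums over the downward moves -/
theorem Inf.sum_le (h : Inf Y k f) {n : ℕ} {w : α} (hw : w ∈ Y.K (n + Y.s)) :
    ∑ q ∈ Y.B w, f (Y.rem w q) ≤ ((Y.B w).card + k) * f w := by
  have h1 : ∑ q ∈ Y.B w, f (Y.rem w q) ≤ ∑ q ∈ Y.B w, (f w + |f (Y.rem w q) - f w|) :=
    Finset.sum_le_sum fun q _ => by
      have := le_abs_self (f (Y.rem w q) - f w)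
      linarith
  refine h1.trans ?_
  rw [sum_add_distrib, sum_const, nsmul_eq_mul, add_mul]
  exact add_le_add le_rfl (h.2 n w hw)

theorem Inf.le_sum (h : Inf Y k f) {n : ℕ} {w : α} (hw : w ∈ Y.K (n + Y.s)) :
    ((Y.B w).card : ℝ) * f w ≤ ∑ q ∈ Y.B w, f (Y.rem w q) + k * f w := by
  have h1 : ∑ q ∈ Y.B w, f w ≤ ∑ q ∈ Y.B w, (f (Y.rem w q) + |f (Y.rem w q) - f w|) :=
    Finset.sum_le_sum fun q _ => by
      have := neg_abs_le (f (Y.rem w q) - f w)
      linarith
  rw [sum_const, nsmul_eq_mul] at h1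
  refine h1.trans ?_
  rw [sum_add_distrib]
  exact add_le_add le_rfl (h.2 n w hw)

/-- upper bound for `af f (n + s)` -/
theorem upper (hf : Inf Y k f) (hk : 0 ≤ k) (M n : ℕ) (hM : 1 ≤ M) (hn0 : Y.n0 ≤ n)
    (hn1 : 1 ≤ n) (hn : 4 * M * Y.C ≤ n) :
    Y.af f (n + Y.s) ≤ (Y.badf f M (n + Y.s) + Y.C * (n + 1) * Y.badf f M n) +
      k * M / n * Y.af f (n + Y.s) +
      ∑ w ∈ (Y.K n).filter (Y.good M n),
        f w * (((Y.S w).card : ℝ) / (((Y.B w).card : ℝ) - Y.C)) := by
  have hnR : (0 : ℝ) < n := by exact_mod_cast hn1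
  have hMR : (1 : ℝ) ≤ M := by exact_mod_cast hM
  set F : α → α → ℝ :=
    fun w w' => f w * (if Y.good M (n + Y.s) w' then 1 / ((Y.B w').card : ℝ) else 0) with hF
  have hS := Y.sum_eq n hn0 F
  have h1 : Y.af f (n + Y.s) ≤ Y.badf f M (n + Y.s) + k * M / n * Y.af f (n + Y.s) +
      ∑ w ∈ Y.K (n + Y.s), ∑ j ∈ Y.B w, F (Y.rem w j) w := by
    have e2 : Y.badf f M (n + Y.s) =
        ∑ w ∈ Y.K (n + Y.s), (if ¬ Y.good M (n + Y.s) w then f w else 0) := by
      unfold badf bad
      rw [← sum_filter]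
      refine Finset.sum_congr ?_ fun _ _ => rfl
      apply filter_congr
      intro w _
      rw [not_good]
    unfold af
    rw [e2, mul_sum, ← sum_add_distrib, ← sum_add_distrib]
    apply sum_le_sum
    intro w hw
    have hw0 := hf.1 _ w hw
    have hkw : 0 ≤ k * M / n * f w := by positivity
    by_cases hg : Y.good M (n + Y.s) w
    · have hb : 0 < (Y.B w).card := by
        have h2 := Y.big (show 4 * M * Y.C ≤ n + Y.s by omega) hg.2
        omega
      have hb' : (0 : ℝ) < (Y.B w).card := by exact_mod_cast hb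
      rw [if_neg (not_not.mpr hg), zero_add]
      simp only [hF, if_pos hg]
      rw [← sum_mul]
      have h3 := hf.le_sum hw
      have h4 : (n : ℝ) ≤ M * (Y.B w).card := by
        have h5 := hg.2
        have h6 : n ≤ M * (Y.B w).card := by omega
        exact_mod_cast h6
      have h5 : f w ≤ (∑ q ∈ Y.B w, f (Y.rem w q) + k * f w) * (1 / ((Y.B w).card : ℝ)) := by
        rw [mul_one_div, le_div_iff₀ hb']
        linarith
      have h6 : k * f w * (1 / ((Y.B w).card : ℝ)) ≤ k * M / n * f w := by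
        have h7 : (1 / ((Y.B w).card : ℝ)) ≤ M / n := by
          rw [div_le_div_iff₀ hb' hnR]
          linarith
        calc k * f w * (1 / ((Y.B w).card : ℝ)) ≤ k * f w * (M / n) :=
              mul_le_mul_of_nonneg_left h7 (by positivity)
          _ = _ := by ring
      rw [add_mul] at h5
      linarith
    · rw [if_pos hg]
      simp only [hF, if_neg hg]
      simp only [mul_zero, sum_const_zero, add_zero]
      linarith
  rw [← hS] at h1
  refine h1.trans ?_
  have h2 : ∀ w ∈ Y.K n, ∑ q ∈ Y.S w, F w (Y.ins w q) ≤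
      (if ¬ Y.good M n w then (Y.C * (n + 1) : ℝ) * f w else 0) +
        (if Y.good M n w then
          f w * (((Y.S w).card : ℝ) / (((Y.B w).card : ℝ) - Y.C)) else 0) := by
    intro w hw
    have hw0 := hf.1 _ w hw
    simp only [hF]
    rw [← mul_sum]
    by_cases hg : Y.good M n w
    · rw [if_neg (not_not.mpr hg), if_pos hg, zero_add]
      refine mul_le_mul_of_nonneg_left ?_ hw0
      have hb := Y.big hn hg.2
      have hb' : (4 * Y.C : ℝ) < (Y.B w).card := by exact_mod_cast hb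
      have hC : (1 : ℝ) ≤ Y.C := by exact_mod_cast Y.hC
      have : ∀ q ∈ Y.S w, (if Y.good M (n + Y.s) (Y.ins w q) then
          1 / ((Y.B (Y.ins w q)).card : ℝ) else 0) ≤ 1 / (((Y.B w).card : ℝ) - Y.C) := by
        intro q hq
        have := Y.chB1 n w q hw hq
        have h3 : ((Y.B w).card : ℝ) ≤ (Y.B (Y.ins w q)).card + Y.C := by exact_mod_cast this
        split_ifs
        · apply one_div_le_one_div_of_le <;> linarith
        · apply one_div_nonneg.mpr; linarith
      refine (sum_le_sum this).trans ?_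
      rw [sum_const, nsmul_eq_mul, mul_one_div]
    · rw [if_pos hg, if_neg hg, add_zero, mul_comm ((Y.C : ℝ) * (n + 1))]
      refine mul_le_mul_of_nonneg_left ?_ hw0
      have hle : ∀ q ∈ Y.S w, (if Y.good M (n + Y.s) (Y.ins w q) then
          1 / ((Y.B (Y.ins w q)).card : ℝ) else 0) ≤ 1 := by
        intro q _
        split_ifs
        · exact inv_le_one _
        · norm_num
      refine (sum_le_sum hle).trans ?_
      rw [sum_const, nsmul_eq_mul, mul_one]
      exact_mod_cast Y.S_le n w hw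
  have h3 := sum_le_sum h2
  rw [sum_add_distrib, ← sum_filter, ← sum_filter, ← mul_sum] at h3
  have h4 : ∑ w ∈ (Y.K n).filter (fun w => ¬ Y.good M n w), f w = Y.badf f M n := by
    unfold badf bad
    refine Finset.sum_congr ?_ fun _ _ => rfl
    apply filter_congr
    intro w _
    rw [not_good]
  rw [h4] at h3
  linarith

/-- lower bound for `af f (n + 2 s)` -/
theorem lower (hf : Inf Y k f) (hk : 0 ≤ k) (M n : ℕ) (hM : 1 ≤ M) (hn0 : Y.n0 ≤ n)
    (hn1 : 1 ≤ n) (hns : Y.s + 1 ≤ n) (hn : 4 * M * Y.C ≤ n) :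
    ∑ w ∈ (Y.K n).filter (Y.good M n), f w * (((Y.S w).card : ℝ) * (((Y.S w).card : ℝ) - Y.C) /
      ((((Y.B w).card : ℝ) + Y.C) * (((Y.B w).card : ℝ) + 2 * Y.C))) ≤
      Y.af f (n + Y.s + Y.s) + k * (2 * M) / n * Y.af f (n + Y.s + Y.s) +
        k * (8 * Y.C * M ^ 2) / n * Y.af f (n + Y.s) := by
  have hnR : (0 : ℝ) < n := by exact_mod_cast hn1
  have hMR : (1 : ℝ) ≤ M := by exact_mod_cast hM
  have hC : (1 : ℝ) ≤ Y.C := by exact_mod_cast Y.hC
  have hnMC : (4 * M * Y.C : ℝ) ≤ n := by exact_mod_cast hn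
  -- sets of objects with many downward moves
  have hbd : ∀ b : ℕ, ∀ j : ℝ, j ≤ 2 → (n : ℝ) < M * (b + j * Y.C) →
      (0 : ℝ) < b ∧ 1 / (b : ℝ) ≤ 2 * M / n := by
    intro b j hj h
    have h1 : (n : ℝ) ≤ 2 * M * b := by
      have h2 : (M : ℝ) * (j * Y.C) ≤ M * (2 * Y.C) := by gcongr
      have h3 : (n : ℝ) < M * b + M * (2 * Y.C) := by nlinarith
      nlinarith
    have hb : (0 : ℝ) < b := by
      by_contra hcon
      have : (b : ℝ) ≤ 0 := not_lt.1 hcon
      nlinarith
    refine ⟨hb, ?_⟩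
    rw [div_le_div_iff₀ hb hnR]
    linarith
  obtain ⟨g, hg⟩ : ∃ g : α → ℝ, g = fun w' => ∑ q ∈ Y.S w', (1 / ((Y.B (Y.ins w' q)).card : ℝ)) :=
    ⟨_, rfl⟩
  have g_nonneg : ∀ w, 0 ≤ g w := by
    intro w
    rw [hg]
    exact Finset.sum_nonneg fun _ _ => by positivity
  -- second step
  have s2 : ∑ w ∈ Y.K (n + Y.s), (if (n : ℝ) < M * ((Y.B w).card + 1 * Y.C) then f w * g w else 0) ≤
      Y.af f (n + Y.s + Y.s) + k * (2 * M) / n * Y.af f (n + Y.s + Y.s) := by
    have e1 := Y.sum_eq (n + Y.s) (by omega) (fun w w' =>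
      (if (n : ℝ) < M * ((Y.B w').card + 2 * Y.C) then f w * (1 / ((Y.B w').card : ℝ)) else 0))
    have e2 : ∑ w ∈ Y.K (n + Y.s),
        (if (n : ℝ) < M * ((Y.B w).card + 1 * Y.C) then f w * g w else 0) ≤
        ∑ w ∈ Y.K (n + Y.s), ∑ q ∈ Y.S w,
          (if (n : ℝ) < M * ((Y.B (Y.ins w q)).card + 2 * Y.C) then
            f w * (1 / ((Y.B (Y.ins w q)).card : ℝ)) else 0) := by
      refine Finset.sum_le_sum fun w hw => ?_
      have hw0 := hf.1 _ w hw
      split_ifs with hc
      · rw [hg]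
        simp only
        rw [mul_sum]
        refine Finset.sum_le_sum fun q hq => ?_
        have h1 := Y.chB1 _ w q hw hq
        have h1' : ((Y.B w).card : ℝ) ≤ (Y.B (Y.ins w q)).card + Y.C := by exact_mod_cast h1
        rw [if_pos]
        refine lt_of_lt_of_le hc ?_
        exact mul_le_mul_of_nonneg_left (by linarith) (by positivity)
      · refine Finset.sum_nonneg fun q _ => ?_
        split_ifs
        · positivity
        · exact le_rfl
    refine e2.trans ?_
    rw [e1]
    unfold af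
    rw [mul_sum, ← sum_add_distrib]
    refine Finset.sum_le_sum fun w hw => ?_
    have hw0 := hf.1 _ w hw
    by_cases hc : (n : ℝ) < M * ((Y.B w).card + 2 * Y.C)
    · simp only [if_pos hc]
      obtain ⟨hb, hb2⟩ := hbd _ 2 le_rfl hc
      rw [← sum_mul, mul_one_div, div_le_iff₀ hb]
      refine (hf.sum_le hw).trans ?_
      have h1 : k ≤ k * (2 * M) / n * (Y.B w).card := by
        have h2 : 1 ≤ 2 * M / n * ((Y.B w).card : ℝ) := by
          rw [div_le_iff₀ hb] at hb2
          exact hb2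
        calc k = k * 1 := (mul_one k).symm
          _ ≤ k * (2 * M / n * ((Y.B w).card : ℝ)) := mul_le_mul_of_nonneg_left h2 hk
          _ = _ := by ring
      have h3 := mul_le_mul_of_nonneg_right h1 hw0
      calc (((Y.B w).card : ℝ) + k) * f w = (Y.B w).card * f w + k * f w := by ring
        _ ≤ (Y.B w).card * f w + k * (2 * M) / n * (Y.B w).card * f w := by linarith
        _ = _ := by ring
    · simp only [if_neg hc, sum_const_zero]
      positivity
  -- first step
  have s1 : ∑ w ∈ (Y.K n).filter (Y.good M n), f w * (∑ q ∈ Y.S w,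
      (1 / ((Y.B (Y.ins w q)).card : ℝ)) * g (Y.ins w q)) ≤
      ∑ w ∈ Y.K (n + Y.s), (if (n : ℝ) < M * ((Y.B w).card + 1 * Y.C) then f w * g w else 0) +
        k * (8 * Y.C * M ^ 2) / n * Y.af f (n + Y.s) := by
    have e1 := Y.sum_eq n hn0 (fun w w' =>
      (if (n : ℝ) < M * ((Y.B w').card + 1 * Y.C) then
        f w * ((1 / ((Y.B w').card : ℝ)) * g w') else 0))
    have e2 : ∑ w ∈ (Y.K n).filter (Y.good M n), f w * (∑ q ∈ Y.S w,
        (1 / ((Y.B (Y.ins w q)).card : ℝ)) * g (Y.ins w q)) ≤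
        ∑ w ∈ Y.K n, ∑ q ∈ Y.S w,
          (if (n : ℝ) < M * ((Y.B (Y.ins w q)).card + 1 * Y.C) then
            f w * ((1 / ((Y.B (Y.ins w q)).card : ℝ)) * g (Y.ins w q)) else 0) := by
      rw [sum_filter]
      refine Finset.sum_le_sum fun w hw => ?_
      have hw0 := hf.1 _ w hw
      split_ifs with hc
      · rw [mul_sum]
        refine Finset.sum_le_sum fun q hq => ?_
        have h1 := Y.chB1 _ w q hw hq
        have h1' : ((Y.B w).card : ℝ) ≤ (Y.B (Y.ins w q)).card + Y.C := by exact_mod_cast h1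
        rw [if_pos]
        have h2 : (n : ℝ) < M * (Y.B w).card := by exact_mod_cast hc.2
        refine lt_of_lt_of_le h2 ?_
        exact mul_le_mul_of_nonneg_left (by linarith) (by positivity)
      · refine Finset.sum_nonneg fun q _ => ?_
        split_ifs
        · exact mul_nonneg hw0 (mul_nonneg (by positivity) (g_nonneg _))
        · exact le_rfl
    refine e2.trans ?_
    rw [e1]
    unfold af
    rw [mul_sum, ← sum_add_distrib]
    refine Finset.sum_le_sum fun w hw => ?_
    have hw0 := hf.1 _ w hw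
    by_cases hc : (n : ℝ) < M * ((Y.B w).card + 1 * Y.C)
    · simp only [if_pos hc]
      obtain ⟨hb, hb2⟩ := hbd _ 1 (by norm_num) hc
      rw [← sum_mul]
      have hgle : g w ≤ 4 * M * Y.C := by
        rw [hg]
        simp only
        have h1 : ∀ q ∈ Y.S w, (1 / ((Y.B (Y.ins w q)).card : ℝ)) ≤ 2 * M / n := by
          intro q hq
          have h1 := Y.chB1 _ w q hw hq
          have h1' : ((Y.B w).card : ℝ) ≤ (Y.B (Y.ins w q)).card + Y.C := by exact_mod_cast h1
          refine (hbd _ 2 le_rfl ?_).2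
          refine lt_of_lt_of_le hc ?_
          exact mul_le_mul_of_nonneg_left (by linarith) (by positivity)
        refine (Finset.sum_le_sum h1).trans ?_
        rw [sum_const, nsmul_eq_mul]
        have h2 : ((Y.S w).card : ℝ) ≤ Y.C * (n + Y.s + 1 : ℕ) := by
          exact_mod_cast Y.S_le _ w hw
        have h3 : ((n + Y.s + 1 : ℕ) : ℝ) ≤ 2 * n := by
          have : n + Y.s + 1 ≤ 2 * n := by omega
          exact_mod_cast this
        calc ((Y.S w).card : ℝ) * (2 * M / n) ≤ Y.C * (2 * n) * (2 * M / n) := by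
              gcongr
              exact h2.trans (mul_le_mul_of_nonneg_left h3 (by positivity))
          _ = 4 * M * Y.C := by field_simp; ring
      have h1 : (1 / ((Y.B w).card : ℝ)) * g w * (((Y.B w).card + k) * f w) =
          f w * g w + k * ((1 / ((Y.B w).card : ℝ)) * g w) * f w := by
        field_simp
      have h2 : ∑ q ∈ Y.B w, f (Y.rem w q) * (1 / ((Y.B w).card : ℝ) * g w) =
          (1 / ((Y.B w).card : ℝ)) * g w * ∑ q ∈ Y.B w, f (Y.rem w q) := by
        rw [mul_sum]
        exact Finset.sum_congr rfl fun q _ => mul_comm _ _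
      rw [sum_mul, h2]
      refine (mul_le_mul_of_nonneg_left (hf.sum_le hw)
        (mul_nonneg (by positivity) (g_nonneg w))).trans ?_
      rw [h1]
      refine add_le_add le_rfl (mul_le_mul_of_nonneg_right ?_ hw0)
      have h4 : (1 / ((Y.B w).card : ℝ)) * g w ≤ 2 * M / n * (4 * M * Y.C) :=
        mul_le_mul hb2 hgle (g_nonneg w) (by positivity)
      calc k * (1 / ((Y.B w).card : ℝ) * g w) ≤ k * (2 * M / n * (4 * M * Y.C)) :=
            mul_le_mul_of_nonneg_left h4 hk
        _ = _ := by ring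
    · simp only [if_neg hc, sum_const_zero]
      positivity
  refine le_trans ?_ (s1.trans (by linarith))
  refine Finset.sum_le_sum fun w hw => ?_
  obtain ⟨hw, hgw⟩ := Finset.mem_filter.1 hw
  have hw0 := hf.1 _ w hw
  refine mul_le_mul_of_nonneg_left ?_ hw0
  have hb := Y.big hn hgw.2
  have hf' := Y.big hn hgw.1
  have hb' : (4 * Y.C : ℝ) < (Y.B w).card := by exact_mod_cast hb
  have hf'' : (4 * Y.C : ℝ) < (Y.S w).card := by exact_mod_cast hf'
  have key : ∀ q ∈ Y.S w, (((Y.S w).card : ℝ) - Y.C) /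
      ((((Y.B w).card : ℝ) + Y.C) * (((Y.B w).card : ℝ) + 2 * Y.C)) ≤
      (1 / ((Y.B (Y.ins w q)).card : ℝ)) * g (Y.ins w q) := by
    intro q hq
    have c1 := Y.chS1 n w q hw hq
    have c3 := Y.chB2 n w q hw hq
    have c4 := Y.chB1 n w q hw hq
    have i1 := Y.ins_K n w q hw hq
    set w' := Y.ins w q with hw'
    have c1' : ((Y.S w).card : ℝ) ≤ (Y.S w').card + Y.C := by exact_mod_cast c1
    have c3' : ((Y.B w').card : ℝ) ≤ (Y.B w).card + Y.C := by exact_mod_cast c3
    have c4' : ((Y.B w).card : ℝ) ≤ (Y.B w').card + Y.C := by exact_mod_cast c4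
    have hpos : (0 : ℝ) < (Y.B w').card := by linarith
    have hg1 : (((Y.S w).card : ℝ) - Y.C) / (((Y.B w).card : ℝ) + 2 * Y.C) ≤ g w' := by
      have : ∀ q' ∈ Y.S w', 1 / (((Y.B w).card : ℝ) + 2 * Y.C) ≤
          (1 / ((Y.B (Y.ins w' q')).card : ℝ)) := by
        intro q' hq'
        have d3 := Y.chB2 _ w' q' i1 hq'
        have d4 := Y.chB1 _ w' q' i1 hq'
        have d3' : ((Y.B (Y.ins w' q')).card : ℝ) ≤ (Y.B w').card + Y.C := by
          exact_mod_cast d3
        have d4' : ((Y.B w').card : ℝ) ≤ (Y.B (Y.ins w' q')).card + Y.C := by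
          exact_mod_cast d4
        apply one_div_le_one_div_of_le <;> linarith
      rw [hg]
      simp only
      calc (((Y.S w).card : ℝ) - Y.C) / (((Y.B w).card : ℝ) + 2 * Y.C)
          ≤ ((Y.S w').card : ℝ) * (1 / (((Y.B w).card : ℝ) + 2 * Y.C)) := by
            rw [mul_one_div]
            apply div_le_div_of_nonneg_right <;> linarith
        _ = ∑ q' ∈ Y.S w', 1 / (((Y.B w).card : ℝ) + 2 * Y.C) := by
            rw [sum_const, nsmul_eq_mul]
        _ ≤ _ := Finset.sum_le_sum this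
    have hb1 : 1 / (((Y.B w).card : ℝ) + Y.C) ≤ (1 / ((Y.B w').card : ℝ)) := by
      apply one_div_le_one_div_of_le <;> linarith
    calc (((Y.S w).card : ℝ) - Y.C) /
          ((((Y.B w).card : ℝ) + Y.C) * (((Y.B w).card : ℝ) + 2 * Y.C))
        = (1 / (((Y.B w).card : ℝ) + Y.C)) *
          ((((Y.S w).card : ℝ) - Y.C) / (((Y.B w).card : ℝ) + 2 * Y.C)) := by
          field_simp
      _ ≤ (1 / ((Y.B w').card : ℝ)) * g w' := by
          apply mul_le_mul hb1 hg1
          · apply div_nonneg <;> linarith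
          · positivity
  calc ((Y.S w).card : ℝ) * (((Y.S w).card : ℝ) - Y.C) /
        ((((Y.B w).card : ℝ) + Y.C) * (((Y.B w).card : ℝ) + 2 * Y.C))
      = ∑ q ∈ Y.S w, (((Y.S w).card : ℝ) - Y.C) /
        ((((Y.B w).card : ℝ) + Y.C) * (((Y.B w).card : ℝ) + 2 * Y.C)) := by
        rw [sum_const, nsmul_eq_mul, ← mul_div_assoc]
    _ ≤ _ := Finset.sum_le_sum key

/-- comparison of the weights at the lengths `n + s` and `n` -/
theorem comp (hf : Inf Y k f) (hk : 0 ≤ k) (M n : ℕ) (hM : 1 ≤ M) (hn0 : Y.n0 ≤ n)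
    (hn1 : 1 ≤ n) (hk1 : k ≤ n) (hB : ∀ w ∈ Y.K (n + Y.s), (Y.B w).card ≤ Y.C * (n + Y.s + 1)) :
    Y.af f n * n ≤ Y.badf f M n * n + M * ((Y.C + 1) * (n + Y.s + 1)) * Y.af f (n + Y.s) := by
  have hMR : (1 : ℝ) ≤ M := by exact_mod_cast hM
  have e1 := Y.sum_eq n hn0 (fun w _ => f w)
  have h1 : Y.af f n * n ≤ Y.badf f M n * n + M * ∑ w ∈ Y.K n, ∑ _q ∈ Y.S w, f w := by
    have e2 : Y.badf f M n = ∑ w ∈ Y.K n, (if ¬ Y.good M n w then f w else 0) := by
      unfold badf bad
      rw [← sum_filter]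
      refine Finset.sum_congr ?_ fun _ _ => rfl
      apply filter_congr
      intro w _
      rw [not_good]
    unfold af
    rw [e2, sum_mul, sum_mul, mul_sum, ← sum_add_distrib]
    refine Finset.sum_le_sum fun w hw => ?_
    have hw0 := hf.1 _ w hw
    rw [sum_const, nsmul_eq_mul]
    by_cases hg : Y.good M n w
    · rw [if_neg (not_not.mpr hg), zero_mul, zero_add, ← mul_assoc, mul_comm]
      refine mul_le_mul_of_nonneg_right ?_ hw0
      exact_mod_cast hg.1.le
    · rw [if_pos hg]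
      have : 0 ≤ (M : ℝ) * ((Y.S w).card * f w) := by positivity
      linarith
  rw [e1] at h1
  refine h1.trans (add_le_add le_rfl ?_)
  rw [mul_assoc]
  refine mul_le_mul_of_nonneg_left ?_ (by positivity)
  unfold af
  rw [mul_sum]
  refine Finset.sum_le_sum fun w hw => ?_
  have hw0 := hf.1 _ w hw
  refine (hf.sum_le hw).trans (mul_le_mul_of_nonneg_right ?_ hw0)
  have h2 : ((Y.B w).card : ℝ) ≤ Y.C * (n + Y.s + 1) := by exact_mod_cast hB w hw
  have h3 : (0 : ℝ) ≤ Y.s := Nat.cast_nonneg _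
  nlinarith

end Q214.SF
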