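import Pool.Agent.Q214.SF.Conv

/-!
# Approximate logarithmic convexity for weights of bounded relative total influence: conclusion
-/

set_option autoImplicit false

namespace Q214.SF

open Finset Filter Topology TH966.AK TH966.AK.Sys
open scoped Classical

variable {α σ : Type}

/-- approximate logarithmic convexity, uniformly in the system and the weight -/
theorem convex (C s n0 : ℕ) (M : ℕ) (hM : 1 ≤ M) (k : ℝ) (hk : 0 ≤ k) (μ θ θ₁ C' : ℝ)
    (hμ : 0 < μ) (hθ : 0 < θ) (hθ₁ : θ < θ₁) :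
    ∃ D : ℝ, 0 ≤ D ∧ ∀ᶠ n : ℕ in atTop, ∀ Y : Sys α σ, Y.C = C → Y.s = s → Y.n0 = n0 →
    (∀ n w, w ∈ Y.K n → (Y.B w).card ≤ Y.C * (n + 1)) →
    ∀ f : α → ℝ, Inf Y k f → (∀ n : ℕ, Y.badf f M n ≤ C' * (θ * μ) ^ n) →
    (θ₁ * μ) ^ (n + s) ≤ Y.af f (n + s) →
    Y.af f (n + s) ^ 2 ≤ Y.af f n * Y.af f (n + s + s) * (1 + D / n) := by
  have herr : ∀ᶠ n : ℕ in atTop, ∀ Y : Sys α σ, Y.C = C → Y.s = s →
      (n : ℝ) * (C' * (θ * μ) ^ (n + Y.s) +
      Y.C * (n + 1) * (C' * (θ * μ) ^ n)) ≤ (θ₁ * μ) ^ (n + Y.s) := by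
    by_cases h : ∃ Y : Sys α σ, Y.C = C ∧ Y.s = s
    · obtain ⟨Y0, h1, h2⟩ := h
      filter_upwards [Y0.errors μ θ θ₁ C' hμ hθ hθ₁] with n hn Y hY1 hY2
      rw [hY1, hY2]
      rw [h1, h2] at hn
      exact hn
    · refine Filter.Eventually.of_forall fun n Y h1 h2 => ?_
      exact absurd ⟨Y, h1, h2⟩ h
  obtain ⟨D1, hD1⟩ : ∃ D1 : ℝ, D1 = 2 * k * M + 32 * k * C * (C + 1) * M ^ 3 := ⟨_, rfl⟩
  obtain ⟨X0, hX0⟩ : ∃ X0 : ℝ, X0 = 6 * C * M + 1 + k * M := ⟨_, rfl⟩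
  have hD10 : 0 ≤ D1 := by rw [hD1]; positivity
  have hX00 : 0 ≤ X0 := by rw [hX0]; positivity
  refine ⟨D1 + 8 * X0 + 8 * X0 * D1, by positivity, ?_⟩
  have t1 : Tendsto (fun n : ℕ => (n : ℝ)) atTop atTop := tendsto_natCast_atTop_atTop
  filter_upwards [herr, eventually_ge_atTop n0, eventually_ge_atTop (s + 2),
    eventually_ge_atTop (4 * M * C), t1.eventually_ge_atTop (10 * X0),
    t1.eventually_ge_atTop k]
    with n hkall hn1 hn2 hn3 hn4 hn5 Y hYC hYs hYn hBle f hf hbad hbig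
  have hk1 := hkall Y hYC hYs
  clear hkall herr
  subst hYC hYs hYn
  have hC : (1 : ℝ) ≤ Y.C := by exact_mod_cast Y.hC
  have hM' : (1 : ℝ) ≤ M := by exact_mod_cast hM
  have hn2' : (2 : ℝ) ≤ n := by exact_mod_cast (show 2 ≤ n by omega)
  have hn3' : (4 * M * Y.C : ℝ) ≤ n := by exact_mod_cast hn3
  have hn0 : (0 : ℝ) < n := by linarith
  have up := upper hf hk M n hM hn1 (by omega) hn3
  have lo := lower hf hk M n hM hn1 (by omega) (by omega) hn3
  have hpos : ∀ m, 0 ≤ Y.af f m := fun m => sum_nonneg fun w hw => hf.1 m w hw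
  have hbpos : ∀ m, 0 ≤ Y.badf f M m := fun m => sum_nonneg fun w hw => by
    unfold bad at hw
    exact hf.1 m w (mem_filter.1 hw).1
  -- the bad objects
  have u3 : (Y.badf f M (n + Y.s) + Y.C * (n + 1) * Y.badf f M n : ℝ) ≤
      Y.af f (n + Y.s) * (1 / n) := by
    rw [mul_one_div, le_div_iff₀ hn0]
    have b1 := hbad (n + Y.s)
    have b2 := hbad n
    calc (Y.badf f M (n + Y.s) + Y.C * (n + 1) * Y.badf f M n : ℝ) * n
        ≤ (C' * (θ * μ) ^ (n + Y.s) + Y.C * (n + 1) * (C' * (θ * μ) ^ n)) * n := by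
          apply mul_le_mul_of_nonneg_right _ hn0.le
          apply add_le_add b1
          exact mul_le_mul_of_nonneg_left b2 (by positivity)
      _ = n * (C' * (θ * μ) ^ (n + Y.s) + Y.C * (n + 1) * (C' * (θ * μ) ^ n)) := mul_comm _ _
      _ ≤ (θ₁ * μ) ^ (n + Y.s) := hk1
      _ ≤ _ := hbig
  -- comparison
  have hcomp : Y.af f (n + Y.s) ≤ 4 * M * (Y.C + 1) * Y.af f (n + Y.s + Y.s) := by
    have h1 := comp hf hk M (n + Y.s) hM (by omega) (by omega)
      (by push_cast; have : (0 : ℝ) ≤ Y.s := Nat.cast_nonneg _; linarith)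
      (fun w hw => hBle _ w hw)
    have h2 : Y.badf f M (n + Y.s) ≤ Y.af f (n + Y.s) / 2 := by
      have h3 : 0 ≤ (Y.C : ℝ) * (n + 1) * Y.badf f M n :=
        mul_nonneg (by positivity) (hbpos n)
      have h4 : Y.af f (n + Y.s) * (1 / n) ≤ Y.af f (n + Y.s) / 2 := by
        rw [mul_one_div]
        exact div_le_div_of_nonneg_left (hpos _) (by norm_num) hn2'
      linarith
    have hs0 : (0 : ℝ) ≤ Y.s := Nat.cast_nonneg _
    have h5 : (((n + Y.s : ℕ) : ℝ)) = n + Y.s := by push_cast; ring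
    rw [h5] at h1
    have h6 : Y.badf f M (n + Y.s) * (n + Y.s) ≤ Y.af f (n + Y.s) / 2 * (n + Y.s) :=
      mul_le_mul_of_nonneg_right h2 (by positivity)
    have h7 : Y.af f (n + Y.s) * (n + Y.s) ≤
        2 * (M * ((Y.C + 1) * (n + Y.s + Y.s + 1)) * Y.af f (n + Y.s + Y.s)) := by
      linarith
    have h8 : 2 * (M * ((Y.C + 1) * (n + Y.s + Y.s + 1)) * Y.af f (n + Y.s + Y.s)) ≤
        4 * M * (Y.C + 1) * Y.af f (n + Y.s + Y.s) * (n + Y.s) := by
      have h9 : 0 ≤ (M : ℝ) * (Y.C + 1) * Y.af f (n + Y.s + Y.s) :=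
        mul_nonneg (by positivity) (hpos _)
      nlinarith
    exact le_of_mul_le_mul_right (h7.trans h8) (by positivity)
  set G := (Y.K n).filter (Y.good M n) with hG
  have hf0 : ∀ w ∈ G, 0 ≤ f w := fun w hw => hf.1 n w (mem_filter.1 hw).1
  set S1 : ℝ := ∑ w ∈ G, f w * (((Y.S w).card : ℝ) / ((Y.B w).card : ℝ)) with hS1
  set S2 : ℝ := ∑ w ∈ G, f w * (((Y.S w).card : ℝ) / ((Y.B w).card : ℝ)) ^ 2 with hS2
  have hgood : ∀ w ∈ G, ((n : ℝ) < M * (Y.S w).card ∧ (n : ℝ) < M * (Y.B w).card) ∧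
      (4 * Y.C : ℝ) < (Y.S w).card ∧ (4 * Y.C : ℝ) < (Y.B w).card := by
    intro w hw
    have := (mem_filter.mp hw).2
    exact ⟨⟨by exact_mod_cast this.1, by exact_mod_cast this.2⟩,
      by exact_mod_cast Y.big hn3 this.1, by exact_mod_cast Y.big hn3 this.2⟩
  have hcs : S1 ^ 2 ≤ Y.af f n * S2 := by
    have hS2' : 0 ≤ S2 := by
      apply sum_nonneg; intro w hw
      exact mul_nonneg (hf0 w hw) (by positivity)
    have h1 : S1 ^ 2 ≤ (∑ w ∈ G, f w) * S2 := by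
      have h2 := Finset.sum_mul_sq_le_sq_mul_sq G (fun w => √(f w))
        (fun w => √(f w) * (((Y.S w).card : ℝ) / ((Y.B w).card : ℝ)))
      have e1 : ∑ w ∈ G, √(f w) * (√(f w) * (((Y.S w).card : ℝ) / ((Y.B w).card : ℝ))) =
          S1 := by
        rw [hS1]
        refine Finset.sum_congr rfl fun w hw => ?_
        rw [← mul_assoc, Real.mul_self_sqrt (hf0 w hw)]
      have e2 : ∑ w ∈ G, √(f w) ^ 2 = ∑ w ∈ G, f w :=
        Finset.sum_congr rfl fun w hw => Real.sq_sqrt (hf0 w hw)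
      have e3 : ∑ w ∈ G, (√(f w) * (((Y.S w).card : ℝ) / ((Y.B w).card : ℝ))) ^ 2 = S2 := by
        rw [hS2]
        refine Finset.sum_congr rfl fun w hw => ?_
        rw [mul_pow, Real.sq_sqrt (hf0 w hw)]
      rw [e1, e2, e3] at h2
      exact h2
    refine h1.trans ?_
    apply mul_le_mul_of_nonneg_right _ hS2'
    exact sum_le_sum_of_subset_of_nonneg (filter_subset _ _)
      fun w hw _ => hf.1 n w hw
  have u1 : Y.af f (n + Y.s) - (Y.badf f M (n + Y.s) + Y.C * (n + 1) * Y.badf f M n +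
      k * M / n * Y.af f (n + Y.s)) ≤ (1 + 2 * Y.C * M / n) * S1 := by
    have : ∑ w ∈ G, f w * (((Y.S w).card : ℝ) / (((Y.B w).card : ℝ) - Y.C)) ≤
        (1 + 2 * Y.C * M / n) * S1 := by
      rw [hS1, mul_sum]
      apply sum_le_sum
      intro w hw
      have hg := hgood w hw
      have h3 := Sys.term1 ((Y.S w).card : ℝ) ((Y.B w).card : ℝ) Y.C M n hC hn0 (by positivity)
        hg.1.2 hg.2.2
      calc f w * (((Y.S w).card : ℝ) / (((Y.B w).card : ℝ) - Y.C)) ≤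
            f w * ((1 + 2 * Y.C * M / n) * (((Y.S w).card : ℝ) / ((Y.B w).card : ℝ))) :=
            mul_le_mul_of_nonneg_left h3 (hf0 w hw)
        _ = _ := by ring
    linarith
  have u2 : (1 - 4 * Y.C * M / n) * S2 ≤ Y.af f (n + Y.s + Y.s) * (1 + D1 / n) := by
    have e1 : (1 - 4 * Y.C * M / n) * S2 ≤ ∑ w ∈ G, f w * (((Y.S w).card : ℝ) *
        (((Y.S w).card : ℝ) - Y.C) /
        ((((Y.B w).card : ℝ) + Y.C) * (((Y.B w).card : ℝ) + 2 * Y.C))) := by
      rw [hS2, mul_sum]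
      apply sum_le_sum
      intro w hw
      have hg := hgood w hw
      have h3 := Sys.term2 ((Y.S w).card : ℝ) ((Y.B w).card : ℝ) Y.C M n hC hM' hn3'
        hg.1.1 hg.1.2 hg.2.1 hg.2.2
      calc (1 - 4 * Y.C * M / (n : ℝ)) *
            (f w * (((Y.S w).card : ℝ) / ((Y.B w).card : ℝ)) ^ 2) =
            f w * ((1 - 4 * Y.C * M / n) * (((Y.S w).card : ℝ) / ((Y.B w).card : ℝ)) ^ 2) := by
              ring
        _ ≤ _ := mul_le_mul_of_nonneg_left h3 (hf0 w hw)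
    have e2 : k * (8 * Y.C * M ^ 2) / n * Y.af f (n + Y.s) ≤
        k * (8 * Y.C * M ^ 2) / n * (4 * M * (Y.C + 1) * Y.af f (n + Y.s + Y.s)) :=
      mul_le_mul_of_nonneg_left hcomp (by positivity)
    have e3 : Y.af f (n + Y.s + Y.s) * (1 + D1 / n) =
        Y.af f (n + Y.s + Y.s) + k * (2 * M) / n * Y.af f (n + Y.s + Y.s) +
        k * (8 * Y.C * M ^ 2) / n * (4 * M * (Y.C + 1) * Y.af f (n + Y.s + Y.s)) := by
      rw [hD1]
      field_simp
      ring
    rw [e3]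
    linarith
  have hx : 2 * (Y.C : ℝ) * M / n + 4 * Y.C * M / n + (1 + k * M) / n = X0 / n := by
    rw [hX0]; ring
  have hfin := fin_ineq (Y.af f n) (Y.af f (n + Y.s)) (Y.af f (n + Y.s + Y.s) * (1 + D1 / n))
    (Y.badf f M (n + Y.s) + Y.C * (n + 1) * Y.badf f M n + k * M / n * Y.af f (n + Y.s))
    S1 S2 (2 * Y.C * M / n) (4 * Y.C * M / n) ((1 + k * M) / n) (hpos _) (hpos _) hcs
    (by positivity) (by positivity) (by positivity) (by
      rw [hx, div_le_div_iff₀ hn0 (by norm_num)]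
      linarith) u1 (by
      have : Y.af f (n + Y.s) * ((1 + k * M) / n) =
        Y.af f (n + Y.s) * (1 / n) + k * M / n * Y.af f (n + Y.s) := by ring
      rw [this]
      linarith) u2 (mul_nonneg (hpos _) (by positivity))
  rw [hx] at hfin
  refine hfin.trans ?_
  have h1 : (1 + D1 / n) * (1 + 8 * (X0 / n)) ≤
      1 + (D1 + 8 * X0 + 8 * X0 * D1) / n := by
    have h2 : D1 / n * (8 * (X0 / n)) ≤ 8 * X0 * D1 / n := by
      have h3 : D1 / n * (8 * (X0 / n)) = 8 * X0 * D1 / n * (1 / n) := by ring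
      rw [h3]
      refine mul_le_of_le_one_right (by positivity) ?_
      rw [div_le_one hn0]
      linarith
    have h4 : (1 + D1 / n) * (1 + 8 * (X0 / n)) =
        1 + D1 / n + 8 * X0 / n + D1 / n * (8 * (X0 / n)) := by ring
    have h5 : 1 + (D1 + 8 * X0 + 8 * X0 * D1) / n =
        1 + D1 / n + 8 * X0 / n + 8 * X0 * D1 / n := by ring
    rw [h4, h5]
    linarith
  calc Y.af f n * (Y.af f (n + Y.s + Y.s) * (1 + D1 / n)) * (1 + 8 * (X0 / n))
      = Y.af f n * Y.af f (n + Y.s + Y.s) * ((1 + D1 / n) * (1 + 8 * (X0 / n))) := by ring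
    _ ≤ _ := mul_le_mul_of_nonneg_left h1 (mul_nonneg (hpos _) (hpos _))

end Q214.SF
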