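import Pool.Agent.Q214.SF.Mrk

/-!
# The critical ensemble of walks in a domain with given end points
-/

set_option autoImplicit false

namespace Q214.SF

open Finset Filter Topology TH966.AK Q219.SAW Q215.SAW
open scoped Classical

variable {A : P → P → Prop} {Z : Rule A}

theorem cD_ind_le {D E : Set P} {g : List P → ℝ} (h1 : ∀ w, |g w| ≤ 1) (n : ℕ) :
    |cD A D (fun w => ind E w * g w) n| ≤ cD A D (ind E) n := by
  unfold cD
  refine (abs_sum_le_sum_abs _ _).trans (sum_le_sum fun w _ => ?_)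
  rw [abs_mul, abs_of_nonneg (ind_nn E w)]
  exact mul_le_of_le_one_right (ind_nn E w) (h1 w)

/-- **the critical ensemble**: the joint law of the length and of a functional determined by few
points hardly changes when the length is shifted -/
theorem crit_tv {μ K : ℝ} (G : Growth Z μ K) (hsh : ∀ U U', Z.T U U' → ∀ x ∈ U, x ∈ U')
    (j : ℕ) :
    ∃ (R δ : ℝ) (m0 : ℕ), 0 < R ∧ 0 < δ ∧ ∀ (D E : Set P) (m M : ℕ) (Λ : ℝ), m0 ≤ m → m ≤ M →
      (∀ n, n < m → cD A D (ind E) n = 0) →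
      Real.log M ^ 2 ≤ Λ → Λ ≤ δ * m →
      Real.exp (-Λ) ≤ ∑ n ∈ range (M + 1), cD A D (ind E) n / μ ^ n →
      ∀ g : ℕ → List P → ℝ, (∀ n w, |g n w| ≤ 1) → (∀ n, Det A j (g n)) →
      ∑ n ∈ range (M + 1), |cD A D (fun w => ind E w * g n w) (n + Z.s) / μ ^ (n + Z.s) -
        cD A D (fun w => ind E w * g n w) n / μ ^ n| ≤
      R * √(Λ / m) * ∑ n ∈ range (M + 1), cD A D (ind E) n / μ ^ n := by
  have hμ := G.hμ
  have hμ0 : 0 < μ := by linarith
  have hs := G.hs
  obtain ⟨R0, δ0, n0, hR0, hδ0, hrat⟩ := fib_det G hsh j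
  obtain ⟨Cd, δd, nd, hCd, hδd, hdown⟩ := down_dom G hsh
  have hCd0 : 0 < Cd := by linarith
  refine ⟨R0 * √(8 * Cd) + 1, min (δ0 / (8 * Cd)) (δd / 8), 2 * (n0 + nd + Z.s) + 8,
    by positivity, lt_min (by positivity) (by positivity), ?_⟩
  intro D E m M Λ hm hmM hlow hΛ1 hΛ2 hZ g hg1 hg
  obtain ⟨c, hc⟩ : ∃ c : ℕ → ℝ, c = fun n => cD A D (ind E) n := ⟨_, rfl⟩
  have hcn : ∀ n, cD A D (ind E) n = c n := fun n => by rw [hc]
  simp only [hcn] at hlow hZ ⊢
  have hc0 : ∀ n, 0 ≤ c n := fun n => by rw [hc]; exact cD_nonneg (ind_nn E) n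
  obtain ⟨ZZ, hZZ⟩ : ∃ ZZ, ZZ = ∑ n ∈ range (M + 1), c n / μ ^ n := ⟨_, rfl⟩
  rw [← hZZ] at hZ ⊢
  have hm8 : (8 : ℝ) ≤ m := by exact_mod_cast (show 8 ≤ m by omega)
  have hm0 : (0 : ℝ) < m := by linarith
  have hmM' : (m : ℝ) ≤ M := by exact_mod_cast hmM
  have hM8 : (8 : ℝ) ≤ M := by linarith
  have hM0 : (0 : ℝ) < M := by linarith
  have hlog8 : (2 : ℝ) ≤ Real.log 8 := by
    have h1 : Real.log 8 = 3 * Real.log 2 := by
      rw [show (8 : ℝ) = 2 ^ 3 by norm_num, Real.log_pow]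
      norm_num
    rw [h1]
    have := Real.log_two_gt_d9
    linarith
  have hlogM : 2 ≤ Real.log M := hlog8.trans (Real.log_le_log (by norm_num) hM8)
  have hlogm0 : 0 ≤ Real.log m := Real.log_nonneg (by linarith)
  have hlogmM : Real.log m ≤ Real.log M := Real.log_le_log hm0 hmM'
  have hΛM : 2 * Real.log M ≤ Λ := by
    refine le_trans ?_ hΛ1
    rw [sq]
    exact mul_le_mul_of_nonneg_right hlogM (by linarith)
  have hΛ4 : 4 ≤ Λ := by linarith
  obtain ⟨Λ1, hΛ1d⟩ : ∃ Λ1, Λ1 = 4 * Λ := ⟨_, rfl⟩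
  obtain ⟨Λ2, hΛ2d⟩ : ∃ Λ2, Λ2 = Cd * Λ1 := ⟨_, rfl⟩
  have hΛ12 : Λ1 ≤ Λ2 := by rw [hΛ2d]; exact le_mul_of_one_le_left (by linarith) hCd
  have hδ1 : Λ ≤ δ0 / (8 * Cd) * m := hΛ2.trans (mul_le_mul_of_nonneg_right (min_le_left _ _) hm0.le)
  have hδ2 : Λ ≤ δd / 8 * m := hΛ2.trans (mul_le_mul_of_nonneg_right (min_le_right _ _) hm0.le)
  -- each term
  have hterm : ∀ n ∈ range (M + 1), |cD A D (fun w => ind E w * g n w) (n + Z.s) / μ ^ (n + Z.s) -
        cD A D (fun w => ind E w * g n w) n / μ ^ n| ≤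
      R0 * √(8 * Cd) * √(Λ / m) * (c n / μ ^ n) + 2 * Real.exp (-Λ1) := by
    intro n hn
    rw [mem_range] at hn
    have ha := cD_ind_le (A := A) (D := D) (E := E) (hg1 n) n
    have hb := cD_ind_le (A := A) (D := D) (E := E) (hg1 n) (n + Z.s)
    rw [hcn] at ha hb
    obtain ⟨x0, hx0⟩ : ∃ x0, x0 = cD A D (fun w => ind E w * g n w) n := ⟨_, rfl⟩
    obtain ⟨x1, hx1⟩ : ∃ x1, x1 = cD A D (fun w => ind E w * g n w) (n + Z.s) := ⟨_, rfl⟩
    rw [← hx0] at ha ⊢
    rw [← hx1] at hb ⊢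
    have hp0 : 0 < μ ^ n := by positivity
    have hp1 : 0 < μ ^ (n + Z.s) := by positivity
    have hpos : 0 ≤ R0 * √(8 * Cd) * √(Λ / m) * (c n / μ ^ n) :=
      mul_nonneg (by positivity) (div_nonneg (hc0 n) hp0.le)
    have hexp0 : 0 ≤ Real.exp (-Λ1) := (Real.exp_pos _).le
    rcases lt_or_ge (n + Z.s) m with h1 | h1
    · rw [hlow n (by omega)] at ha
      rw [hlow _ h1] at hb
      rw [abs_nonpos_iff.1 ha, abs_nonpos_iff.1 hb, zero_div, zero_div, sub_zero, abs_zero]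
      linarith
    · have hnm : (m : ℝ) / 2 ≤ n := by
        rw [div_le_iff₀ (by norm_num)]
        exact_mod_cast (show m ≤ n * 2 by omega)
      have hn0 : (0 : ℝ) < n := by linarith
      have hnM : (n : ℝ) ≤ M := by exact_mod_cast (show n ≤ M by omega)
      have hlogn : Real.log n ^ 2 ≤ Λ := by
        refine le_trans (pow_le_pow_left₀ (Real.log_nonneg (by linarith)) ?_ 2) hΛ1
        exact Real.log_le_log hn0 hnM
      rcases le_or_gt (Real.exp (-Λ2) * μ ^ n) (c n) with h2 | h2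
      · have h3 := hrat D E (g n) (hg1 n) (hg n) n (by omega) Λ2 (by linarith) (by
          rw [hΛ2d, hΛ1d]
          have h4 : Cd * (4 * Λ) ≤ Cd * (4 * (δ0 / (8 * Cd) * m)) := by
            refine mul_le_mul_of_nonneg_left (mul_le_mul_of_nonneg_left hδ1 (by norm_num)) hCd0.le
          have h5 : Cd * (4 * (δ0 / (8 * Cd) * m)) = δ0 * (m / 2) := by
            field_simp
            norm_num
          rw [h5] at h4
          exact h4.trans (mul_le_mul_of_nonneg_left hnm hδ0.le)) (by rw [hcn]; exact h2)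
        rw [hcn, ← hx0, ← hx1] at h3
        have e : x1 / μ ^ (n + Z.s) - x0 / μ ^ n = (x1 - μ ^ Z.s * x0) / μ ^ (n + Z.s) := by
          rw [pow_add]
          field_simp
        rw [e, abs_div, abs_of_pos hp1, div_le_iff₀ hp1]
        have h6 : √(Λ2 / n) ≤ √(8 * Cd) * √(Λ / m) := by
          rw [← Real.sqrt_mul (by positivity)]
          refine Real.sqrt_le_sqrt ?_
          rw [div_le_iff₀ hn0, hΛ2d, hΛ1d]
          have h7 : 8 * Cd * (Λ / m) * (m / 2) ≤ 8 * Cd * (Λ / m) * n :=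
            mul_le_mul_of_nonneg_left hnm (by positivity)
          refine le_trans (le_of_eq ?_) h7
          field_simp
          ring
        have h8 : R0 * √(Λ2 / n) * (μ ^ Z.s * c n) ≤
            R0 * (√(8 * Cd) * √(Λ / m)) * (μ ^ Z.s * c n) := by
          refine mul_le_mul_of_nonneg_right (mul_le_mul_of_nonneg_left h6 hR0.le) ?_
          exact mul_nonneg (by positivity) (hc0 n)
        have h9 : R0 * (√(8 * Cd) * √(Λ / m)) * (μ ^ Z.s * c n) =
            R0 * √(8 * Cd) * √(Λ / m) * (c n / μ ^ n) * μ ^ (n + Z.s) := by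
          rw [pow_add]
          field_simp
        have h10 : 0 ≤ 2 * Real.exp (-Λ1) * μ ^ (n + Z.s) := by positivity
        rw [add_mul]
        linarith
      · have h3 : c (n + Z.s) < Real.exp (-Λ1) * μ ^ (n + Z.s) := by
          by_contra hcon
          push Not at hcon
          have h4 := hdown D (ind E) (wtD_ind _ _) n (by omega) Λ1 (by linarith) (by
            rw [hΛ1d]
            have h5 : 4 * Λ ≤ 4 * (δd / 8 * m) := by linarith
            have h6 : 4 * (δd / 8 * m) = δd * (m / 2) := by ring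
            rw [h6] at h5
            exact h5.trans (mul_le_mul_of_nonneg_left hnm hδd.le)) (by rw [hcn]; exact hcon)
          rw [hcn, ← hΛ2d] at h4
          linarith
        have h4 : c n ≤ Real.exp (-Λ1) * μ ^ n := by
          refine h2.le.trans (mul_le_mul_of_nonneg_right ?_ hp0.le)
          exact Real.exp_le_exp.2 (by linarith)
        have h5 : |x1 / μ ^ (n + Z.s)| ≤ Real.exp (-Λ1) := by
          rw [abs_div, abs_of_pos hp1, div_le_iff₀ hp1]
          exact hb.trans h3.le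
        have h6 : |x0 / μ ^ n| ≤ Real.exp (-Λ1) := by
          rw [abs_div, abs_of_pos hp0, div_le_iff₀ hp0]
          exact ha.trans h4
        have h7 := abs_sub (x1 / μ ^ (n + Z.s)) (x0 / μ ^ n)
        linarith
  refine (sum_le_sum hterm).trans ?_
  rw [sum_add_distrib, ← mul_sum, ← hZZ, sum_const, card_range, nsmul_eq_mul]
  have hZ0 : 0 < ZZ := lt_of_lt_of_le (Real.exp_pos _) hZ
  have hfin : ((M + 1 : ℕ) : ℝ) * (2 * Real.exp (-Λ1)) ≤ √(Λ / m) * ZZ := by
    have h1 : ((M + 1 : ℕ) : ℝ) * 2 ≤ Real.exp (2 * Real.log M) := by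
      have h2 : Real.exp (2 * Real.log M) = (M : ℝ) * M := by
        rw [two_mul, Real.exp_add, Real.exp_log hM0]
      rw [h2]
      push_cast
      have h3 : 8 * (M : ℝ) ≤ M * M := mul_le_mul_of_nonneg_right hM8 hM0.le
      linarith
    have h2 : 1 / (m : ℝ) ≤ √(Λ / m) := by
      refine Real.le_sqrt_of_sq_le ?_
      rw [div_pow, one_pow]
      rw [div_le_div_iff₀ (by positivity) hm0]
      have h3 : (1 : ℝ) * m ≤ Λ * m := mul_le_mul_of_nonneg_right (by linarith) hm0.le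
      have h4 : Λ * m * 1 ≤ Λ * m * m := mul_le_mul_of_nonneg_left (by linarith) (by positivity)
      calc (1 : ℝ) * m ≤ Λ * m := h3
        _ ≤ Λ * m * m := by linarith
        _ = Λ * (m : ℝ) ^ 2 := by ring
    have h3 : Real.exp (-Λ) ≤ 1 / m := by
      rw [le_div_iff₀ hm0]
      have h4 : (m : ℝ) = Real.exp (Real.log m) := (Real.exp_log hm0).symm
      rw [h4, ← Real.exp_add, Real.exp_le_one_iff]
      linarith
    calc ((M + 1 : ℕ) : ℝ) * (2 * Real.exp (-Λ1)) = ((M + 1 : ℕ) : ℝ) * 2 * Real.exp (-Λ1) := by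
          ring
      _ ≤ Real.exp (2 * Real.log M) * Real.exp (-Λ1) :=
          mul_le_mul_of_nonneg_right h1 (Real.exp_pos _).le
      _ = Real.exp (2 * Real.log M - Λ1) := by rw [← Real.exp_add]; congr 1
      _ ≤ Real.exp (-Λ + -Λ) := Real.exp_le_exp.2 (by rw [hΛ1d]; linarith)
      _ = Real.exp (-Λ) * Real.exp (-Λ) := Real.exp_add _ _
      _ ≤ √(Λ / m) * ZZ := mul_le_mul (h3.trans h2) hZ (Real.exp_pos _).le (Real.sqrt_nonneg _)
  rw [add_mul, add_mul, one_mul]
  linarith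

end Q214.SF
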