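import Pool.Agent.TH966.AK.Weight
import Pool.Agent.Q219.SAW.Dwn
import Pool.Agent.Q214.SF.Conv2

/-!
# Walks in domains with weights of bounded relative total influence: the ratio theorem
-/

set_option autoImplicit false

namespace Q214.SF

open Finset Filter Topology TH966.AK Q219.SAW
open scoped Classical

variable {A : P → P → Prop} (Z : Rule A)

/-- nonnegative weights of polynomial growth, for which in the domain `D` the sum of the changes
over all downward moves is at most `k` times the weight -/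
structure InfD (D : Set P) (k : ℝ) (m : ℕ) (f : List P → ℝ) : Prop where
  nn : ∀ w, 0 ≤ f w
  le : ∀ w, Walk A w → f w ≤ (2 * (w.length : ℝ)) ^ m
  inf : ∀ w, Walk A w → In D w → ∑ q ∈ Z.B w, |f (Rule.rep w q.2 q.1) - f w| ≤ k * f w

variable {Z}

theorem B_le {n : ℕ} {w : List P} (hw : w ∈ Kw A n) : (Z.B w).card ≤ Z.CC * (n + 1) := by
  rw [Z.mem_K] at hw
  have h1 : (Z.B w).card ≤ (w.toFinset.biUnion Z.cand).card := Finset.card_filter_le _ _
  have h2 := Finset.card_biUnion_le_card_mul w.toFinset Z.cand Z.c0 fun x _ => Z.card_cand x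
  have h3 : w.toFinset.card ≤ n + 1 := (List.toFinset_card_le w).trans hw.1.le
  have h4 : w.toFinset.card * Z.c0 ≤ (n + 1) * Z.c0 := Nat.mul_le_mul_right _ h3
  have h5 : Z.c0 ≤ Z.CC := by unfold Rule.CC; omega
  have h6 : (n + 1) * Z.c0 ≤ Z.CC * (n + 1) := by
    rw [mul_comm]; exact Nat.mul_le_mul_right _ h5
  omega

theorem InfD.len_le {D : Set P} {k : ℝ} {m : ℕ} {f : List P → ℝ} (hf : InfD Z D k m f) {n : ℕ}
    {w : List P} (hw : w ∈ Kw A n) : f w ≤ (2 * (n : ℝ) + 2) ^ m := by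
  rw [Z.mem_K] at hw
  have h1 := hf.le w hw.2
  rw [hw.1] at h1
  refine h1.trans (le_of_eq ?_)
  push_cast
  ring

theorem InfD.cD_le {D : Set P} {k : ℝ} {m : ℕ} {f : List P → ℝ} (hf : InfD Z D k m f) (n : ℕ) :
    cD A D f n ≤ (2 * (n : ℝ) + 2) ^ m * (Kw A n).card := by
  unfold cD
  refine (sum_le_sum (g := fun _ => (2 * (n : ℝ) + 2) ^ m) fun w hw => ?_).trans ?_
  · exact hf.len_le (mem_filter.1 hw).1
  · rw [sum_const, nsmul_eq_mul, mul_comm]
    refine mul_le_mul_of_nonneg_left ?_ (by positivity)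
    exact_mod_cast card_le_card (filter_subset _ _)

/-- polynomial factors do not matter -/
theorem grow_poly {μ K : ℝ} (G : Growth Z μ K) (m r : ℕ) : ∃ K' : ℝ, 0 ≤ K' ∧
    ∀ k : ℕ, 2 ≤ k → ∀ j ≤ k, (2 * ((Z.s * j + r : ℕ) : ℝ) + 2) ^ m * yy A μ Z.s r j ≤
      Real.exp (K' * Real.log k ^ 2) := by
  have hμ := G.hμ
  have hμ0 : 0 < μ := by linarith
  obtain ⟨K', hK', h⟩ := G.grow r
  obtain ⟨b, hb⟩ : ∃ b : ℝ, b = 2 * (Z.s : ℝ) + 2 * r + 2 := ⟨_, rfl⟩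
  have hb1 : 1 ≤ b := by
    have h1 : (0 : ℝ) ≤ Z.s := Nat.cast_nonneg _
    have h2 : (0 : ℝ) ≤ r := Nat.cast_nonneg _
    linarith
  have hl2 : 0 < Real.log 2 := Real.log_pos (by norm_num)
  have hlb : 0 ≤ Real.log b := Real.log_nonneg hb1
  refine ⟨K' + m * ((Real.log b / Real.log 2 + 1) / Real.log 2), by positivity,
    fun k hk j hj => ?_⟩
  have h1 := h k hk j hj
  have hk' : (2 : ℝ) ≤ k := by exact_mod_cast hk
  have hlk : Real.log 2 ≤ Real.log k := Real.log_le_log (by norm_num) hk'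
  have hlk0 : 0 < Real.log k := by linarith
  have h2 : (2 * ((Z.s * j + r : ℕ) : ℝ) + 2) ≤ b * k := by
    have hj' : (j : ℝ) ≤ k := by exact_mod_cast hj
    have h3 : (0 : ℝ) ≤ Z.s := Nat.cast_nonneg _
    have h4 : (0 : ℝ) ≤ r := Nat.cast_nonneg _
    push_cast
    rw [hb]
    nlinarith
  have h3 : 2 * ((Z.s * j + r : ℕ) : ℝ) + 2 ≤
      Real.exp ((Real.log b / Real.log 2 + 1) * Real.log k) := by
    refine h2.trans ?_
    have h4 : Real.log b + Real.log k ≤ (Real.log b / Real.log 2 + 1) * Real.log k := by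
      rw [add_mul, one_mul]
      refine add_le_add ?_ le_rfl
      rw [div_mul_eq_mul_div, le_div_iff₀ hl2]
      exact mul_le_mul_of_nonneg_left hlk hlb
    have h5 : b * k = Real.exp (Real.log b + Real.log k) := by
      rw [Real.exp_add, Real.exp_log (by linarith), Real.exp_log (by linarith)]
    rw [h5]
    exact Real.exp_le_exp.2 h4
  have h4 : (2 * ((Z.s * j + r : ℕ) : ℝ) + 2) ^ m ≤
      Real.exp (m * ((Real.log b / Real.log 2 + 1) / Real.log 2) * Real.log k ^ 2) := by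
    have h5 := pow_le_pow_left₀ (by positivity) h3 m
    rw [← Real.exp_nat_mul] at h5
    refine h5.trans (Real.exp_le_exp.2 ?_)
    have h6 : Real.log k ≤ Real.log k ^ 2 / Real.log 2 := by
      rw [le_div_iff₀ hl2, sq]
      exact mul_le_mul_of_nonneg_left hlk hlk0.le
    have h7 := mul_le_mul_of_nonneg_left h6
      (show 0 ≤ (m : ℝ) * (Real.log b / Real.log 2 + 1) by positivity)
    calc (m : ℝ) * ((Real.log b / Real.log 2 + 1) * Real.log k) =
          (m : ℝ) * (Real.log b / Real.log 2 + 1) * Real.log k := by ring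
      _ ≤ _ := h7
      _ = _ := by ring
  rw [add_mul, Real.exp_add, mul_comm (Real.exp (K' * _))]
  exact mul_le_mul h4 h1 (le_trans zero_le_one (G.yy_ge r j)) (Real.exp_pos _).le

/-- Kesten's inequality, uniformly in the domain and the weight -/
theorem kes_inf {μ K : ℝ} (G : Growth Z μ K) (hsh : ∀ U U', Z.T U U' → ∀ x ∈ U, x ∈ U')
    (k : ℝ) (hk : 0 ≤ k) (m r : ℕ) :
    ∃ (D0 θK : ℝ) (k0 : ℕ), 0 ≤ D0 ∧ 0 < θK ∧ θK < 1 ∧ ∀ (D : Set P) (f : List P → ℝ),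
      InfD Z D k m f → TH966.KS.Kes (yD A D f μ Z.s r) D0 θK k0 := by
  have hμ := G.hμ
  have hμ0 : 0 < μ := by linarith
  have hs := G.hs
  have hK0 := G.hK
  obtain ⟨M0, ρ, C0, hM0, hρ0, hρ1, hpoor⟩ := G.poor
  choose C1 hC1 using G.hup
  obtain ⟨M, θ, C', hM, hθ0, hθ1, hC', hbad⟩ := pattern_u (α := List P) (σ := List P × List P)
    Z.CC Z.s 0 μ hμ (fun τ => if h : 0 < τ then C1 τ h else 0) M0 ρ C0 hM0 hρ0 hρ1
  obtain ⟨θ₂, hθ₂⟩ : ∃ θ₂ : ℝ, θ₂ = (1 + θ) / 2 := ⟨_, rfl⟩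
  obtain ⟨B, hB0, hB⟩ := absorb m hθ0 (show θ < θ₂ by linarith)
  obtain ⟨θ₁, hθ₁⟩ : ∃ θ₁ : ℝ, θ₁ = (1 + θ₂) / 2 := ⟨_, rfl⟩
  have hθ₁0 : 0 < θ₁ := by linarith
  have hθ₁1 : θ₁ < 1 := by linarith
  obtain ⟨D1, hD1, hconv⟩ := convex (α := List P) (σ := List P × List P) Z.CC Z.s 0 M hM k hk μ θ₂
    θ₁ (C' * B) hμ0 (by linarith) (by linarith)
  obtain ⟨θK, hθK⟩ : ∃ θK : ℝ, θK = √θ₁ := ⟨_, rfl⟩
  have hθK0 : 0 < θK := by rw [hθK]; exact Real.sqrt_pos.2 hθ₁0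
  have hθK1 : θK < 1 := by
    rw [hθK, Real.sqrt_lt' one_pos]
    linarith
  have hθK2 : θK ^ 2 = θ₁ := by rw [hθK]; exact Real.sq_sqrt hθ₁0.le
  have ht : Tendsto (fun k : ℕ => Z.s * k + r) atTop atTop := by
    refine tendsto_atTop_mono (fun k => ?_) tendsto_id
    have := Nat.mul_le_mul_right k hs
    simp only [id]
    omega
  obtain ⟨k0, hk0⟩ := eventually_atTop.1 (ht.eventually hconv)
  refine ⟨D1, θK, max k0 1, hD1, hθK0, hθK1, ?_⟩
  intro D f hf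
  obtain ⟨Y, hY⟩ : ∃ Y, Y = sysD Z hsh D := ⟨_, rfl⟩
  have hYC : Y.C = Z.CC := by rw [hY]; rfl
  have hYs : Y.s = Z.s := by rw [hY]; rfl
  have hYn : Y.n0 = 0 := by rw [hY]; rfl
  have hYK : ∀ n, Y.K n = KD A D n := by intro n; rw [hY]; rfl
  have hYB : ∀ w, Y.B w = Z.B w := by intro n; rw [hY]; rfl
  have hinf : Inf Y k f := by
    refine ⟨fun n w _ => hf.nn w, ?_⟩
    intro n w hw
    rw [hYK, mem_KD (Z := Z)] at hw
    have h1 := hf.inf w hw.1.2 hw.2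
    rw [hYB]
    rw [hY]
    exact h1
  have hYbad : ∀ n, ((Y.bad M n).card : ℝ) ≤ C' * (θ * μ) ^ n := by
    refine hbad Y hYC hYs hYn ?_ ?_
    · intro τ hτ n
      simp only [dif_pos hτ]
      refine le_trans ?_ (hC1 τ hτ n)
      rw [hYK]
      exact_mod_cast card_le_card (filter_subset _ _)
    · intro n
      refine le_trans ?_ (hpoor n)
      rw [hYK]
      have : ((KD A D n).filter (fun w => M0 * (Y.B w).card ≤ n)) ⊆
          (Kw A n).filter (fun w => M0 * (Z.B w).card ≤ n) := by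
        intro w hw
        rw [mem_filter] at hw ⊢
        rw [hYB] at hw
        exact ⟨(mem_filter.1 hw.1).1, hw.2⟩
      exact_mod_cast card_le_card this
  have haf : ∀ n, Y.af f n = cD A D f n := by
    intro n
    unfold Sys.af cD
    rw [hYK]
  have hbadf : ∀ n, Y.badf f M n ≤ C' * B * (θ₂ * μ) ^ n := by
    intro n
    have h1 : Y.badf f M n ≤ (2 * (n : ℝ) + 2) ^ m * (Y.bad M n).card := by
      unfold Sys.badf
      rw [mul_comm, ← nsmul_eq_mul, ← sum_const]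
      refine sum_le_sum fun w hw => hf.len_le ?_
      unfold Sys.bad at hw
      have h2 := (mem_filter.1 hw).1
      rw [hYK] at h2
      exact (mem_filter.1 h2).1
    refine h1.trans ?_
    have h2 := mul_le_mul_of_nonneg_left (hYbad n) (show (0 : ℝ) ≤ (2 * (n : ℝ) + 2) ^ m by
      positivity)
    refine h2.trans ?_
    have h3 := mul_le_mul_of_nonneg_right (hB n) (show 0 ≤ C' * μ ^ n by positivity)
    rw [mul_pow, mul_pow]
    calc (2 * (n : ℝ) + 2) ^ m * (C' * (θ ^ n * μ ^ n)) =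
          (2 * (n : ℝ) + 2) ^ m * θ ^ n * (C' * μ ^ n) := by ring
      _ ≤ _ := h3
      _ = _ := by ring
  intro j hj hth
  have hj1 : 1 ≤ j := le_trans (le_max_right _ _) hj
  have h1 := hk0 j (le_trans (le_max_left _ _) hj) Y hYC hYs hYn (by
    intro n w hw
    rw [hYK] at hw
    rw [hYB, hYC]
    exact B_le (mem_filter.1 hw).1) f hinf hbadf
  rw [haf, haf, haf] at h1
  have e1 : Z.s * j + r + Z.s = Z.s * (j + 1) + r := by ring
  have e2 : Z.s * (j + 1) + r + Z.s = Z.s * (j + 2) + r := by ring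
  rw [e1, e2] at h1
  unfold yD at hth ⊢
  have h2 := h1 (by
    rw [mul_pow]
    rw [le_div_iff₀ (by positivity)] at hth
    refine le_trans (mul_le_mul_of_nonneg_right ?_ (by positivity)) hth
    have e3 : 2 * j + 2 = 2 * (j + 1) := by ring
    rw [e3, pow_mul, hθK2]
    refine pow_le_pow_of_le_one hθ₁0.le hθ₁1.le ?_
    have := Nat.mul_le_mul_right (j + 1) hs
    omega)
  have hj' : (1 : ℝ) ≤ j := by exact_mod_cast hj1
  have h3 : (1 : ℝ) + D1 / ((Z.s * j + r : ℕ) : ℝ) ≤ 1 + D1 / j := by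
    refine add_le_add le_rfl (div_le_div_of_nonneg_left hD1 (by positivity) ?_)
    have h4 : j ≤ Z.s * j + r := by
      have := Nat.mul_le_mul_right j hs
      omega
    exact_mod_cast h4
  have h4 : cD A D f (Z.s * (j + 1) + r) ^ 2 ≤ cD A D f (Z.s * j + r) *
      cD A D f (Z.s * (j + 2) + r) * (1 + D1 / j) := by
    refine h2.trans (mul_le_mul_of_nonneg_left ?_
      (mul_nonneg (cD_nonneg hf.nn _) (cD_nonneg hf.nn _)))
    exact h3
  have e3 : (μ ^ (Z.s * (j + 1) + r)) ^ 2 = μ ^ (Z.s * j + r) * μ ^ (Z.s * (j + 2) + r) := by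
    rw [← pow_mul, ← pow_add]
    congr 1
    ring
  rw [div_pow, div_mul_div_comm, div_mul_eq_mul_div, e3]
  exact div_le_div_of_nonneg_right h4 (by positivity)

/-- the ratios along one residue class -/
theorem ratio_res {μ K : ℝ} (G : Growth Z μ K) (hsh : ∀ U U', Z.T U U' → ∀ x ∈ U, x ∈ U')
    (κ : ℝ) (hκ : 0 ≤ κ) (m r : ℕ) :
    ∃ (R δ : ℝ) (k1 : ℕ), 0 < R ∧ 0 < δ ∧ ∀ (D : Set P) (f : List P → ℝ), InfD Z D κ m f →
      ∀ k : ℕ, k1 ≤ k → ∀ Λ : ℝ, Real.log k ^ 2 ≤ Λ → Λ ≤ δ * k →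
      Real.exp (-Λ) * μ ^ (Z.s * k + r) ≤ cD A D f (Z.s * k + r) →
      |cD A D f (Z.s * k + r + Z.s) / cD A D f (Z.s * k + r) / μ ^ Z.s - 1| ≤ R * √(Λ / k) := by
  have hμ := G.hμ
  have hμ0 : 0 < μ := by linarith
  obtain ⟨D0, θ, k0, hD0, hθ0, hθ1, hkes⟩ := kes_inf G hsh κ hκ m r
  obtain ⟨K', hK', hg⟩ := grow_poly G m r
  obtain ⟨R, δ, k1, hR, hδ, hrate⟩ := rate_loc D0 θ k0 hD0 hθ0 hθ1 hK'
  refine ⟨R, δ, k1, hR, hδ, ?_⟩
  intro D f hf k hk Λ hΛ1 hΛ2 hlow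
  obtain ⟨y, hy⟩ : ∃ y, y = yD A D f μ Z.s r := ⟨_, rfl⟩
  have hK := hkes D f hf
  rw [← hy] at hK
  have hy0 : ∀ j, 0 ≤ y j := by
    intro j
    rw [hy]
    exact div_nonneg (cD_nonneg hf.nn _) (by positivity)
  have hgr : ∀ k : ℕ, 2 ≤ k → ∀ m ≤ k, y m ≤ Real.exp (K' * Real.log k ^ 2) := by
    intro k hk2 j hj
    refine le_trans ?_ (hg k hk2 j hj)
    rw [hy]
    unfold yy yD
    rw [← mul_div_assoc]
    exact div_le_div_of_nonneg_right (hf.cD_le _) (by positivity)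
  have hlow' : Real.exp (-Λ) ≤ y k := by
    rw [hy]
    unfold yD
    rw [le_div_iff₀ (by positivity)]
    exact hlow
  have hfin := hrate y hK hy0 hgr k hk Λ hΛ1 hΛ2 hlow'
  have e : cD A D f (Z.s * k + r + Z.s) / cD A D f (Z.s * k + r) / μ ^ Z.s =
      y (k + 1) / y k := by
    rw [hy]
    unfold yD
    have e1 : Z.s * (k + 1) + r = Z.s * k + r + Z.s := by ring
    have h2 : 0 < cD A D f (Z.s * k + r) := lt_of_lt_of_le (by positivity) hlow
    rw [e1, pow_add μ (Z.s * k + r) Z.s]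
    field_simp
  rw [e]
  exact hfin

/-- **the uniform ratio theorem** -/
theorem ratio_inf {μ K : ℝ} (G : Growth Z μ K) (hsh : ∀ U U', Z.T U U' → ∀ x ∈ U, x ∈ U')
    (κ : ℝ) (hκ : 0 ≤ κ) (m : ℕ) :
    ∃ (R δ : ℝ) (n1 : ℕ), 0 < R ∧ 0 < δ ∧ ∀ (D : Set P) (f : List P → ℝ), InfD Z D κ m f →
      ∀ n : ℕ, n1 ≤ n → ∀ Λ : ℝ, Real.log n ^ 2 ≤ Λ → Λ ≤ δ * n →
      Real.exp (-Λ) * μ ^ n ≤ cD A D f n →
      |cD A D f (n + Z.s) / cD A D f n / μ ^ Z.s - 1| ≤ R * √(Λ / n) := by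
  have hs := G.hs
  choose R δ k1 hR hδ h using ratio_res G hsh κ hκ m
  obtain ⟨S, hS⟩ : ∃ S : ℝ, S = ∑ r ∈ range Z.s, R r := ⟨_, rfl⟩
  have hne : (range Z.s).Nonempty := ⟨0, mem_range.2 hs⟩
  obtain ⟨δ', hδ'⟩ : ∃ δ' : ℝ, δ' = (range Z.s).inf' hne δ := ⟨_, rfl⟩
  have hδ'0 : 0 < δ' := by
    rw [hδ', Finset.lt_inf'_iff]
    exact fun r _ => hδ r
  obtain ⟨k2, hk2⟩ : ∃ k2 : ℕ, k2 = ∑ r ∈ range Z.s, k1 r := ⟨_, rfl⟩
  have hS0 : 0 ≤ S := by
    rw [hS]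
    exact sum_nonneg fun r _ => (hR r).le
  have hs1 : (1 : ℝ) ≤ Z.s := by exact_mod_cast hs
  refine ⟨(S + 1) * (2 * Z.s), δ' / (2 * Z.s), Z.s * (k2 + 2), by positivity, by positivity, ?_⟩
  intro D f hf n hn Λ hΛ1 hΛ2 hlow
  obtain ⟨k, hk⟩ : ∃ k, k = n / Z.s := ⟨_, rfl⟩
  obtain ⟨r, hr⟩ : ∃ r, r = n % Z.s := ⟨_, rfl⟩
  have hrs : r < Z.s := by rw [hr]; exact Nat.mod_lt _ hs
  have hnk : Z.s * k + r = n := by rw [hk, hr]; exact Nat.div_add_mod n Z.s
  have hkk : k2 + 2 ≤ k := by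
    rw [hk, Nat.le_div_iff_mul_le hs, mul_comm]
    exact hn
  have hk1r : k1 r ≤ k := by
    have : k1 r ≤ k2 := by
      rw [hk2]
      exact single_le_sum (f := k1) (fun _ _ => Nat.zero_le _) (mem_range.2 hrs)
    omega
  have hkn : k ≤ n := by
    have := Nat.mul_le_mul_right k hs
    omega
  have hk0 : (0 : ℝ) < k := by
    have : 0 < k := by omega
    exact_mod_cast this
  have hn0 : (0 : ℝ) < n := lt_of_lt_of_le hk0 (by exact_mod_cast hkn)
  have hk2n : (n : ℝ) ≤ 2 * Z.s * k := by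
    have h10 : n ≤ Z.s * k + Z.s := by omega
    have h11 : (n : ℝ) ≤ Z.s * k + Z.s := by exact_mod_cast h10
    have h12 : (1 : ℝ) ≤ k := by exact_mod_cast (show 1 ≤ k by omega)
    nlinarith
  have hlk : Real.log (k : ℝ) ≤ Real.log n := Real.log_le_log hk0 (by exact_mod_cast hkn)
  have hlk0 : 0 ≤ Real.log (k : ℝ) := Real.log_nonneg (by exact_mod_cast (show 1 ≤ k by omega))
  have hΛ0 : 0 ≤ Λ := (sq_nonneg _).trans hΛ1
  have g1 := h r D f hf k hk1r Λ ((pow_le_pow_left₀ hlk0 hlk 2).trans hΛ1) (by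
    refine hΛ2.trans ?_
    have h1 : δ' ≤ δ r := by
      rw [hδ']
      exact Finset.inf'_le _ (mem_range.2 hrs)
    calc δ' / (2 * Z.s) * n ≤ δ' / (2 * Z.s) * (2 * Z.s * k) :=
          mul_le_mul_of_nonneg_left hk2n (by positivity)
      _ = δ' * k := by field_simp
      _ ≤ δ r * k := mul_le_mul_of_nonneg_right h1 hk0.le) (by rw [hnk]; exact hlow)
  rw [hnk] at g1
  refine g1.trans ?_
  have hRS : R r ≤ S := by
    rw [hS]
    exact single_le_sum (f := R) (fun i _ => (hR i).le) (mem_range.2 hrs)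
  have h7 : √(Λ / k) ≤ 2 * Z.s * √(Λ / n) := by
    rw [Real.sqrt_le_left (by positivity), mul_pow, Real.sq_sqrt (by positivity)]
    rw [div_le_iff₀ hk0]
    have h8 : Λ ≤ Λ / n * (2 * Z.s * k) := by
      rw [div_mul_eq_mul_div, le_div_iff₀ hn0]
      exact mul_le_mul_of_nonneg_left hk2n hΛ0
    refine h8.trans ?_
    have h9 : 0 ≤ Λ / n * k := by positivity
    have h10 : (2 * (Z.s : ℝ)) ≤ (2 * Z.s) ^ 2 := by nlinarith
    calc Λ / n * (2 * Z.s * k) = 2 * Z.s * (Λ / n * k) := by ring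
      _ ≤ (2 * Z.s) ^ 2 * (Λ / n * k) := mul_le_mul_of_nonneg_right h10 h9
      _ = _ := by ring
  calc R r * √(Λ / k) ≤ S * (2 * Z.s * √(Λ / n)) :=
        mul_le_mul hRS h7 (by positivity) hS0
    _ ≤ _ := by
        have : 0 ≤ 2 * Z.s * √(Λ / n) := by positivity
        nlinarith

end Q214.SF
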