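import Pool.Agent.Q214.SF.DomI
import Pool.Agent.Q219.SAW.Cnt

/-!
# Functionals of the walk which are determined by few of its points
-/

set_option autoImplicit false

namespace Q214.SF

open Finset Filter Topology TH966.AK Q219.SAW
open scoped Classical

variable {A : P → P → Prop} {Z : Rule A}

/-- the value at the walk `w` is determined by at most `j` points of `w` (and the end point) among
the walks with fewer points -/
def Det (A : P → P → Prop) {β : Type} (j : ℕ) (g : List P → β) : Prop :=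
  ∀ w, Walk A w → ∃ E : Finset P, E.card ≤ j ∧ (∀ x ∈ E, x ∈ w) ∧
    ∀ w0, Walk A w0 → lst w0 = lst w → (∀ x ∈ w0, x ∈ w) → (∀ x ∈ E, x ∈ w0) → g w0 = g w

/-- data of a downward move -/
theorem rem_data (hsh : ∀ U U', Z.T U U' → ∀ x ∈ U, x ∈ U') {w : List P} (hw : Walk A w)
    {q : List P × List P} (hq : q ∈ Z.B w) :
    Walk A (Rule.rep w q.2 q.1) ∧ lst (Rule.rep w q.2 q.1) = lst w ∧
      (∀ x ∈ Rule.rep w q.2 q.1, x ∈ w) ∧
      ∀ x ∈ w, x ∉ Rule.rep w q.2 q.1 → q ∈ Z.cand x := by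
  obtain ⟨U, U'⟩ := q
  rw [Z.mem_B] at hq
  obtain ⟨L, R, h1, h2, h3, h4, h5⟩ := Rule.rep_all (Z.pair _ _ hq.1).symm hw hq.2
  simp only at h1 h2 h3 h4 h5 hq ⊢
  refine ⟨by rw [h2]; exact h3, lst_rep (Z.pair _ _ hq.1).symm hw hq.2, ?_, ?_⟩
  · rw [h2]
    intro x hx
    rw [h1]
    simp only [List.mem_append] at hx ⊢
    rcases hx with (hx | hx) | hx
    · exact Or.inl (Or.inl hx)
    · exact Or.inl (Or.inr (hsh _ _ hq.1 x hx))
    · exact Or.inr hx
  · intro x hx hx'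
    refine Z.mem_cand hq.1 ?_
    rw [h1] at hx
    rw [h2] at hx'
    simp only [List.mem_append] at hx hx' ⊢
    tauto

theorem det_card (hsh : ∀ U U', Z.T U U' → ∀ x ∈ U, x ∈ U') {β : Type} {j : ℕ} {g : List P → β}
    (hg : Det A j g) {w : List P} (hw : Walk A w) :
    ((Z.B w).filter (fun q => g (Rule.rep w q.2 q.1) ≠ g w)).card ≤ j * Z.CC := by
  obtain ⟨E, hE, hEw, h⟩ := hg w hw
  have h1 : (Z.B w).filter (fun q => g (Rule.rep w q.2 q.1) ≠ g w) ⊆ E.biUnion Z.cand := by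
    intro q hq
    rw [mem_filter] at hq
    obtain ⟨h2, h3, h4, h5⟩ := rem_data hsh hw hq.1
    rw [mem_biUnion]
    by_contra hcon
    push Not at hcon
    refine hq.2 (h _ h2 h3 h4 fun x hx => ?_)
    by_contra hx'
    exact hcon x hx (h5 x (hEw x hx) hx')
  have h2 : (E.biUnion Z.cand).card ≤ E.card * Z.c0 :=
    Finset.card_biUnion_le_card_mul E Z.cand Z.c0 fun x _ => Z.card_cand x
  have h5 : Z.c0 ≤ Z.CC := by unfold Rule.CC; omega
  exact (card_le_card h1).trans (h2.trans (Nat.mul_le_mul hE h5))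

/-- total influence of a functional -/
theorem inf_bdd (hsh : ∀ U U', Z.T U U' → ∀ x ∈ U, x ∈ U') {j : ℕ} {g : List P → ℝ} {c : ℝ}
    (hc0 : 0 ≤ c) (hg : Det A j g) {w : List P} (hw : Walk A w)
    (hc : ∀ q ∈ Z.B w, |g (Rule.rep w q.2 q.1) - g w| ≤ c) :
    ∑ q ∈ Z.B w, |g (Rule.rep w q.2 q.1) - g w| ≤ (j * Z.CC : ℕ) * c := by
  have h1 : ∑ q ∈ Z.B w, |g (Rule.rep w q.2 q.1) - g w| =
      ∑ q ∈ (Z.B w).filter (fun q => g (Rule.rep w q.2 q.1) ≠ g w),
        |g (Rule.rep w q.2 q.1) - g w| := by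
    rw [sum_filter]
    refine sum_congr rfl fun q _ => ?_
    by_cases h : g (Rule.rep w q.2 q.1) = g w
    · simp [h]
    · rw [if_pos h]
  rw [h1]
  refine (sum_le_sum (g := fun _ => c) fun q hq => hc q (mem_filter.1 hq).1).trans ?_
  rw [sum_const, nsmul_eq_mul]
  refine mul_le_mul_of_nonneg_right ?_ hc0
  exact_mod_cast det_card hsh hg hw

/-- functionals with values between `-1` and `1` -/
theorem inf_two (hsh : ∀ U U', Z.T U U' → ∀ x ∈ U, x ∈ U') {j : ℕ} {g : List P → ℝ}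
    (h1 : ∀ w, |g w| ≤ 1) (hg : Det A j g) {w : List P} (hw : Walk A w) :
    ∑ q ∈ Z.B w, |g (Rule.rep w q.2 q.1) - g w| ≤ (j * Z.CC : ℕ) * 2 := by
  refine inf_bdd hsh (by norm_num) hg hw fun q _ => ?_
  have h2 := abs_sub (g (Rule.rep w q.2 q.1)) (g w)
  have h3 := h1 (Rule.rep w q.2 q.1)
  have h4 := h1 w
  linarith

/-- monotone functionals -/
theorem inf_mono (hsh : ∀ U U', Z.T U U' → ∀ x ∈ U, x ∈ U') {j : ℕ} {f : List P → ℝ}
    (h0 : ∀ w, 0 ≤ f w) (hg : Det A j f)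
    (hm : ∀ w w0, Walk A w → Walk A w0 → lst w0 = lst w → (∀ x ∈ w0, x ∈ w) → f w0 ≤ f w)
    {w : List P} (hw : Walk A w) :
    ∑ q ∈ Z.B w, |f (Rule.rep w q.2 q.1) - f w| ≤ (j * Z.CC : ℕ) * f w := by
  refine inf_bdd hsh (h0 w) hg hw fun q hq => ?_
  obtain ⟨h2, h3, h4, h5⟩ := rem_data hsh hw hq
  have h6 := hm w _ hw h2 h3 h4
  have h7 := h0 (Rule.rep w q.2 q.1)
  rw [abs_of_nonpos (by linarith)]
  linarith

/-! ### extents -/

/-- the largest value of the kernel at two points of the walk -/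
noncomputable def ex (ρ : P → P → ℝ) (w : List P) : ℝ :=
  ⨆ p : {x // x ∈ w} × {x // x ∈ w}, ρ p.1 p.2

theorem le_ex (ρ : P → P → ℝ) {w : List P} {x y : P} (hx : x ∈ w) (hy : y ∈ w) :
    ρ x y ≤ ex ρ w := by
  unfold ex
  exact le_ciSup (f := fun p : {x // x ∈ w} × {x // x ∈ w} => ρ p.1 p.2)
    (Set.finite_range _).bddAbove (⟨x, hx⟩, ⟨y, hy⟩)

theorem ex_att (ρ : P → P → ℝ) {w : List P} (hw : w ≠ []) :
    ∃ x ∈ w, ∃ y ∈ w, ex ρ w = ρ x y := by
  obtain ⟨a, l, rfl⟩ := List.exists_cons_of_ne_nil hw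
  have : Nonempty {x // x ∈ a :: l} := ⟨⟨a, by simp⟩⟩
  obtain ⟨p, hp⟩ := exists_eq_ciSup_of_finite
    (f := fun p : {x // x ∈ a :: l} × {x // x ∈ a :: l} => ρ p.1 p.2)
  exact ⟨p.1, p.1.2, p.2, p.2.2, hp.symm⟩

theorem ex_mono (ρ : P → P → ℝ) {w0 w : List P} (h0 : w0 ≠ []) (h : ∀ x ∈ w0, x ∈ w) :
    ex ρ w0 ≤ ex ρ w := by
  obtain ⟨x, hx, y, hy, e⟩ := ex_att ρ h0
  rw [e]
  exact le_ex ρ (h x hx) (h y hy)

theorem ex_ofFn (ρ : P → P → ℝ) {n : ℕ} (ω : Fin (n + 1) → P) :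
    ex ρ (List.ofFn ω) = ⨆ p : Fin (n + 1) × Fin (n + 1), ρ (ω p.1) (ω p.2) := by
  refine le_antisymm ?_ ?_
  · obtain ⟨x, hx, y, hy, e⟩ := ex_att ρ (w := List.ofFn ω) (by simp)
    rw [e]
    rw [List.mem_ofFn] at hx hy
    obtain ⟨i, rfl⟩ := hx
    obtain ⟨j, rfl⟩ := hy
    exact le_ciSup (f := fun p : Fin (n + 1) × Fin (n + 1) => ρ (ω p.1) (ω p.2))
      (Set.finite_range _).bddAbove (i, j)
  · refine ciSup_le fun p => le_ex ρ ?_ ?_
    · rw [List.mem_ofFn]; exact ⟨p.1, rfl⟩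
    · rw [List.mem_ofFn]; exact ⟨p.2, rfl⟩

theorem walk_ne {w : List P} (hw : Walk A w) : w ≠ [] := by
  rintro rfl
  have := hw.1
  simp at this

/-- functions of the end point and of finitely many extents are determined by few points -/
theorem det_ex {β : Type} (J : ℕ) (ρ : Fin J → P → P → ℝ) (F : P → (Fin J → ℝ) → β) :
    Det A (2 * J) (fun w => F (lst w) (fun i => ex (ρ i) w)) := by
  intro w hw
  have hne := walk_ne hw
  choose x hx y hy e using fun i : Fin J => ex_att (ρ i) hne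
  refine ⟨Finset.univ.biUnion (fun i => {x i, y i}), ?_, ?_, ?_⟩
  · have h1 := Finset.card_biUnion_le_card_mul (Finset.univ : Finset (Fin J))
      (fun i => ({x i, y i} : Finset P)) 2 fun i _ => Finset.card_le_two
    rw [Finset.card_univ, Fintype.card_fin] at h1
    omega
  · intro z hz
    rw [mem_biUnion] at hz
    obtain ⟨i, -, hz⟩ := hz
    rw [Finset.mem_insert, Finset.mem_singleton] at hz
    rcases hz with rfl | rfl
    · exact hx i
    · exact hy i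
  · intro w0 hw0 hl hsub hE
    have h1 : ∀ i, ex (ρ i) w0 = ex (ρ i) w := by
      intro i
      refine le_antisymm (ex_mono _ (walk_ne hw0) hsub) ?_
      rw [e i]
      refine le_ex _ (hE _ ?_) (hE _ ?_)
      · rw [mem_biUnion]; exact ⟨i, mem_univ i, by simp⟩
      · rw [mem_biUnion]; exact ⟨i, mem_univ i, by simp⟩
    show F (lst w0) (fun i => ex (ρ i) w0) = F (lst w) (fun i => ex (ρ i) w)
    rw [hl]
    congr 1
    funext i
    exact h1 i

end Q214.SF
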