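import Pool.Agent.Q214.SF.Merge
import Pool.Agent.Q215.SAW.Lat

/-!
# Functionals determined by few points: statements for paths on the three lattices
-/

set_option autoImplicit false

namespace Q214.SF

open Finset Filter Topology TH966.AK Q219.SAW Q215.SAW

/-- the `n`-step self-avoiding walks from the origin with adjacency `A` which stay in `D` -/
def WS (A : ℤ × ℤ → ℤ × ℤ → Prop) (D : Set (ℤ × ℤ)) (n : ℕ) : Set (Fin (n + 1) → ℤ × ℤ) :=
  {ω | ω 0 = 0 ∧ Function.Injective ω ∧ (∀ i : Fin n, A (ω i.castSucc) (ω i.succ)) ∧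
    ∀ i, ω i ∈ D}

/-- the sum over these walks -/
noncomputable def sm (A : ℤ × ℤ → ℤ × ℤ → Prop) (D : Set (ℤ × ℤ)) (n : ℕ)
    (G : (Fin (n + 1) → ℤ × ℤ) → ℝ) : ℝ := ∑ᶠ ω ∈ WS A D n, G ω

/-- the largest value of the kernel at two points of the path -/
noncomputable def xt (ρ : ℤ × ℤ → ℤ × ℤ → ℝ) {n : ℕ} (ω : Fin (n + 1) → ℤ × ℤ) : ℝ :=
  ⨆ p : Fin (n + 1) × Fin (n + 1), ρ (ω p.1) (ω p.2)

variable {A : ℤ × ℤ → ℤ × ℤ → Prop}

theorem WS_eq (D : Set P) (n : ℕ) : WS A D n =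
    {f : Fin (n + 1) → ℤ × ℤ | f ∈ FW A n ∧ In D (List.ofFn f)} := by
  ext ω
  unfold WS FW In
  rw [Set.mem_ofPred_eq, Set.mem_ofPred_eq, Set.mem_ofPred_eq, List.forall_mem_ofFn_iff]
  tauto

theorem cD_fn (Z : Rule A) (D : Set P) (g : List P → ℝ) (n : ℕ) :
    cD A D g n = sm A D n (fun ω => g (List.ofFn ω)) := by
  classical
  unfold cD KD sm
  rw [WS_eq]
  rw [← sum_fn (Z := Z) (In D) g n]

theorem WS_fin (Z : Rule A) (D : Set P) (n : ℕ) : (WS A D n).Finite := by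
  classical
  rw [WS_eq]
  have h := coe_eq (Z := Z) (In D) n
  have h2 : (List.ofFn '' {f : Fin (n + 1) → ℤ × ℤ | f ∈ FW A n ∧ In D (List.ofFn f)}).Finite := by
    rw [← h]
    exact Finset.finite_toSet _
  exact h2.of_finite_image List.ofFn_injective.injOn

theorem sm_one (Z : Rule A) (D : Set P) (n : ℕ) : sm A D n (fun _ => 1) = (WS A D n).ncard := by
  unfold sm
  rw [finsum_mem_eq_finite_toFinset_sum _ (WS_fin Z D n), sum_const, nsmul_one,
    Set.ncard_eq_toFinset_card _ (WS_fin Z D n)]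

theorem card_fn (Z : Rule A) (n : ℕ) : ((Kw A n).card : ℝ) = (WS A Set.univ n).ncard := by
  rw [← sm_one Z, ← cD_fn Z Set.univ (fun _ => 1), cD_one]

theorem lst_fn {n : ℕ} (ω : Fin (n + 1) → P) : lst (List.ofFn ω) = ω (Fin.last n) := lst_ofFn ω

theorem ex_fn (ρ : P → P → ℝ) {n : ℕ} (ω : Fin (n + 1) → P) : ex ρ (List.ofFn ω) = xt ρ ω :=
  ex_ofFn ρ ω

theorem sm_ind (Z : Rule A) (D : Set P) (n : ℕ) (H : (Fin (n + 1) → P) → Prop) [DecidablePred H] :
    sm A D n (fun ω => if H ω then 1 else 0) = ({ω | ω ∈ WS A D n ∧ H ω}.ncard : ℝ) := by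
  have hfin : {ω | ω ∈ WS A D n ∧ H ω}.Finite := (WS_fin Z D n).subset fun ω h => h.1
  unfold sm
  rw [finsum_mem_eq_finite_toFinset_sum _ (WS_fin Z D n), ← sum_filter, sum_const, nsmul_one,
    Set.ncard_eq_toFinset_card _ hfin]
  congr 2
  ext ω
  simp

/-- the number of the walks with an event for the end point and the extents -/
noncomputable def cnt (A : P → P → Prop) (D : Set P) {J : ℕ} (ρ : Fin J → P → P → ℝ)
    (U : Set (P × (Fin J → ℝ))) (n : ℕ) : ℝ :=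
  ({ω : Fin (n + 1) → P | ω ∈ WS A D n ∧ (ω (Fin.last n), fun i => xt (ρ i) ω) ∈ U}.ncard : ℝ)

open scoped Classical in
theorem cnt_cD (Z : Rule A) (D : Set P) {J : ℕ} (ρ : Fin J → P → P → ℝ)
    (U : Set (P × (Fin J → ℝ))) (n : ℕ) :
    cD A D (fun w => if (lst w, fun i => ex (ρ i) w) ∈ U then 1 else 0) n = cnt A D ρ U n := by
  rw [cD_fn Z]
  unfold cnt
  simp only [lst_fn, ex_fn]
  exact sm_ind Z D n _

theorem cnt_univ (D : Set P) {J : ℕ} (ρ : Fin J → P → P → ℝ) (n : ℕ) :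
    cnt A D ρ Set.univ n = ((WS A D n).ncard : ℝ) := by
  unfold cnt
  simp

/-- the number of walks in the domain -/
theorem cD_one_fn (Z : Rule A) (D : Set P) (n : ℕ) :
    cD A D (fun _ => 1) n = ((WS A D n).ncard : ℝ) := by
  rw [cD_fn Z, sm_one Z]

theorem pD_fn (Z : Rule A) (D : Set P) (n : ℕ) :
    pD A D n = ((WS A D n).ncard : ℝ) / ((WS A Set.univ n).ncard : ℝ) := by
  unfold pD
  rw [cD_one_fn Z, card_fn Z]

/-- **joint law of the end point and of finitely many extents** -/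
theorem joint (J : ℕ) {s : ℕ} (hL : IsLat A s) :
    ∃ K : ℝ, 0 < K ∧ ∀ (D : Set P) (ρ : Fin J → P → P → ℝ) (U : Set (P × (Fin J → ℝ))) (n : ℕ),
      2 ≤ n → 0 < ((WS A D n).ncard : ℝ) / ((WS A Set.univ n).ncard : ℝ) →
      |cnt A D ρ U (n + s) / ((WS A D (n + s)).ncard : ℝ) -
        cnt A D ρ U n / ((WS A D n).ncard : ℝ)| ≤
      K * √((Real.log n ^ 2 +
        Real.log (1 / (((WS A D n).ncard : ℝ) / ((WS A Set.univ n).ncard : ℝ)))) / n) := by
  classical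
  obtain ⟨Z, K, hs, hN, -⟩ := lat hL
  obtain ⟨R, hR, h⟩ := merge_det hN.gr hN.sh (2 * J)
  refine ⟨R, hR, fun D ρ U n hn hp => ?_⟩
  have h1 := h D (fun w => if (lst w, fun i => ex (ρ i) w) ∈ U then 1 else 0)
    (fun w => by split_ifs <;> simp)
    (det_ex J ρ (fun x v => if (x, v) ∈ U then 1 else 0)) n hn (by rw [pD_fn Z]; exact hp)
  unfold eD at h1
  rw [cnt_cD Z, cnt_cD Z, cD_one_fn Z, cD_one_fn Z, pD_fn Z, hs] at h1
  exact h1

/-- a lower bound in terms of the proportion -/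
theorem low_cnt {μ K : ℝ} {Z : Rule A} (G : Growth Z μ K) {n : ℕ} {t : ℝ} (ht : 0 < t) {c : ℝ}
    (hc : c = t * (Kw A n).card) :
    Real.exp (-(Real.log n ^ 2 + Real.log (1 / t))) * μ ^ n ≤ c := by
  have hμ := G.hμ
  have hμ0 : 0 < μ := by linarith
  rw [hc]
  refine mul_le_mul ?_ (G.low n) (by positivity) ht.le
  rw [neg_add, Real.exp_add, one_div, Real.log_inv, neg_neg, Real.exp_log ht]
  refine mul_le_of_le_one_left ht.le ?_
  rw [Real.exp_le_one_iff]
  have := sq_nonneg (Real.log (n : ℝ))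
  linarith

/-- **upper tails**: events which are increasing in the extents -/
theorem tails (J : ℕ) {s : ℕ} (hL : IsLat A s) :
    ∃ (K δ : ℝ) (n₀ : ℕ), 0 < K ∧ 0 < δ ∧ ∀ (D : Set P) (ρ : Fin J → P → P → ℝ)
      (U : Set (P × (Fin J → ℝ))), (∀ x v v', (x, v) ∈ U → v ≤ v' → (x, v') ∈ U) →
      ∀ n : ℕ, n₀ ≤ n → 0 < cnt A D ρ U n / ((WS A Set.univ n).ncard : ℝ) →
      Real.log n ^ 2 + Real.log (1 / (cnt A D ρ U n / ((WS A Set.univ n).ncard : ℝ))) ≤ δ * n →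
      |cnt A D ρ U (n + s) / ((WS A Set.univ (n + s)).ncard : ℝ) /
        (cnt A D ρ U n / ((WS A Set.univ n).ncard : ℝ)) - 1| ≤
      K * √((Real.log n ^ 2 +
        Real.log (1 / (cnt A D ρ U n / ((WS A Set.univ n).ncard : ℝ)))) / n) := by
  classical
  obtain ⟨Z, K, hs, hN, -⟩ := lat hL
  have G := hN.gr
  have hμ := G.hμ
  have hμ0 : 0 < muu A := by linarith
  obtain ⟨R, δ, n1, hR, hδ, h⟩ := ratio_mono G hN.sh (2 * J) 0
  refine ⟨4 * R, min δ (1 / (4 * R ^ 2)), max n1 1, by positivity,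
    lt_min hδ (by positivity), fun D ρ U hU n hn hp hΛ => ?_⟩
  obtain ⟨t, ht⟩ : ∃ t, t = cnt A D ρ U n / ((WS A Set.univ n).ncard : ℝ) := ⟨_, rfl⟩
  rw [← ht] at hp hΛ ⊢
  obtain ⟨Λ, hΛd⟩ : ∃ Λ, Λ = Real.log n ^ 2 + Real.log (1 / t) := ⟨_, rfl⟩
  rw [← hΛd] at hΛ ⊢
  have hn1 : n1 ≤ n := (le_max_left _ _).trans hn
  have hn0 : (0 : ℝ) < n := by exact_mod_cast (le_max_right n1 1).trans hn
  have hKp := card_posK G n
  have hKp' := card_posK G (n + s)
  have hcn : cnt A D ρ U n = t * (Kw A n).card := by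
    rw [ht, card_fn Z, div_mul_cancel₀]
    rw [← card_fn Z]
    exact hKp.ne'
  have ht1 : t ≤ 1 := by
    have h1 : cnt A D ρ U n ≤ (Kw A n).card := by
      rw [← cnt_cD Z]
      exact cD_le (fun w => by split_ifs <;> norm_num) n
    rw [hcn] at h1
    exact le_of_mul_le_mul_right (by linarith) hKp
  have hlt : 0 ≤ Real.log (1 / t) := Real.log_nonneg (by rw [le_div_iff₀ hp]; linarith)
  have hΛ1 : Real.log n ^ 2 ≤ Λ := by rw [hΛd]; linarith
  have hΛ0 : 0 ≤ Λ := (sq_nonneg _).trans hΛ1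
  have hΛδ : Λ ≤ δ * n := hΛ.trans (mul_le_mul_of_nonneg_right (min_le_left _ _) hn0.le)
  have hlow : Real.exp (-Λ) * muu A ^ n ≤ cnt A D ρ U n := by
    rw [hΛd]
    exact low_cnt G hp hcn
  have hone : Real.exp (-Λ) * muu A ^ n ≤ cD A Set.univ (fun _ => 1) n := by
    rw [cD_one]
    refine le_trans ?_ (G.low n)
    refine mul_le_of_le_one_left (by positivity) ?_
    rw [Real.exp_le_one_iff]
    linarith
  have a1 := h D (fun w => if (lst w, fun i => ex (ρ i) w) ∈ U then 1 else 0)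
    (fun w => by split_ifs <;> norm_num) (fun w _ => by rw [pow_zero]; split_ifs <;> norm_num)
    (det_ex J ρ (fun x v => if (x, v) ∈ U then 1 else 0)) (by
      intro w w0 hw hw0 hl hsub
      by_cases h1 : (lst w0, fun i => ex (ρ i) w0) ∈ U
      · have h2 : (lst w, fun i => ex (ρ i) w) ∈ U := by
          rw [hl] at h1
          exact hU _ _ _ h1 fun i => ex_mono _ (walk_ne hw0) hsub
        rw [if_pos h1, if_pos h2]
      · rw [if_neg h1]
        split_ifs <;> norm_num) n hn1 Λ hΛ1 hΛδ (by rw [cnt_cD Z]; exact hlow)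
  have a2 := h Set.univ (fun _ => 1) (fun _ => zero_le_one) (fun w _ => by simp)
    (fun w hw => ⟨∅, by simp, by simp, fun _ _ _ _ _ => rfl⟩) (fun _ _ _ _ _ _ => le_rfl)
    n hn1 Λ hΛ1 hΛδ hone
  rw [cnt_cD Z, cnt_cD Z, hs] at a1
  rw [cD_one, cD_one, hs] at a2
  have hR2 : R * √(Λ / n) ≤ 1 / 2 := by
    have h1 : √(Λ / n) ≤ 1 / (2 * R) := by
      rw [Real.sqrt_le_left (by positivity), div_le_iff₀ hn0]
      refine hΛ.trans (mul_le_mul_of_nonneg_right ((min_le_right _ _).trans (le_of_eq ?_)) hn0.le)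
      rw [div_pow, mul_pow]
      norm_num
    calc R * √(Λ / n) ≤ R * (1 / (2 * R)) := mul_le_mul_of_nonneg_left h1 hR.le
      _ = 1 / 2 := by
          rw [mul_one_div, div_eq_div_iff (by positivity) (by norm_num)]
          ring
  have hcpos : 0 < cnt A D ρ U n := by rw [hcn]; exact mul_pos hp hKp
  have h4 := ratio_aux hcpos hKp (show 0 < muu A ^ s by positivity) a1 a2 hR2
  rw [card_fn Z, card_fn Z] at h4
  rw [ht]
  rw [← ht]
  refine le_trans (le_of_eq ?_) (h4.trans (le_of_eq (by ring)))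
  rw [← ht]

/-- **moments** of a functional which is increasing in the extents -/
theorem moments (J m : ℕ) {s : ℕ} (hL : IsLat A s) :
    ∃ (K δ : ℝ) (n₀ : ℕ), 0 < K ∧ 0 < δ ∧ ∀ (D : Set P) (ρ : Fin J → P → P → ℝ)
      (F : P → (Fin J → ℝ) → ℝ), (∀ x v v', v ≤ v' → F x v ≤ F x v') →
      (∀ k (ω : Fin (k + 1) → P), ω ∈ WS A Set.univ k → 0 ≤ F (ω (Fin.last k)) (fun i => xt (ρ i) ω) ∧
        F (ω (Fin.last k)) (fun i => xt (ρ i) ω) ≤ (2 * (k : ℝ) + 2) ^ m) →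
      ∀ n : ℕ, n₀ ≤ n →
      (∀ ω : Fin (n + 1) → P, ω ∈ WS A Set.univ n → 1 ≤ F (ω (Fin.last n)) (fun i => xt (ρ i) ω)) →
      0 < ((WS A D n).ncard : ℝ) / ((WS A Set.univ n).ncard : ℝ) →
      Real.log n ^ 2 + Real.log (1 / (((WS A D n).ncard : ℝ) / ((WS A Set.univ n).ncard : ℝ))) ≤
        δ * n →
      |sm A D (n + s) (fun ω => F (ω (Fin.last _)) (fun i => xt (ρ i) ω)) /
          ((WS A D (n + s)).ncard : ℝ) /
        (sm A D n (fun ω => F (ω (Fin.last _)) (fun i => xt (ρ i) ω)) /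
          ((WS A D n).ncard : ℝ)) - 1| ≤
      K * √((Real.log n ^ 2 +
        Real.log (1 / (((WS A D n).ncard : ℝ) / ((WS A Set.univ n).ncard : ℝ)))) / n) := by
  classical
  obtain ⟨Z, K, hs, hN, -⟩ := lat hL
  have G := hN.gr
  have hμ := G.hμ
  have hμ0 : 0 < muu A := by linarith
  obtain ⟨R, δ, n1, hR, hδ, h⟩ := ratio_mono G hN.sh (2 * J) m
  refine ⟨4 * R, min δ (1 / (4 * R ^ 2)), max n1 1, by positivity,
    lt_min hδ (by positivity), fun D ρ F hF hFb n hn hF1 hp hΛ => ?_⟩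
  obtain ⟨Λ, hΛd⟩ : ∃ Λ, Λ = Real.log n ^ 2 +
    Real.log (1 / (((WS A D n).ncard : ℝ) / ((WS A Set.univ n).ncard : ℝ))) := ⟨_, rfl⟩
  rw [← hΛd] at hΛ ⊢
  have hn1 : n1 ≤ n := (le_max_left _ _).trans hn
  have hn0 : (0 : ℝ) < n := by exact_mod_cast (le_max_right n1 1).trans hn
  rw [← pD_fn Z] at hp hΛd
  have hlt := log_pD_nonneg G D hp
  have hΛ1 : Real.log n ^ 2 ≤ Λ := by rw [hΛd]; linarith
  have hΛ0 : 0 ≤ Λ := (sq_nonneg _).trans hΛ1
  have hΛδ : Λ ≤ δ * n := hΛ.trans (mul_le_mul_of_nonneg_right (min_le_left _ _) hn0.le)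
  have hone : Real.exp (-Λ) * muu A ^ n ≤ cD A D (fun _ => 1) n := by
    rw [hΛd]
    exact low_of_p G D hp
  -- the weight, cut off at zero outside the walks
  obtain ⟨f, hf⟩ : ∃ f : List P → ℝ, f = fun w => max 0 (F (lst w) (fun i => ex (ρ i) w)) :=
    ⟨_, rfl⟩
  have hfn : ∀ k (ω : Fin (k + 1) → P), ω ∈ WS A Set.univ k →
      f (List.ofFn ω) = F (ω (Fin.last k)) (fun i => xt (ρ i) ω) := by
    intro k ω hω
    rw [hf]
    simp only [lst_fn, ex_fn]
    exact max_eq_right (hFb k ω hω).1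
  have hsub : ∀ k, WS A D k ⊆ WS A Set.univ k := fun k ω hω =>
    ⟨hω.1, hω.2.1, hω.2.2.1, fun _ => Set.mem_univ _⟩
  have hcf : ∀ k, cD A D f k = sm A D k (fun ω => F (ω (Fin.last _)) (fun i => xt (ρ i) ω)) := by
    intro k
    rw [cD_fn Z]
    unfold sm
    exact finsum_mem_congr rfl fun ω hω => hfn k ω (hsub k hω)
  have hle : ∀ w, Walk A w → f w ≤ (2 * (w.length : ℝ)) ^ m := by
    intro w hw
    obtain ⟨k, hk⟩ : ∃ k, w.length = k + 1 :=
      ⟨w.length - 1, by have := List.length_pos_of_ne_nil (walk_ne hw); omega⟩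
    have hwK : w ∈ Kw A k := Z.mem_K.2 ⟨hk, hw⟩
    have h1 : w ∈ ((((Kw A k).filter (In Set.univ) : Finset (List P))) : Set (List P)) := by
      rw [Finset.mem_coe, mem_filter]
      exact ⟨hwK, fun x _ => Set.mem_univ x⟩
    rw [coe_eq (Z := Z) (In Set.univ) k, ← WS_eq] at h1
    obtain ⟨ω, hω, rfl⟩ := h1
    rw [hfn k ω hω, hk]
    refine (hFb k ω hω).2.trans (le_of_eq ?_)
    push_cast
    ring
  have hlow : Real.exp (-Λ) * muu A ^ n ≤ cD A D f n := by
    refine hone.trans ?_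
    rw [hcf, cD_one_fn Z, ← sm_one Z]
    unfold sm
    rw [finsum_mem_eq_finite_toFinset_sum _ (WS_fin Z D n),
      finsum_mem_eq_finite_toFinset_sum _ (WS_fin Z D n)]
    refine sum_le_sum fun ω hω => ?_
    rw [Set.Finite.mem_toFinset] at hω
    exact hF1 ω (hsub n hω)
  have a1 := h D f (fun w => by rw [hf]; exact le_max_left _ _) hle (by
      rw [hf]
      exact det_ex J ρ (fun x v => max 0 (F x v))) (by
      intro w w0 hw hw0 hl hsub
      rw [hf]
      simp only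
      rw [hl]
      exact max_le_max le_rfl (hF _ _ _ fun i => ex_mono _ (walk_ne hw0) hsub))
    n hn1 Λ hΛ1 hΛδ hlow
  have a2 := h D (fun _ => 1) (fun _ => zero_le_one) (fun w hw => by
      have h3 : 1 ≤ w.length := List.length_pos_of_ne_nil (walk_ne hw)
      have h4 : (1 : ℝ) ≤ w.length := by exact_mod_cast h3
      exact one_le_pow₀ (by linarith))
    (fun w hw => ⟨∅, by simp, by simp, fun _ _ _ _ _ => rfl⟩) (fun _ _ _ _ _ _ => le_rfl)
    n hn1 Λ hΛ1 hΛδ hone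
  rw [hcf, hcf, hs] at a1
  rw [hcf] at hlow
  rw [cD_one_fn Z, cD_one_fn Z, hs] at a2
  rw [cD_one_fn Z] at hone
  have hR2 : R * √(Λ / n) ≤ 1 / 2 := by
    have h1 : √(Λ / n) ≤ 1 / (2 * R) := by
      rw [Real.sqrt_le_left (by positivity), div_le_iff₀ hn0]
      refine hΛ.trans (mul_le_mul_of_nonneg_right ((min_le_right _ _).trans (le_of_eq ?_)) hn0.le)
      rw [div_pow, mul_pow]
      norm_num
    calc R * √(Λ / n) ≤ R * (1 / (2 * R)) := mul_le_mul_of_nonneg_left h1 hR.le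
      _ = 1 / 2 := by
          rw [mul_one_div, div_eq_div_iff (by positivity) (by norm_num)]
          ring
  have hexp : 0 < Real.exp (-Λ) * muu A ^ n := by positivity
  have h4 := ratio_aux (lt_of_lt_of_le hexp hlow) (lt_of_lt_of_le hexp hone)
    (show 0 < muu A ^ s by positivity) a1 a2 hR2
  exact h4.trans (le_of_eq (by ring))

end Q214.SF
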