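import Pool.Agent.Q214.SF.HexC
import Pool.Agent.W832.HR.Cont2

/-!
# The approximations of a domain: data for the general theorems
-/

set_option autoImplicit false

namespace Q214.SF

open Finset Filter Topology TH966.AK Q219.SAW Q215.SAW
open Pool.Agent.W832.HR (Nbr Traj emb HD Hd Bd lv xc domain_two_point)
open scoped ENNReal

theorem Z_wH {D : Set P} (hD : D.Finite) (p q : P) :
    Pool.Agent.W832.HR.Z D p q = ENNReal.ofReal (wH D p q (fun _ => True)) := by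
  classical
  obtain ⟨T, hT, h⟩ := wH_sum hD p q (fun _ => True)
  rw [h]
  simp only [if_true]
  rw [ENNReal.ofReal_sum_of_nonneg (fun _ _ => by positivity)]
  have h1 : Pool.Agent.W832.HR.Z D p q = ∑ l ∈ T, xc ^ (l.length - 1) := by
    unfold Pool.Agent.W832.HR.Z
    rw [← hT]
    exact Finset.tsum_subtype' T (fun l => xc ^ (l.length - 1))
  rw [h1]
  refine sum_congr rfl fun l _ => ?_
  rw [ENNReal.ofReal_pow (by positivity)]
  rfl

theorem box_bound {D : Set P} {δ M : ℝ} (hδ : 0 < δ) (hδ1 : δ ≤ 1)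
    (hDM : ∀ v ∈ D, ‖(δ : ℂ) * emb v‖ ≤ M) :
    D.Finite ∧ (D.ncard : ℝ) ≤ ((4 * |M| + 7) / δ) ^ 2 := by
  obtain ⟨B, hB⟩ : ∃ B : ℕ, B = ⌈2 * (|M| + 1) / δ⌉₊ := ⟨_, rfl⟩
  have hB1 : 2 * (|M| + 1) / δ ≤ B := by rw [hB]; exact Nat.le_ceil _
  have hM0 : 0 ≤ |M| := abs_nonneg M
  have hB2 : (B : ℝ) < 2 * (|M| + 1) / δ + 1 := by
    rw [hB]
    exact Nat.ceil_lt_add_one (by positivity)
  have hsub : D ⊆ ((Finset.Icc (-(B : ℤ)) B ×ˢ Finset.Icc (-(B : ℤ)) B : Finset (ℤ × ℤ)) :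
      Set (ℤ × ℤ)) := by
    intro v hv
    have h1 := hDM v hv
    rw [norm_mul, Complex.norm_real, Real.norm_of_nonneg hδ.le] at h1
    have h2 : ‖emb v‖ ≤ |M| / δ := by
      rw [le_div_iff₀ hδ, mul_comm]
      exact h1.trans (le_abs_self M)
    have h3 := (Complex.abs_re_le_norm (emb v)).trans h2
    have h4 := (Complex.abs_im_le_norm (emb v)).trans h2
    unfold emb at h3 h4
    simp only at h3 h4
    have hs3 : (1 : ℝ) ≤ √3 := by
      rw [Real.one_le_sqrt]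
      norm_num
    have hle : |M| / δ ≤ (|M| + 1) / δ := by
      exact div_le_div_of_nonneg_right (by linarith) hδ.le
    have h1δ : 1 ≤ 1 / δ := by
      rw [le_div_iff₀ hδ]
      linarith
    have hd1 : (|M| + 1) / δ = |M| / δ + 1 / δ := by ring
    have h5 : |(v.1 : ℝ)| ≤ B := by
      have e : |√3 / 2 * (v.1 : ℝ)| = √3 / 2 * |(v.1 : ℝ)| := by
        rw [abs_mul, abs_of_pos (by positivity)]
      rw [e] at h3
      have h6 : 1 / 2 * |(v.1 : ℝ)| ≤ √3 / 2 * |(v.1 : ℝ)| :=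
        mul_le_mul_of_nonneg_right (by linarith) (abs_nonneg _)
      have h7 : 2 * (|M| + 1) / δ = 2 * ((|M| + 1) / δ) := by ring
      rw [h7] at hB1
      linarith
    have h6 : |(v.2 : ℝ)| ≤ B := by
      have h7 : 3 / 2 * |(v.2 : ℝ)| ≤ |M| / δ + 1 / 2 := by
        have h8 : |3 / 2 * (v.2 : ℝ)| ≤ |M| / δ + 1 / 2 := by
          have h9 := abs_le.1 h4
          split_ifs at h9
          · rw [abs_le]
            constructor <;> linarith [h9.1, h9.2]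
          · rw [abs_le]
            constructor <;> linarith [h9.1, h9.2]
        rwa [abs_mul, abs_of_pos (by norm_num : (0 : ℝ) < 3 / 2)] at h8
      have h10 : 2 * (|M| + 1) / δ = 2 * ((|M| + 1) / δ) := by ring
      rw [h10] at hB1
      have h11 : 0 ≤ |(v.2 : ℝ)| := abs_nonneg _
      have h12 : 0 ≤ (|M| + 1) / δ := by positivity
      linarith
    rw [Finset.mem_coe, Finset.mem_product, Finset.mem_Icc, Finset.mem_Icc]
    rw [abs_le] at h5 h6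
    refine ⟨⟨?_, ?_⟩, ?_, ?_⟩
    · exact_mod_cast h5.1
    · exact_mod_cast h5.2
    · exact_mod_cast h6.1
    · exact_mod_cast h6.2
  refine ⟨(Finset.finite_toSet _).subset hsub, ?_⟩
  have h1 := Set.ncard_le_ncard hsub (Finset.finite_toSet _)
  rw [Set.ncard_coe_finset, Finset.card_product, Int.card_Icc] at h1
  have h2 : ((B : ℤ) + 1 - -(B : ℤ)).toNat = 2 * B + 1 := by omega
  rw [h2] at h1
  have h3 : (D.ncard : ℝ) ≤ (2 * B + 1) * (2 * B + 1) := by exact_mod_cast h1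
  refine h3.trans ?_
  rw [sq]
  have h1δ : 1 ≤ 1 / δ := by
    rw [le_div_iff₀ hδ]
    linarith
  have h4 : 2 * (B : ℝ) + 1 ≤ (4 * |M| + 7) / δ := by
    have e1 : 2 * (|M| + 1) / δ = 2 * (|M| / δ) + 2 * (1 / δ) := by ring
    have e2 : (4 * |M| + 7) / δ = 4 * (|M| / δ) + 7 * (1 / δ) := by ring
    rw [e1] at hB2
    rw [e2]
    linarith
  exact mul_le_mul h4 h4 (by positivity) (by positivity)

/-- **the approximations of a domain** -/
theorem cont_data (Ω : Set ℂ) (hΩ : IsOpen Ω) (hc : IsConnected Ω) (a b : ℂ) (hab : a ≠ b)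
    (ε ε' : ℝ) (hε : ε = 1 ∨ ε = -1) (hε' : ε' = 1 ∨ ε' = -1) (r : ℝ) (hr : 0 < r)
    (ha : HD a ε r ⊆ Ω) (hb : HD b ε' r ⊆ Ω) (M : ℝ) :
    ∃ K : Set ℂ, K ⊆ Ω ∧ IsCompact K ∧ ∃ C1 C : ℝ, 1 ≤ C1 ∧ 3 ≤ C ∧ ∀ δ : ℝ, 0 < δ → C * δ ≤ 1 →
      ∀ (D : Set P) (p q : P), Bd ε p → Bd ε' q → C * ‖(δ : ℂ) * emb p - a‖ ≤ 1 →
      C * ‖(δ : ℂ) * emb q - b‖ ≤ 1 → (∀ v : P, (δ : ℂ) * emb v ∈ K → v ∈ D) →
      Hd δ ε r p ⊆ D → Hd δ ε' r q ⊆ D → (∀ v ∈ D, ‖(δ : ℂ) * emb v‖ ≤ M) →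
      D.Finite ∧ 0 < wH D p q (fun _ => True) ∧ 1 ≤ ‖emb p - emb q‖ ∧
      1 / C1 / δ ≤ ‖emb p - emb q‖ ∧ 1 ≤ Real.log (1 / δ) ∧
      Real.log D.ncard ^ 2 ≤ C1 * Real.log (1 / δ) ^ 2 ∧
      Real.log (1 / wH D p q (fun _ => True)) ≤ C1 * Real.log (1 / δ) ^ 2 := by
  obtain ⟨K, hK1, hK2, C0, hC0, h⟩ := domain_two_point Ω hΩ hc a b hab ε ε' hε hε' r hr ha hb
  have hab0 : 0 < ‖a - b‖ := norm_pos_iff.2 (sub_ne_zero.2 hab)
  have hM0 : 0 ≤ |M| := abs_nonneg M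
  have hlM : 0 ≤ Real.log (4 * |M| + 7) := Real.log_nonneg (by linarith)
  obtain ⟨C2, hC2⟩ : ∃ C2, C2 = 2 * (Real.log (4 * |M| + 7) + 1) := ⟨_, rfl⟩
  have hC20 : 0 ≤ C2 := by rw [hC2]; linarith
  refine ⟨K, hK1, hK2, C0 + C2 ^ 2 + 2 / ‖a - b‖, C0 + 3 + 4 / ‖a - b‖, ?_, ?_, ?_⟩
  · have h1 : (1 : ℝ) ≤ C0 := by exact_mod_cast hC0
    have : 0 ≤ C2 ^ 2 + 2 / ‖a - b‖ := by positivity
    linarith
  · have h1 : (1 : ℝ) ≤ C0 := by exact_mod_cast hC0
    have : 0 ≤ 4 / ‖a - b‖ := by positivity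
    linarith
  intro δ hδ hCδ D p q hp hq hpa hqb hKD hpD hqD hDM
  have hC0' : (1 : ℝ) ≤ C0 := by exact_mod_cast hC0
  have hab4 : 0 < 4 / ‖a - b‖ := by positivity
  have e1 : (C0 : ℝ) * δ ≤ 1 := by
    refine le_trans (mul_le_mul_of_nonneg_right ?_ hδ.le) hCδ
    linarith
  have e2 : 3 * δ ≤ 1 := by
    refine le_trans (mul_le_mul_of_nonneg_right ?_ hδ.le) hCδ
    linarith
  have e3 : 4 / ‖a - b‖ * δ ≤ 1 := by
    refine le_trans (mul_le_mul_of_nonneg_right ?_ hδ.le) hCδ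
    linarith
  have e4 : ∀ t : ℝ, 0 ≤ t → (C0 + 3 + 4 / ‖a - b‖) * t ≤ 1 →
      C0 * t ≤ 1 ∧ 4 / ‖a - b‖ * t ≤ 1 := by
    intro t ht h1
    constructor
    · refine le_trans (mul_le_mul_of_nonneg_right ?_ ht) h1
      linarith
    · refine le_trans (mul_le_mul_of_nonneg_right ?_ ht) h1
      linarith
  obtain ⟨p1, p2⟩ := e4 _ (norm_nonneg _) hpa
  obtain ⟨q1, q2⟩ := e4 _ (norm_nonneg _) hqb
  obtain ⟨hD, hDc⟩ := box_bound hδ (by linarith) hDM
  have hZ := h δ hδ e1 D p q hp hq p1 q1 hKD hpD hqD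
  rw [Z_wH hD, ENNReal.ofReal_le_ofReal_iff (wH_nonneg _ _ _ _)] at hZ
  have hw : 0 < wH D p q (fun _ => True) := lt_of_lt_of_le (by positivity) hZ
  -- the logarithm
  have hlog : 1 ≤ Real.log (1 / δ) := by
    rw [Real.le_log_iff_exp_le (by positivity), le_div_iff₀ hδ]
    have h1 := Real.exp_one_lt_d9
    have h2 : Real.exp 1 * δ ≤ 3 * δ := mul_le_mul_of_nonneg_right (by linarith) hδ.le
    linarith
  obtain ⟨x, hx⟩ : ∃ x, x = Real.log (1 / δ) := ⟨_, rfl⟩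
  rw [← hx] at hlog ⊢
  have hxx : x ≤ x ^ 2 := by nlinarith
  have hx2 : 0 ≤ x ^ 2 := sq_nonneg x
  -- the distance
  have hdist : ‖a - b‖ / 2 ≤ δ * ‖emb p - emb q‖ := by
    have h1 : a - b = (δ * emb p - δ * emb q : ℂ) - (δ * emb p - a) + (δ * emb q - b) := by ring
    have h2 : ‖a - b‖ ≤ ‖(δ * emb p - δ * emb q : ℂ)‖ + ‖(δ : ℂ) * emb p - a‖ +
        ‖(δ : ℂ) * emb q - b‖ := by
      conv_lhs => rw [h1]
      exact (norm_add_le _ _).trans (add_le_add (norm_sub_le _ _) le_rfl)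
    rw [Pool.Agent.W832.HR.scale_norm hδ] at h2
    have h3 : ‖(δ : ℂ) * emb p - a‖ ≤ ‖a - b‖ / 4 := by
      rw [div_mul_eq_mul_div, div_le_one hab0] at p2
      linarith
    have h4 : ‖(δ : ℂ) * emb q - b‖ ≤ ‖a - b‖ / 4 := by
      rw [div_mul_eq_mul_div, div_le_one hab0] at q2
      linarith
    linarith
  have hd1 : ‖a - b‖ / 2 / δ ≤ ‖emb p - emb q‖ := by
    rw [div_le_iff₀ hδ, mul_comm]
    exact hdist
  refine ⟨hD, hw, ?_, ?_, hlog, ?_, ?_⟩
  · refine le_trans ?_ hd1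
    rw [le_div_iff₀ hδ, one_mul]
    rw [div_mul_eq_mul_div, div_le_one hab0] at e3
    linarith
  · refine le_trans ?_ hd1
    refine div_le_div_of_nonneg_right ?_ hδ.le
    rw [one_div_le (by positivity) (by positivity)]
    have h1 : 1 / (‖a - b‖ / 2) = 2 / ‖a - b‖ := by field_simp
    rw [h1]
    have : 0 ≤ C2 ^ 2 := sq_nonneg _
    linarith
  · have h1 : Real.log D.ncard ≤ C2 * x := by
      have hDpos : (0 : ℝ) < D.ncard := by
        have h2 : 0 < D.ncard := by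
          rw [Set.ncard_pos hD]
          obtain ⟨l, hl⟩ := wH_exists hw
          have h3 := hl.1
          rcases l with _ | ⟨y, t⟩
          · simp at h3
          · exact ⟨y, hl.2.2.2.2 y (by simp)⟩
        exact_mod_cast h2
      have h2 := Real.log_le_log hDpos hDc
      rw [Real.log_pow] at h2
      have h3 : Real.log ((4 * |M| + 7) / δ) = Real.log (4 * |M| + 7) + x := by
        rw [div_eq_mul_one_div, Real.log_mul (by positivity) (by positivity), hx]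
      rw [h3] at h2
      rw [hC2]
      push_cast at h2
      have h4 : Real.log (4 * |M| + 7) * 1 ≤ Real.log (4 * |M| + 7) * x :=
        mul_le_mul_of_nonneg_left hlog hlM
      nlinarith
    have h2 : Real.log D.ncard ^ 2 ≤ (C2 * x) ^ 2 :=
      pow_le_pow_left₀ (Real.log_natCast_nonneg _) h1 2
    refine h2.trans ?_
    rw [mul_pow]
    refine mul_le_mul_of_nonneg_right ?_ hx2
    have : 0 ≤ 2 / ‖a - b‖ := by positivity
    linarith
  · have h1 : Real.log (1 / wH D p q (fun _ => True)) ≤ C0 * x := by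
      rw [one_div, Real.log_inv, neg_le, hx, one_div, Real.log_inv]
      have h2 := Real.log_le_log (by positivity) hZ
      rw [Real.log_pow] at h2
      linarith
    refine h1.trans ?_
    have h2 : C0 * x ≤ C0 * x ^ 2 := mul_le_mul_of_nonneg_left hxx (by linarith)
    refine h2.trans (mul_le_mul_of_nonneg_right ?_ hx2)
    have : 0 ≤ C2 ^ 2 + 2 / ‖a - b‖ := by positivity
    linarith

/-- the error in terms of the mesh -/
theorem err_le {C1 δ d x : ℝ} (hC1 : 1 ≤ C1) (hδ : 0 < δ) (hd : 1 / C1 / δ ≤ d) (hx : 1 ≤ x) :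
    √(C1 * x ^ 2 / d) ≤ C1 * (√δ * x) := by
  have hd0 : 0 < 1 / C1 / δ := by positivity
  have h1 : √(C1 * x ^ 2 / d) ≤ √(C1 ^ 2 * (δ * x ^ 2)) := by
    refine Real.sqrt_le_sqrt ?_
    rw [div_le_iff₀ (lt_of_lt_of_le hd0 hd)]
    have h2 : C1 ^ 2 * (δ * x ^ 2) * (1 / C1 / δ) ≤ C1 ^ 2 * (δ * x ^ 2) * d :=
      mul_le_mul_of_nonneg_left hd (by positivity)
    refine le_trans (le_of_eq ?_) h2
    field_simp
  refine h1.trans (le_of_eq ?_)
  rw [Real.sqrt_mul (by positivity), Real.sqrt_sq (by linarith), Real.sqrt_mul hδ.le,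
    Real.sqrt_sq (by linarith)]

end Q214.SF
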