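import Pool.Agent.Q214.SF.Ext
import Pool.Agent.Q219.SAW.Prb

/-!
# Merging of functionals determined by few points, in domains
-/

set_option autoImplicit false

namespace Q214.SF

open Finset Filter Topology TH966.AK Q219.SAW
open scoped Classical

variable {A : P → P → Prop} {Z : Rule A}

/-- the weight `2 + g` -/
theorem infD_two {D : Set P} {k : ℝ} {g : List P → ℝ} (h1 : ∀ w, |g w| ≤ 1) (hk : 0 ≤ k)
    (hg : ∀ w, Walk A w → In D w → ∑ q ∈ Z.B w, |g (Rule.rep w q.2 q.1) - g w| ≤ k) :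
    InfD Z D k 2 (fun w => 2 + g w) := by
  refine ⟨fun w => ?_, fun w hw => ?_, fun w hw hD => ?_⟩
  · have := (abs_le.1 (h1 w)).1
    linarith
  · have h2 := (abs_le.1 (h1 w)).2
    have h3 : 1 ≤ w.length := List.length_pos_of_ne_nil (walk_ne hw)
    have h4 : (1 : ℝ) ≤ w.length := by exact_mod_cast h3
    nlinarith
  · have h2 : ∑ q ∈ Z.B w, |(2 + g (Rule.rep w q.2 q.1)) - (2 + g w)| =
        ∑ q ∈ Z.B w, |g (Rule.rep w q.2 q.1) - g w| :=
      sum_congr rfl fun q _ => by rw [add_sub_add_left_eq_sub]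
    rw [h2]
    refine (hg w hw hD).trans ?_
    have := (abs_le.1 (h1 w)).1
    nlinarith

theorem infD_one (D : Set P) {k : ℝ} (hk : 0 ≤ k) : InfD Z D k 0 (fun _ => 1) :=
  ⟨fun _ => zero_le_one, fun w _ => by simp, fun w _ _ => by simp [hk]⟩

theorem infD_one' (D : Set P) {k : ℝ} (hk : 0 ≤ k) (m : ℕ) : InfD Z D k m (fun _ => 1) := by
  refine ⟨fun _ => zero_le_one, fun w hw => ?_, fun w _ _ => by simp [hk]⟩
  have h3 : 1 ≤ w.length := List.length_pos_of_ne_nil (walk_ne hw)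
  have h4 : (1 : ℝ) ≤ w.length := by exact_mod_cast h3
  exact one_le_pow₀ (by linarith)

theorem card_posK {μ K : ℝ} (G : Growth Z μ K) (n : ℕ) : (0 : ℝ) < (Kw A n).card := by
  have hμ := G.hμ
  have hμ0 : 0 < μ := by linarith
  exact lt_of_lt_of_le (pow_pos hμ0 n) (G.low n)

/-- the probability to stay in the domain -/
noncomputable def pD (A : P → P → Prop) (D : Set P) (n : ℕ) : ℝ :=
  cD A D (fun _ => 1) n / (Kw A n).card

/-- the conditional mean -/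
noncomputable def eD (A : P → P → Prop) (D : Set P) (g : List P → ℝ) (n : ℕ) : ℝ :=
  cD A D g n / cD A D (fun _ => 1) n

theorem cD_abs {D : Set P} {g : List P → ℝ} (h1 : ∀ w, |g w| ≤ 1) (n : ℕ) :
    |cD A D g n| ≤ cD A D (fun _ => 1) n := by
  unfold cD
  exact (abs_sum_le_sum_abs _ _).trans (sum_le_sum fun w _ => h1 w)

theorem eD_abs {D : Set P} {g : List P → ℝ} (h1 : ∀ w, |g w| ≤ 1) (n : ℕ) :
    |eD A D g n| ≤ 1 := by
  unfold eD
  rw [abs_div]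
  have h2 := cD_abs (A := A) (D := D) h1 n
  have h3 : 0 ≤ cD A D (fun _ => 1) n := cD_nonneg (fun _ => zero_le_one) n
  rw [abs_of_nonneg h3]
  exact div_le_one_of_le₀ h2 h3

theorem pD_le {μ K : ℝ} (G : Growth Z μ K) (D : Set P) (n : ℕ) : pD A D n ≤ 1 := by
  unfold pD
  rw [div_le_one (card_posK G n)]
  exact cD_le (fun _ => le_rfl) n

theorem log_pD_nonneg {μ K : ℝ} (G : Growth Z μ K) (D : Set P) {n : ℕ} (hp : 0 < pD A D n) :
    0 ≤ Real.log (1 / pD A D n) := by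
  refine Real.log_nonneg ?_
  rw [le_div_iff₀ hp, one_mul]
  exact pD_le G D n

/-- the lower bound in terms of the probability -/
theorem low_of_p {μ K : ℝ} (G : Growth Z μ K) (D : Set P) {n : ℕ} (hp : 0 < pD A D n) :
    Real.exp (-(Real.log n ^ 2 + Real.log (1 / pD A D n))) * μ ^ n ≤
      cD A D (fun _ => 1) n := by
  have hμ := G.hμ
  have hμ0 : 0 < μ := by linarith
  have h1 : cD A D (fun _ => 1) n = pD A D n * (Kw A n).card := by
    unfold pD
    rw [div_mul_cancel₀ _ (card_posK G n).ne']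
  rw [h1]
  refine mul_le_mul ?_ (G.low n) (by positivity) hp.le
  rw [neg_add, Real.exp_add, one_div, Real.log_inv, neg_neg, Real.exp_log hp]
  refine mul_le_of_le_one_left hp.le ?_
  rw [Real.exp_le_one_iff]
  have := sq_nonneg (Real.log (n : ℝ))
  linarith

/-- **merging** -/
theorem merge {μ K : ℝ} (G : Growth Z μ K) (hsh : ∀ U U', Z.T U U' → ∀ x ∈ U, x ∈ U')
    (k : ℝ) (hk : 0 ≤ k) :
    ∃ R : ℝ, 0 < R ∧ ∀ (D : Set P) (g : List P → ℝ), (∀ w, |g w| ≤ 1) →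
      (∀ w, Walk A w → In D w → ∑ q ∈ Z.B w, |g (Rule.rep w q.2 q.1) - g w| ≤ k) →
      ∀ n : ℕ, 2 ≤ n → 0 < pD A D n →
      |eD A D g (n + Z.s) - eD A D g n| ≤
        R * √((Real.log n ^ 2 + Real.log (1 / pD A D n)) / n) := by
  have hμ := G.hμ
  have hμ0 : 0 < μ := by linarith
  obtain ⟨R, δ, n1, hR, hδ, h⟩ := ratio_inf G hsh k hk 2
  have hl2 : 0 < Real.log 2 := Real.log_pos (by norm_num)
  refine ⟨12 * R + 2 / √δ + 2 * √n1 / Real.log 2, by positivity, ?_⟩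
  intro D g hg1 hg n hn hp
  obtain ⟨Λ, hΛ⟩ : ∃ Λ : ℝ, Λ = Real.log n ^ 2 + Real.log (1 / pD A D n) := ⟨_, rfl⟩
  rw [← hΛ]
  have hlp := log_pD_nonneg G D hp
  have hn2 : (2 : ℝ) ≤ n := by exact_mod_cast hn
  have hn0 : (0 : ℝ) < n := by linarith
  have hln : Real.log 2 ≤ Real.log n := Real.log_le_log (by norm_num) hn2
  have hΛ2 : Real.log 2 ^ 2 ≤ Λ := by
    rw [hΛ]
    have := pow_le_pow_left₀ hl2.le hln 2
    linarith
  have hΛ0 : 0 < Λ := lt_of_lt_of_le (by positivity) hΛ2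
  have hΛ1 : Real.log n ^ 2 ≤ Λ := by rw [hΛ]; linarith
  have htriv : |eD A D g (n + Z.s) - eD A D g n| ≤ 2 := by
    have h1 := eD_abs (A := A) (D := D) hg1 (n + Z.s)
    have h2 := eD_abs (A := A) (D := D) hg1 n
    exact (abs_sub _ _).trans (by linarith)
  have hX0 : 0 < √(Λ / n) := Real.sqrt_pos.2 (by positivity)
  have t1 : 0 ≤ 12 * R * √(Λ / n) := by positivity
  have t2 : 0 ≤ 2 / √δ * √(Λ / n) := by positivity
  have t3 : 0 ≤ 2 * √n1 / Real.log 2 * √(Λ / n) := by positivity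
  rw [add_mul, add_mul]
  -- small `n`
  rcases lt_or_ge n n1 with h0 | h0
  · have h1 : (2 : ℝ) ≤ 2 * √n1 / Real.log 2 * √(Λ / n) := by
      have h2 : Real.log 2 ≤ √n1 * √(Λ / n) := by
        rw [← Real.sqrt_mul (Nat.cast_nonneg _), Real.le_sqrt' hl2]
        refine hΛ2.trans ?_
        rw [mul_div_assoc', le_div_iff₀ hn0, mul_comm]
        have : (n : ℝ) ≤ n1 := by exact_mod_cast h0.le
        exact mul_le_mul_of_nonneg_right this hΛ0.le
      have h3 : 2 * √n1 / Real.log 2 * √(Λ / n) = 2 * (√n1 * √(Λ / n)) / Real.log 2 := by ring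
      rw [h3, le_div_iff₀ hl2]
      linarith
    linarith
  -- large error
  rcases lt_or_ge (δ * n) Λ with h1 | h1
  · have h2 : (2 : ℝ) ≤ 2 / √δ * √(Λ / n) := by
      have h3 : √δ ≤ √(Λ / n) := by
        refine Real.sqrt_le_sqrt ?_
        rw [le_div_iff₀ hn0]
        exact h1.le
      rw [div_mul_eq_mul_div, le_div_iff₀ (Real.sqrt_pos.2 hδ)]
      linarith
    linarith
  have hlow := low_of_p G D hp
  rw [← hΛ] at hlow
  obtain ⟨c0, hc0⟩ : ∃ c0, c0 = cD A D (fun _ => 1) n := ⟨_, rfl⟩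
  obtain ⟨c1, hc1⟩ : ∃ c1, c1 = cD A D (fun _ => 1) (n + Z.s) := ⟨_, rfl⟩
  obtain ⟨g0, hg0⟩ : ∃ g0, g0 = cD A D g n := ⟨_, rfl⟩
  obtain ⟨g1, hg1'⟩ : ∃ g1, g1 = cD A D g (n + Z.s) := ⟨_, rfl⟩
  have e2 : ∀ m, cD A D (fun w => 2 + g w) m = 2 * cD A D (fun _ => 1) m + cD A D g m := by
    intro m
    unfold cD
    rw [mul_sum, ← sum_add_distrib]
    exact sum_congr rfl fun w _ => by ring
  have hpos : 0 < c0 := by
    rw [hc0]
    exact lt_of_lt_of_le (by positivity) hlow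
  have a1 := h D _ (infD_one' D hk 2) n h0 Λ hΛ1 h1 hlow
  have a2 := h D _ (infD_two hg1 hk hg) n h0 Λ hΛ1 h1 (by
    refine hlow.trans ?_
    unfold cD
    refine sum_le_sum fun w _ => ?_
    have := (abs_le.1 (hg1 w)).1
    linarith)
  rw [e2, e2] at a2
  rw [← hc0, ← hc1] at a1 a2
  rw [← hg0, ← hg1'] at a2
  unfold eD at htriv ⊢
  rw [← hc0, ← hc1, ← hg0, ← hg1'] at htriv ⊢
  rcases le_or_gt (1 / 2) (R * √(Λ / n)) with hb | hs
  · linarith
  have hmain : |g1 / c1 - g0 / c0| ≤ 12 * R * √(Λ / n) := by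
    obtain ⟨ε, hε⟩ : ∃ ε, ε = R * √(Λ / n) := ⟨_, rfl⟩
    rw [← hε] at a1 a2 hs
    have hm0 : 0 < μ ^ Z.s := by positivity
    have hc1p : 0 < c1 := by
      by_contra hcon
      have h2 : c1 / c0 / μ ^ Z.s ≤ 0 :=
        div_nonpos_of_nonpos_of_nonneg (div_nonpos_of_nonpos_of_nonneg (not_lt.1 hcon) hpos.le)
          hm0.le
      have h3 := (abs_le.1 a1).1
      linarith
    obtain ⟨x0, hx0⟩ : ∃ x0, x0 = g0 / c0 := ⟨_, rfl⟩
    obtain ⟨x1, hx1⟩ : ∃ x1, x1 = g1 / c1 := ⟨_, rfl⟩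
    obtain ⟨r, hr⟩ : ∃ r, r = c1 / c0 / μ ^ Z.s := ⟨_, rfl⟩
    have eg0 : g0 = x0 * c0 := by rw [hx0]; field_simp
    have eg1 : g1 = x1 * c1 := by rw [hx1]; field_simp
    have hx0' : |x0| ≤ 1 := by
      rw [hx0, hg0, hc0]
      exact eD_abs (A := A) (D := D) hg1 n
    have e3 : (2 * c1 + g1) / (2 * c0 + g0) / μ ^ Z.s = r * ((2 + x1) / (2 + x0)) := by
      have h2 : 2 + x0 ≠ 0 := by have := (abs_le.1 hx0').1; linarith
      have h3 : 2 * c0 + x0 * c0 ≠ 0 := by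
        have : 2 * c0 + x0 * c0 = (2 + x0) * c0 := by ring
        rw [this]
        exact mul_ne_zero h2 hpos.ne'
      rw [eg0, eg1, hr]
      field_simp
    rw [e3] at a2
    rw [← hr] at a1
    rw [← hx0, ← hx1]
    have hrl : 1 / 2 ≤ r := by have := (abs_le.1 a1).1; linarith
    have hq : 0 < 2 + x0 := by have := (abs_le.1 hx0').1; linarith
    have hid : x1 - x0 = (2 + x0) / r * ((r * ((2 + x1) / (2 + x0)) - 1) - (r - 1)) := by
      have : r ≠ 0 := by linarith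
      field_simp
      ring
    rw [hid, abs_mul]
    have hk6 : |(2 + x0) / r| ≤ 6 := by
      rw [abs_of_pos (by positivity), div_le_iff₀ (by linarith)]
      have := (abs_le.1 hx0').2
      linarith
    calc |(2 + x0) / r| * |(r * ((2 + x1) / (2 + x0)) - 1) - (r - 1)|
        ≤ 6 * (ε + ε) := by
          gcongr
          exact (abs_sub _ _).trans (add_le_add a2 a1)
      _ = 12 * R * √(Λ / n) := by rw [hε]; ring
  linarith

/-- merging for functionals determined by `j` points -/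
theorem merge_det {μ K : ℝ} (G : Growth Z μ K) (hsh : ∀ U U', Z.T U U' → ∀ x ∈ U, x ∈ U')
    (j : ℕ) :
    ∃ R : ℝ, 0 < R ∧ ∀ (D : Set P) (g : List P → ℝ), (∀ w, |g w| ≤ 1) → Det A j g →
      ∀ n : ℕ, 2 ≤ n → 0 < pD A D n →
      |eD A D g (n + Z.s) - eD A D g n| ≤
        R * √((Real.log n ^ 2 + Real.log (1 / pD A D n)) / n) := by
  obtain ⟨R, hR, h⟩ := merge G hsh ((j * Z.CC : ℕ) * 2) (by positivity)
  exact ⟨R, hR, fun D g h1 hg n hn hp => h D g h1 (fun w hw _ => inf_two hsh h1 hg hw) n hn hp⟩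

/-- monotone weights determined by `j` points: the ratio of the weighted numbers and of the weighted
means -/
theorem ratio_mono {μ K : ℝ} (G : Growth Z μ K) (hsh : ∀ U U', Z.T U U' → ∀ x ∈ U, x ∈ U')
    (j m : ℕ) :
    ∃ (R δ : ℝ) (n1 : ℕ), 0 < R ∧ 0 < δ ∧ ∀ (D : Set P) (f : List P → ℝ), (∀ w, 0 ≤ f w) →
      (∀ w, Walk A w → f w ≤ (2 * (w.length : ℝ)) ^ m) → Det A j f →
      (∀ w w0, Walk A w → Walk A w0 → lst w0 = lst w → (∀ x ∈ w0, x ∈ w) → f w0 ≤ f w) →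
      ∀ n : ℕ, n1 ≤ n → ∀ Λ : ℝ, Real.log n ^ 2 ≤ Λ → Λ ≤ δ * n →
      Real.exp (-Λ) * μ ^ n ≤ cD A D f n →
      |cD A D f (n + Z.s) / cD A D f n / μ ^ Z.s - 1| ≤ R * √(Λ / n) := by
  obtain ⟨R, δ, n1, hR, hδ, h⟩ := ratio_inf G hsh (j * Z.CC : ℕ) (by positivity) m
  exact ⟨R, δ, n1, hR, hδ, fun D f h0 h1 hg hm n hn Λ hΛ1 hΛ2 hlow =>
    h D f ⟨h0, h1, fun w hw _ => inf_mono hsh h0 hg hm hw⟩ n hn Λ hΛ1 hΛ2 hlow⟩

end Q214.SF
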