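import Pool.Agent.Q214.SF.WinY
import Pool.Agent.Q214.SF.Fn

/-!
# Positions at finitely many times and extents of the pieces between them
-/

set_option autoImplicit false

namespace Q214.SF

open Finset Filter Topology TH966.AK Q219.SAW Q215.SAW
open scoped Classical

/-- the entries with index from `t` to `t'` -/
def rg (w : List P) (t t' : ℕ) : List P := (w.drop t).take (t' + 1 - t)

theorem mem_rg {w : List P} {t t' : ℕ} {x : P} :
    x ∈ rg w t t' ↔ ∃ i, t ≤ i ∧ i ≤ t' ∧ w[i]? = some x := by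
  unfold rg
  rw [List.mem_iff_getElem?]
  constructor
  · rintro ⟨i, hi⟩
    rw [List.getElem?_take] at hi
    split_ifs at hi with h
    rw [List.getElem?_drop] at hi
    exact ⟨t + i, by omega, by omega, hi⟩
  · rintro ⟨i, h1, h2, h3⟩
    refine ⟨i - t, ?_⟩
    rw [List.getElem?_take, if_pos (by omega), List.getElem?_drop, Nat.add_sub_cancel' h1]
    exact h3

theorem ex_range (ρ : P → P → ℝ) {w : List P} {ι : Type} (f : ι → ℝ)
    (h : ∀ r, (∃ x ∈ w, ∃ y ∈ w, ρ x y = r) ↔ ∃ i, f i = r) : ex ρ w = ⨆ i, f i := by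
  unfold ex iSup
  congr 1
  ext r
  rw [Set.mem_range, Set.mem_range, ← h r]
  constructor
  · rintro ⟨p, hp⟩
    exact ⟨p.1, p.1.2, p.2, p.2.2, hp⟩
  · rintro ⟨x, hx, y, hy, e⟩
    exact ⟨(⟨x, hx⟩, ⟨y, hy⟩), e⟩

theorem ex_congr (ρ : P → P → ℝ) {w w' : List P} (h : ∀ x, x ∈ w ↔ x ∈ w') :
    ex ρ w = ex ρ w' := by
  conv_rhs => unfold ex
  refine ex_range ρ _ fun r => ?_
  constructor
  · rintro ⟨x, hx, y, hy, e⟩
    exact ⟨(⟨x, (h x).1 hx⟩, ⟨y, (h y).1 hy⟩), e⟩
  · rintro ⟨p, hp⟩
    exact ⟨p.1, (h _).2 p.1.2, p.2, (h _).2 p.2.2, hp⟩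

theorem ex_nil (ρ : P → P → ℝ) : ex ρ [] = 0 := by
  unfold ex
  have : IsEmpty ({x // x ∈ ([] : List P)} × {x // x ∈ ([] : List P)}) :=
    ⟨fun p => by simpa using p.1.2⟩
  exact Real.iSup_of_isEmpty _

theorem ex_mp (ρ : P → P → ℝ) (f : P → P) (v : List P) :
    ex ρ (v.map f) = ex (fun y z => ρ (f y) (f z)) v := by
  conv_rhs => unfold ex
  refine ex_range ρ _ fun r => ?_
  constructor
  · rintro ⟨y, hy, z, hz, e⟩
    rw [List.mem_map] at hy hz
    obtain ⟨y', hy', rfl⟩ := hy
    obtain ⟨z', hz', rfl⟩ := hz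
    exact ⟨(⟨y', hy'⟩, ⟨z', hz'⟩), e⟩
  · rintro ⟨p, hp⟩
    exact ⟨f p.1, List.mem_map.2 ⟨_, p.1.2, rfl⟩, f p.2, List.mem_map.2 ⟨_, p.2.2, rfl⟩, hp⟩

theorem ex_split (ρ : P → P → ℝ) {W B v : List P} (hv : v ≠ [])
    (h : ∀ z, z ∈ W ↔ z ∈ B ∨ z ∈ v) :
    ex ρ W = ex (fun x y => ex ρ (x :: y :: B)) v := by
  obtain ⟨v0, v', rfl⟩ := List.exists_cons_of_ne_nil hv
  have hv0 : v0 ∈ v0 :: v' := by simp
  have hW : W ≠ [] := by
    rintro rfl
    have := (h v0).2 (Or.inr hv0)
    simp at this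
  refine le_antisymm ?_ ?_
  · obtain ⟨x, hx, y, hy, e⟩ := ex_att ρ hW
    rw [e]
    have key : ∀ z ∈ W, ∃ z' ∈ v0 :: v', z ∈ B ∨ z = z' := by
      intro z hz
      rcases (h z).1 hz with hz | hz
      · exact ⟨v0, hv0, Or.inl hz⟩
      · exact ⟨z, hz, Or.inr rfl⟩
    obtain ⟨x', hx', hxx⟩ := key x hx
    obtain ⟨y', hy', hyy⟩ := key y hy
    have h2 := le_ex (fun x y => ex ρ (x :: y :: B)) hx' hy'
    refine le_trans (le_ex ρ ?_ ?_) h2
    · rcases hxx with hxx | hxx
      · simp [hxx]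
      · simp [hxx]
    · rcases hyy with hyy | hyy
      · simp [hyy]
      · simp [hyy]
  · obtain ⟨x, hx, y, hy, e⟩ := ex_att (fun x y => ex ρ (x :: y :: B)) hv
    rw [e]
    refine ex_mono ρ (by simp) ?_
    intro z hz
    rw [List.mem_cons, List.mem_cons] at hz
    rcases hz with rfl | rfl | hz
    · exact (h _).2 (Or.inr hx)
    · exact (h _).2 (Or.inr hy)
    · exact (h _).2 (Or.inl hz)

variable {A : P → P → Prop}

theorem det_exF {β I : Type} [Fintype I] (ρ : I → P → P → ℝ) (F : (I → ℝ) → β) :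
    Det A (2 * Fintype.card I) (fun w => F (fun i => ex (ρ i) w)) := by
  intro w hw
  have hne := walk_ne hw
  choose x hx y hy e using fun i : I => ex_att (ρ i) hne
  refine ⟨Finset.univ.biUnion (fun i => {x i, y i}), ?_, ?_, ?_⟩
  · have h1 := Finset.card_biUnion_le_card_mul (Finset.univ : Finset I)
      (fun i => ({x i, y i} : Finset P)) 2 fun i _ => Finset.card_le_two
    rw [Finset.card_univ] at h1
    omega
  · intro z hz
    rw [mem_biUnion] at hz
    obtain ⟨i, -, hz⟩ := hz
    rw [Finset.mem_insert, Finset.mem_singleton] at hz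
    rcases hz with rfl | rfl
    · exact hx i
    · exact hy i
  · intro w0 hw0 hl hsub hE
    have h1 : ∀ i, ex (ρ i) w0 = ex (ρ i) w := by
      intro i
      refine le_antisymm (ex_mono _ (walk_ne hw0) hsub) ?_
      rw [e i]
      refine le_ex _ (hE _ ?_) (hE _ ?_)
      · rw [mem_biUnion]; exact ⟨i, mem_univ i, by simp⟩
      · rw [mem_biUnion]; exact ⟨i, mem_univ i, by simp⟩
    show F (fun i => ex (ρ i) w0) = F (fun i => ex (ρ i) w)
    congr 1
    funext i
    exact h1 i

variable {J r : ℕ}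

/-- the positions at the times `τ` and the extents of the pieces between them -/
noncomputable def Mk (ρ : Fin J → P → P → ℝ) (τ : Fin (r + 1) → ℕ) (w : List P) :
    (Fin (r + 1) → P) × (Fin J → Fin (r + 1) → Fin (r + 1) → ℝ) :=
  (fun i => (w[τ i]?).getD 0, fun c i i' => ex (ρ c) (rg w (τ i) (τ i')))

/-- the same in terms of the outer part and the part in the window -/
noncomputable def Mo (ρ : Fin J → P → P → ℝ) (τ : Fin (r + 1) → ℕ) (k : Fin r)
    (o : List P × List P) (v : List P) :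
    (Fin (r + 1) → P) × (Fin J → Fin (r + 1) → Fin (r + 1) → ℝ) :=
  (fun i => if i ≤ k.castSucc then (o.1[τ i]?).getD 0 else (o.2[τ i - τ k.succ]?).getD 0,
   fun c i i' => if i ≤ k.castSucc then
       (if i' ≤ k.castSucc then ex (ρ c) (rg o.1 (τ i) (τ i'))
        else ex (fun x y => ex (ρ c)
          (x :: y :: (rg o.1 (τ i) (τ k.castSucc) ++ rg o.2 0 (τ i' - τ k.succ)))) v)
     else (if i' ≤ k.castSucc then 0
       else ex (ρ c) (rg o.2 (τ i - τ k.succ) (τ i' - τ k.succ))))

theorem Mk_eq (ρ : Fin J → P → P → ℝ) {τ : Fin (r + 1) → ℕ} (hτ : Monotone τ) {k : Fin r}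
    {a L : ℕ} (ha : τ k.castSucc = a) (hb : τ k.succ = a + L) (hL : 1 ≤ L) {w : List P}
    (hw : a + L < w.length) : Mk ρ τ w = Mo ρ τ k (out a L w) (mid a L w) := by
  have hgt : ∀ i : Fin (r + 1), ¬ i ≤ k.castSucc → a + L ≤ τ i := by
    intro i hi
    rw [← hb]
    exact hτ (Fin.castSucc_lt_iff_succ_le.1 (not_le.1 hi))
  have hle : ∀ i : Fin (r + 1), i ≤ k.castSucc → τ i ≤ a := by
    intro i hi
    rw [← ha]
    exact hτ hi
  have o1 : ∀ i, i ≤ a → (out a L w).1[i]? = w[i]? := by
    intro i hi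
    unfold out
    simp only
    rw [List.getElem?_take, if_pos (by omega)]
  have o1' : ∀ i x, (out a L w).1[i]? = some x → i ≤ a ∧ w[i]? = some x := by
    intro i x hi
    unfold out at hi
    simp only at hi
    rw [List.getElem?_take] at hi
    split_ifs at hi with h
    exact ⟨by omega, hi⟩
  have o2 : ∀ i, (out a L w).2[i]? = w[a + L + i]? := by
    intro i
    unfold out
    simp only
    rw [List.getElem?_drop]
  unfold Mk Mo
  refine Prod.ext ?_ ?_
  · funext i
    simp only
    by_cases hi : i ≤ k.castSucc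
    · rw [if_pos hi, o1 _ (hle i hi)]
    · have := hgt i hi
      rw [if_neg hi, o2, hb]
      congr 2
      omega
  · funext c i i'
    simp only
    by_cases hi : i ≤ k.castSucc
    · rw [if_pos hi]
      by_cases hi' : i' ≤ k.castSucc
      · rw [if_pos hi']
        refine ex_congr _ fun x => ?_
        rw [mem_rg, mem_rg]
        have h1 := hle i' hi'
        constructor
        · rintro ⟨j, h2, h3, h4⟩
          exact ⟨j, h2, h3, by rw [o1 j (by omega)]; exact h4⟩
        · rintro ⟨j, h2, h3, h4⟩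
          exact ⟨j, h2, h3, (o1' j x h4).2⟩
      · rw [if_neg hi', ha, hb]
        have h1 := hgt i' hi'
        have h0 := hle i hi
        have hm : ∀ z, z ∈ mid a L w ↔ ∃ j, a ≤ j ∧ j ≤ a + L ∧ w[j]? = some z := by
          intro z
          have : mid a L w = rg w a (a + L) := by
            unfold mid rg
            congr 1
            omega
          rw [this, mem_rg]
        refine ex_split _ ?_ fun z => ?_
        · intro hc
          have h2 : (mid a L w).length = L + 1 := by
            unfold mid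
            rw [List.length_take, List.length_drop]
            omega
          rw [hc] at h2
          simp at h2
        · rw [List.mem_append, mem_rg, mem_rg, mem_rg, hm]
          constructor
          · rintro ⟨j, h2, h3, h4⟩
            rcases le_or_gt j a with h5 | h5
            · exact Or.inl (Or.inl ⟨j, h2, h5, by rw [o1 j h5]; exact h4⟩)
            · rcases le_or_gt j (a + L) with h6 | h6
              · exact Or.inr ⟨j, h5.le, h6, h4⟩
              · refine Or.inl (Or.inr ⟨j - (a + L), Nat.zero_le _, by omega, ?_⟩)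
                rw [o2, Nat.add_sub_cancel' h6.le]
                exact h4
          · rintro ((⟨j, h2, h3, h4⟩ | ⟨j, h2, h3, h4⟩) | ⟨j, h2, h3, h4⟩)
            · exact ⟨j, h2, by omega, (o1' j z h4).2⟩
            · rw [o2] at h4
              exact ⟨a + L + j, by omega, by omega, h4⟩
            · exact ⟨j, by omega, by omega, h4⟩
    · rw [if_neg hi]
      have h0 := hgt i hi
      by_cases hi' : i' ≤ k.castSucc
      · rw [if_pos hi']
        have h1 := hle i' hi'
        have : rg w (τ i) (τ i') = [] := by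
          unfold rg
          have : τ i' + 1 - τ i = 0 := by omega
          rw [this, List.take_zero]
        rw [this, ex_nil]
      · rw [if_neg hi', hb]
        have h1 := hgt i' hi'
        refine ex_congr _ fun x => ?_
        rw [mem_rg, mem_rg]
        constructor
        · rintro ⟨j, h2, h3, h4⟩
          refine ⟨j - (a + L), by omega, by omega, ?_⟩
          rw [o2, Nat.add_sub_cancel' (by omega)]
          exact h4
        · rintro ⟨j, h2, h3, h4⟩
          rw [o2] at h4
          exact ⟨a + L + j, by omega, by omega, h4⟩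

/-- the new times -/
def shf (τ : Fin (r + 1) → ℕ) (k : Fin r) (s : ℕ) (i : Fin (r + 1)) : ℕ :=
  τ i + if k.castSucc < i then s else 0

theorem shf_mono {τ : Fin (r + 1) → ℕ} (hτ : Monotone τ) (k : Fin r) (s : ℕ) :
    Monotone (shf τ k s) := by
  intro i j hij
  have h1 := hτ hij
  unfold shf
  by_cases hi : k.castSucc < i
  · rw [if_pos hi, if_pos (lt_of_lt_of_le hi hij)]
    omega
  · rw [if_neg hi]
    split_ifs <;> omega

theorem shf_le {τ : Fin (r + 1) → ℕ} {k : Fin r} {s : ℕ} {i : Fin (r + 1)}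
    (hi : i ≤ k.castSucc) : shf τ k s i = τ i := by
  unfold shf
  rw [if_neg (not_lt.2 hi), add_zero]

theorem shf_gt {τ : Fin (r + 1) → ℕ} {k : Fin r} {s : ℕ} {i : Fin (r + 1)}
    (hi : ¬ i ≤ k.castSucc) : shf τ k s i = τ i + s := by
  unfold shf
  rw [if_pos (not_le.1 hi)]

theorem Mo_shf (ρ : Fin J → P → P → ℝ) {τ : Fin (r + 1) → ℕ} (k : Fin r) (s : ℕ) :
    Mo ρ (shf τ k s) k = Mo ρ τ k := by
  funext o v
  unfold Mo
  have hk : ¬ k.succ ≤ k.castSucc := not_le.2 (Fin.castSucc_lt_succ)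
  have hc : shf τ k s k.castSucc = τ k.castSucc := shf_le le_rfl
  have hsub : ∀ i, ¬ i ≤ k.castSucc →
      shf τ k s i - shf τ k s k.succ = τ i - τ k.succ := by
    intro i hi
    rw [shf_gt hi, shf_gt hk]
    omega
  refine Prod.ext ?_ ?_
  · funext i
    simp only
    by_cases hi : i ≤ k.castSucc
    · rw [if_pos hi, if_pos hi, shf_le hi]
    · rw [if_neg hi, if_neg hi, hsub i hi]
  · funext c i i'
    simp only
    by_cases hi : i ≤ k.castSucc
    · rw [if_pos hi, if_pos hi]
      by_cases hi' : i' ≤ k.castSucc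
      · rw [if_pos hi', if_pos hi', shf_le hi, shf_le hi']
      · rw [if_neg hi', if_neg hi', shf_le hi, hc, hsub i' hi']
    · rw [if_neg hi, if_neg hi]
      by_cases hi' : i' ≤ k.castSucc
      · rw [if_pos hi', if_pos hi']
      · rw [if_neg hi', if_neg hi', hsub i hi, hsub i' hi']

/-- functionals of the marks are determined by few points of the part in the window -/
theorem det_Mo {β : Type} (ρ : Fin J → P → P → ℝ) (τ : Fin (r + 1) → ℕ) (k : Fin r)
    (F : (Fin (r + 1) → P) × (Fin J → Fin (r + 1) → Fin (r + 1) → ℝ) → β)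
    (o : List P × List P) (f : P → P) :
    Det A (2 * (J * ((r + 1) * (r + 1)))) (fun v => F (Mo ρ τ k o (v.map f))) := by
  obtain ⟨κ, hκ⟩ : ∃ κ : Fin J × (Fin (r + 1) × Fin (r + 1)) → P → P → ℝ,
    κ = fun q y z => (fun x y => ex (ρ q.1)
          (x :: y :: (rg o.1 (τ q.2.1) (τ k.castSucc) ++ rg o.2 0 (τ q.2.2 - τ k.succ))))
        (f y) (f z) := ⟨_, rfl⟩
  obtain ⟨H, hH⟩ : ∃ H : (Fin J × (Fin (r + 1) × Fin (r + 1)) → ℝ) → β,
    H = fun e => F (fun i => if i ≤ k.castSucc then (o.1[τ i]?).getD 0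
        else (o.2[τ i - τ k.succ]?).getD 0,
      fun c i i' => if i ≤ k.castSucc then
       (if i' ≤ k.castSucc then ex (ρ c) (rg o.1 (τ i) (τ i'))
        else e (c, (i, i')))
     else (if i' ≤ k.castSucc then 0
       else ex (ρ c) (rg o.2 (τ i - τ k.succ) (τ i' - τ k.succ)))) := ⟨_, rfl⟩
  have h1 := det_exF (A := A) κ H
  have h2 : Fintype.card (Fin J × (Fin (r + 1) × Fin (r + 1))) = J * ((r + 1) * (r + 1)) := by
    rw [Fintype.card_prod, Fintype.card_prod, Fintype.card_fin, Fintype.card_fin]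
  rw [h2] at h1
  have h3 : (fun v => F (Mo ρ τ k o (v.map f))) = fun v => H (fun i => ex (κ i) v) := by
    funext v
    rw [hH, hκ]
    unfold Mo
    simp only [ex_mp]
  rw [h3]
  exact h1

end Q214.SF
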