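import Pool.Agent.Q214.SF.Crit

/-!
# Trajectories between two points of a finite domain
-/

set_option autoImplicit false

namespace Q214.SF

open Finset Filter Topology TH966.AK Q219.SAW Q215.SAW
open scoped Classical

variable {A : P → P → Prop} {Z : Rule A}

/-- self-avoiding trajectories from `p` to `q` in `D` -/
def Tr (A : P → P → Prop) (D : Set P) (p q : P) : Set (List P) :=
  {l | l.head? = some p ∧ l.getLast? = some q ∧ l.Nodup ∧ l.IsChain A ∧ ∀ x ∈ l, x ∈ D}

/-- the domain seen from `p` -/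
def DV (V : Vt A) (D : Set P) (p : P) : Set P := {z | V.φ p z ∈ D}

theorem lst_some {w : List P} (hw : w ≠ []) : w.getLast? = some (lst w) := by
  unfold lst
  rw [List.getLast?_eq_getLast_of_ne_nil hw, Option.getD_some]

include Z in
theorem map_mem (V : Vt A) {D : Set P} {p q : P} {n : ℕ} {v : List P}
    (hv : v ∈ KD A (DV V D p) n) (hl : lst v = (V.φ p).symm q) :
    v.map (V.φ p) ∈ Tr A D p q ∧ (v.map (V.φ p)).length = n + 1 := by
  rw [mem_KD (Z := Z)] at hv
  obtain ⟨⟨h1, h2, h3, h4⟩, h5⟩ := hv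
  have hne : v ≠ [] := by rintro rfl; simp at h1
  refine ⟨⟨?_, ?_, (mp_nodup _).2 h3, (mp_chain V).2 h4, ?_⟩, by rw [List.length_map, h1]⟩
  · rw [List.head?_map, h2, Option.map_some, V.zero]
  · rw [List.getLast?_map, lst_some hne, hl, Option.map_some, Equiv.apply_symm_apply]
  · intro x hx
    rw [List.mem_map] at hx
    obtain ⟨z, hz, rfl⟩ := hx
    exact h5 z hz

include Z in
theorem mem_map' (V : Vt A) {D : Set P} {p q : P} {l : List P} (hl : l ∈ Tr A D p q) :
    (l.map (V.φ p).symm) ∈ KD A (DV V D p) (l.length - 1) ∧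
      lst (l.map (V.φ p).symm) = (V.φ p).symm q ∧ (l.map (V.φ p).symm).map (V.φ p) = l := by
  obtain ⟨h1, h2, h3, h4, h5⟩ := hl
  have hne : l ≠ [] := by rintro rfl; simp at h1
  have hlen : 1 ≤ l.length := List.length_pos_of_ne_nil hne
  have hz : (V.φ p).symm p = 0 := by rw [Equiv.symm_apply_eq, V.zero]
  refine ⟨?_, ?_, mp_symm _ _⟩
  · rw [mem_KD (Z := Z)]
    refine ⟨⟨by rw [List.length_map]; omega, ?_, ?_, (mp_chain_symm V).2 h4⟩, ?_⟩
    · rw [List.head?_map, h1, Option.map_some, hz]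
    · exact (mp_nodup _).2 h3
    · intro x hx
      rw [List.mem_map] at hx
      obtain ⟨z, hz, rfl⟩ := hx
      show V.φ p ((V.φ p).symm z) ∈ D
      rw [Equiv.apply_symm_apply]
      exact h5 z hz
  · unfold lst
    rw [List.getLast?_map, h2, Option.map_some, Option.getD_some]

theorem len_le {D : Set P} (hD : D.Finite) {l : List P} (h3 : l.Nodup) (h5 : ∀ x ∈ l, x ∈ D) :
    l.length ≤ D.ncard := by
  rw [← List.toFinset_card_of_nodup h3, Set.ncard_eq_toFinset_card _ hD]
  refine card_le_card fun x hx => ?_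
  rw [List.mem_toFinset] at hx
  rw [Set.Finite.mem_toFinset]
  exact h5 x hx

/-- the finite set of the trajectories -/
noncomputable def TF (V : Vt A) (D : Set P) (p q : P) (M : ℕ) : Finset (List P) :=
  (range (M + 1)).biUnion (fun n =>
    ((KD A (DV V D p) n).filter (fun v => lst v = (V.φ p).symm q)).image (List.map (V.φ p)))

include Z in
theorem TF_eq (V : Vt A) {D : Set P} (hD : D.Finite) (p q : P) {M : ℕ} (hM : D.ncard ≤ M + 1) :
    ((TF V D p q M : Finset (List P)) : Set (List P)) = Tr A D p q := by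
  ext l
  unfold TF
  rw [Finset.mem_coe, mem_biUnion]
  constructor
  · rintro ⟨n, -, hl⟩
    rw [mem_image] at hl
    obtain ⟨v, hv, rfl⟩ := hl
    rw [mem_filter] at hv
    exact (map_mem (Z := Z) V hv.1 hv.2).1
  · intro hl
    obtain ⟨h1, h2, h3⟩ := mem_map' (Z := Z) V hl
    have hlen := len_le hD hl.2.2.1 hl.2.2.2.2
    refine ⟨l.length - 1, by rw [mem_range]; omega, ?_⟩
    rw [mem_image]
    exact ⟨_, mem_filter.2 ⟨h1, h2⟩, h3⟩

include Z in
theorem sum_TF (V : Vt A) {D : Set P} (p q : P) (M : ℕ) (F : List P → ℝ) :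
    ∑ l ∈ TF V D p q M, F l = ∑ n ∈ range (M + 1),
      cD A (DV V D p) (fun v => ind {(V.φ p).symm q} v * F (v.map (V.φ p))) n := by
  unfold TF
  rw [sum_biUnion]
  · refine sum_congr rfl fun n _ => ?_
    rw [sum_image (fun v _ v' _ h => List.map_injective_iff.2 (V.φ p).injective h), sum_filter]
    unfold cD ind
    refine sum_congr rfl fun v _ => ?_
    simp only [Set.mem_singleton_iff]
    split_ifs <;> simp
  · intro n _ n' _ hnn
    rw [Function.onFun, Finset.disjoint_left]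
    intro l hl hl'
    rw [mem_image] at hl hl'
    obtain ⟨v, hv, rfl⟩ := hl
    obtain ⟨v', hv', e⟩ := hl'
    rw [mem_filter, mem_KD (Z := Z)] at hv hv'
    have h1 := congrArg List.length e
    rw [List.length_map, List.length_map, hv.1.1.1, hv'.1.1.1] at h1
    exact hnn (by omega)

include Z in
theorem cD_big (V : Vt A) {D : Set P} (hD : D.Finite) (p : P) {M : ℕ} (hM : D.ncard ≤ M + 1)
    (f : List P → ℝ) {n : ℕ} (hn : M < n) : cD A (DV V D p) f n = 0 := by
  unfold cD
  rw [Finset.sum_eq_zero]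
  intro w hw
  exfalso
  rw [mem_KD (Z := Z)] at hw
  have h1 : (w.map (V.φ p)).length ≤ D.ncard := by
    refine len_le hD ((mp_nodup _).2 hw.1.2.2.1) ?_
    intro x hx
    rw [List.mem_map] at hx
    obtain ⟨z, hz, rfl⟩ := hx
    exact hw.2 z hz
  rw [List.length_map, hw.1.1] at h1
  omega

/-- sums over the trajectories with a property -/
theorem finsum_TF (V : Vt A) {D : Set P} (p q : P) {M : ℕ}
    (hT : ((TF V D p q M : Finset (List P)) : Set (List P)) = Tr A D p q) (Q : List P → Prop)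
    (F : List P → ℝ) :
    ∑ᶠ l ∈ {l | l ∈ Tr A D p q ∧ Q l}, F l =
      ∑ l ∈ TF V D p q M, if Q l then F l else 0 := by
  have h1 : {l | l ∈ Tr A D p q ∧ Q l} =
      (((TF V D p q M).filter Q : Finset (List P)) : Set (List P)) := by
    ext l
    rw [Finset.coe_filter, ← hT]
    rfl
  rw [h1, finsum_mem_coe_finset, sum_filter]

/-- the weight of the trajectories with a property -/
noncomputable def wt (A : P → P → Prop) (μ : ℝ) (D : Set P) (p q : P) (Q : List P → Prop) : ℝ :=
  ∑ᶠ l ∈ {l | l ∈ Tr A D p q ∧ Q l}, (1 / μ) ^ (l.length - 1)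

theorem wt_eq (Z : Rule A) (V : Vt A) {μ : ℝ} {D : Set P} (hD : D.Finite) (p q : P) {M : ℕ}
    (hM : D.ncard ≤ M + 1) (Q : ℕ → List P → Prop) :
    wt A μ D p q (fun l => Q (l.length - 1) l) = ∑ n ∈ range (M + 1),
      cD A (DV V D p) (fun v => ind {(V.φ p).symm q} v *
        (if Q n (v.map (V.φ p)) then 1 else 0)) n / μ ^ n := by
  unfold wt
  rw [finsum_TF V p q (TF_eq (Z := Z) V hD p q hM), sum_TF (Z := Z)]
  refine sum_congr rfl fun n _ => ?_
  unfold cD
  rw [sum_div]
  refine sum_congr rfl fun v hv => ?_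
  rw [mem_KD (Z := Z)] at hv
  have h1 : (v.map (V.φ p)).length - 1 = n := by
    rw [List.length_map, hv.1.1]
    omega
  simp only [h1]
  split_ifs
  · rw [mul_one, one_div, inv_pow, ← div_eq_mul_inv]
  · simp

/-- **the critical ensemble of the trajectories** -/
theorem crit_traj {μ K : ℝ} (G : Growth Z μ K) (hsh : ∀ U U', Z.T U U' → ∀ x ∈ U, x ∈ U')
    (V : Vt A) (J : ℕ) :
    ∃ (R δ : ℝ) (m0 : ℕ), 0 < R ∧ 0 < δ ∧ ∀ (D : Set P) (p q : P) (m M : ℕ) (Λ : ℝ), m0 ≤ m →
      m ≤ M → D.Finite → D.ncard ≤ M + 1 → (∀ l ∈ Tr A D p q, m + 1 ≤ l.length) →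
      Real.log M ^ 2 ≤ Λ → Λ ≤ δ * m →
      Real.exp (-Λ) ≤ wt A μ D p q (fun _ => True) →
      ∀ (ρ : Fin J → P → P → ℝ) (U : ℕ → (Fin J → ℝ) → Prop),
      |wt A μ D p q (fun l => U (l.length - 1 + Z.s) (fun i => ex (ρ i) l)) -
        wt A μ D p q (fun l => U (l.length - 1) (fun i => ex (ρ i) l))| ≤
      R * √(Λ / m) * wt A μ D p q (fun _ => True) := by
  have hμ := G.hμ
  have hμ0 : 0 < μ := by linarith
  obtain ⟨R, δ, m0, hR, hδ, h⟩ := crit_tv G hsh (2 * J)
  refine ⟨R, δ, max m0 Z.s, hR, hδ, ?_⟩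
  intro D p q m M Λ hm hmM hD hDM hlen hΛ1 hΛ2 hZ ρ U
  have hmm : m0 ≤ m := (le_max_left _ _).trans hm
  have hms : Z.s ≤ m := (le_max_right _ _).trans hm
  obtain ⟨q', hq'⟩ : ∃ q', q' = (V.φ p).symm q := ⟨_, rfl⟩
  have hlow : ∀ n, n < m → cD A (DV V D p) (ind {q'}) n = 0 := by
    intro n hn
    unfold cD ind
    rw [Finset.sum_eq_zero]
    intro w hw
    rw [if_neg]
    intro hc
    rw [Set.mem_singleton_iff, hq'] at hc
    obtain ⟨h1, h2⟩ := map_mem (Z := Z) V hw hc
    have := hlen _ h1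
    omega
  have hbig : ∀ (f : List P → ℝ) n, M < n → cD A (DV V D p) f n = 0 := fun f n hn =>
    cD_big (Z := Z) V hD p hDM f hn
  have e0 : wt A μ D p q (fun _ => True) = ∑ n ∈ range (M + 1),
      cD A (DV V D p) (ind {q'}) n / μ ^ n := by
    have := wt_eq Z V (μ := μ) hD p q hDM (fun _ _ => True)
    rw [this]
    refine sum_congr rfl fun n _ => ?_
    simp only [if_true, mul_one, hq']
  obtain ⟨g, hg⟩ : ∃ g : ℕ → List P → ℝ, g = fun n v =>
      if U (n + Z.s) (fun i => ex (ρ i) (v.map (V.φ p))) then 1 else 0 := ⟨_, rfl⟩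
  have hg1 : ∀ n w, |g n w| ≤ 1 := by
    intro n w
    rw [hg]
    simp only
    split_ifs <;> norm_num
  have hgd : ∀ n, Det A (2 * J) (g n) := by
    intro n
    have h1 := det_exF (A := A) (fun i : Fin J => fun y z => ρ i (V.φ p y) (V.φ p z))
      (fun e => if U (n + Z.s) e then (1 : ℝ) else 0)
    rw [Fintype.card_fin] at h1
    have h2 : g n = fun w => (fun e => if U (n + Z.s) e then (1 : ℝ) else 0)
        (fun i => ex (fun y z => ρ i (V.φ p y) (V.φ p z)) w) := by
      rw [hg]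
      funext v
      simp only [ex_mp]
    rw [h2]
    exact h1
  have e1 : wt A μ D p q (fun l => U (l.length - 1 + Z.s) (fun i => ex (ρ i) l)) =
      ∑ n ∈ range (M + 1), cD A (DV V D p) (fun v => ind {q'} v * g n v) n / μ ^ n := by
    rw [wt_eq Z V hD p q hDM (fun n l => U (n + Z.s) (fun i => ex (ρ i) l)), hg, hq']
  have e2 : wt A μ D p q (fun l => U (l.length - 1) (fun i => ex (ρ i) l)) =
      ∑ n ∈ range (M + 1), cD A (DV V D p) (fun v => ind {q'} v * g n v) (n + Z.s) /
        μ ^ (n + Z.s) := by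
    rw [wt_eq Z V hD p q hDM (fun n l => U n (fun i => ex (ρ i) l)), hg, ← hq']
    obtain ⟨a, ha⟩ : ∃ a : ℕ → ℝ, a = fun n => cD A (DV V D p) (fun v => ind {q'} v *
        (if U n (fun i => ex (ρ i) (v.map (V.φ p))) then 1 else 0)) n / μ ^ n := ⟨_, rfl⟩
    have haM : ∀ n, M < n → a n = 0 := fun n hn => by rw [ha]; simp only; rw [hbig _ n hn, zero_div]
    have ham : ∀ n, n < m → a n = 0 := by
      intro n hn
      have h1 := cD_ind_le (A := A) (D := DV V D p) (E := {q'})
        (g := fun v => if U n (fun i => ex (ρ i) (v.map (V.φ p))) then 1 else 0)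
        (fun w => by split_ifs <;> norm_num) n
      rw [hlow n hn] at h1
      rw [ha]
      simp only
      rw [abs_nonpos_iff.1 h1, zero_div]
    have e3 : ∑ n ∈ range (M + 1), a n = ∑ n ∈ range (Z.s + (M + 1)), a n := by
      refine sum_subset (range_subset_range.2 (by omega)) fun n _ hn => haM n ?_
      rw [mem_range] at hn
      omega
    have e4 : ∑ n ∈ range (Z.s + (M + 1)), a n = ∑ n ∈ range (M + 1), a (n + Z.s) := by
      rw [Finset.sum_range_add]
      rw [Finset.sum_eq_zero (s := range Z.s), zero_add]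
      · exact sum_congr rfl fun n _ => by rw [add_comm]
      · intro n hn
        rw [mem_range] at hn
        exact ham n (by omega)
    have e5 := e3.trans e4
    rw [ha] at e5
    exact e5
  have h1 := h (DV V D p) {q'} m M Λ hmm hmM hlow hΛ1 hΛ2 (by rw [← e0]; exact hZ) g hg1 hgd
  rw [← e0] at h1
  rw [e1, e2, abs_sub_comm, ← sum_sub_distrib]
  exact (abs_sum_le_sum_abs _ _).trans h1

end Q214.SF
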