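import Pool.Agent.Q215.SAW.Win
import Pool.Agent.Q214.SF.Merge

/-!
# The part of the walk outside a window together with functionals of the part in the window
-/

set_option autoImplicit false

namespace Q214.SF

open Finset Filter Topology TH966.AK Q219.SAW Q215.SAW
open scoped Classical

variable {A : P → P → Prop} {Z : Rule A}

/-- the part of the walk in the window -/
def mid (a L : ℕ) (w : List P) : List P := (w.drop a).take (L + 1)

/-- the sum over the fillings is the sum over the walks in the free domain -/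
theorem fill_sum (Z : Rule A) (V : Vt A) {a l m : ℕ}
    {D : Set P} {g0 g1 : List P} {x y : P} (h0 : g0.length = a) (h1 : g1.length = m)
    (hg : Good A g0 x y g1) (hD0 : In D (g0 ++ [x])) (hD1 : In D (y :: g1)) (F : List P → ℝ) :
    ∑ w ∈ (KD A D (a + (l + 1) + m)).filter (fun w => w.take (a + 1) = g0 ++ [x] ∧
      w.drop (a + (l + 1)) = y :: g1), F (mid a (l + 1) w) =
      cD A (DomV V D g0 x g1) (fun v => ind {(V.φ x).symm y} v * F (v.map (V.φ x))) (l + 1) := by
  have h2 : cD A (DomV V D g0 x g1) (fun v => ind {(V.φ x).symm y} v * F (v.map (V.φ x))) (l + 1) =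
      ∑ v ∈ (KD A (DomV V D g0 x g1) (l + 1)).filter (fun v => lst v = (V.φ x).symm y),
        F (v.map (V.φ x)) := by
    unfold cD ind
    rw [sum_filter]
    refine sum_congr rfl fun v _ => ?_
    simp only [Set.mem_singleton_iff]
    split_ifs <;> simp
  rw [h2]
  symm
  have hwalk := hg.hd
  refine Finset.sum_bij (fun v _ => g0 ++ v.map (V.φ x) ++ g1) ?_ ?_ ?_ ?_
  · intro v hv
    rw [mem_filter, mem_KD (Z := Z)] at hv
    obtain ⟨⟨⟨v1, v2, v3, v4⟩, v5⟩, v6⟩ := hv
    obtain ⟨p, t, rfl⟩ := List.exists_cons_of_length_eq_add_one v1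
    simp only [List.head?_cons, Option.some.injEq] at v2
    subst v2
    have ht : t ≠ [] := by
      rintro rfl
      simp at v1
    obtain ⟨mid, z, rfl⟩ : ∃ mid z, t = mid ++ [z] := by
      rcases t.eq_nil_or_concat with h | ⟨mid, z, h⟩
      · exact absurd h ht
      · exact ⟨mid, z, by rw [h, List.concat_eq_append]⟩
    have hz : z = (V.φ x).symm y := by
      rw [← v6]
      unfold lst
      rw [← List.cons_append, List.getLast?_concat, Option.getD_some]
    subst hz
    have hml : mid.length = l := by simpa using v1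
    have e1 : ((0 : P) :: (mid ++ [(V.φ x).symm y])).map (V.φ x) =
        x :: (mid.map (V.φ x) ++ [y]) := by
      simp [V.zero]
    have hnd : (((0 : P) :: (mid ++ [(V.φ x).symm y])).map (V.φ x)).Nodup := (mp_nodup _).2 v3
    have hch : (((0 : P) :: (mid ++ [(V.φ x).symm y])).map (V.φ x)).IsChain A :=
      (mp_chain V).2 v4
    rw [e1] at hnd hch
    have hdis : ∀ z ∈ x :: (mid.map (V.φ x) ++ [y]), z ∉ g0 ∧ z ∉ g1 ∧ z ∈ D := by
      intro z hz
      rw [← e1] at hz
      rw [List.mem_map] at hz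
      obtain ⟨u, hu, rfl⟩ := hz
      exact v5 u hu
    rw [mem_filter, mem_KD (Z := Z), e1]
    have e2 : g0 ++ (x :: (mid.map (V.φ x) ++ [y])) ++ g1 =
        (g0 ++ [x]) ++ (mid.map (V.φ x) ++ (y :: g1)) := by simp
    refine ⟨⟨⟨?_, ?_, ?_, ?_⟩, ?_⟩, ?_, ?_⟩
    · simp only [List.length_append, List.length_cons, List.length_nil, List.length_map]
      rw [hml, h0, h1]
      omega
    · rw [e2, ← hwalk.1]
      cases g0 <;> simp
    · rw [List.nodup_append, List.nodup_append]
      have hg0 : g0.Nodup := (List.nodup_append.1 hwalk.2.1).1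
      have hg1 : g1.Nodup := (List.nodup_cons.1 hg.nd).2
      refine ⟨⟨hg0, hnd, ?_⟩, hg1, ?_⟩
      · intro z hz z' hz' hzz
        subst hzz
        exact (hdis z hz').1 hz
      · intro z hz z' hz' hzz
        subst hzz
        rw [List.mem_append] at hz
        rcases hz with hz | hz
        · exact hg.dj z (by simp [hz]) (by simp [hz'])
        · exact (hdis z hz).2.1 hz'
    · have c1 : (g0 ++ (x :: (mid.map (V.φ x) ++ [y])) ++ g1) =
          g0 ++ x :: (mid.map (V.φ x) ++ y :: g1) := by simp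
      rw [c1, List.isChain_split]
      refine ⟨hwalk.2.2, ?_⟩
      have c2 : x :: (mid.map (V.φ x) ++ y :: g1) = (x :: mid.map (V.φ x)) ++ y :: g1 := by simp
      rw [c2, List.isChain_split]
      refine ⟨?_, hg.ch⟩
      simpa using hch
    · intro z hz
      rw [List.mem_append, List.mem_append] at hz
      rcases hz with (hz | hz) | hz
      · exact hD0 z (by simp [hz])
      · exact (hdis z hz).2.2
      · exact hD1 z (by simp [hz])
    · rw [e2, List.take_append_of_le_length (by simp [h0])]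
      rw [List.take_of_length_le (by simp [h0])]
    · have e3 : g0 ++ (x :: (mid.map (V.φ x) ++ [y])) ++ g1 =
          (g0 ++ (x :: mid.map (V.φ x))) ++ (y :: g1) := by simp
      have hlen : (g0 ++ (x :: mid.map (V.φ x))).length = a + (l + 1) := by
        simp only [List.length_append, List.length_cons, List.length_map]
        rw [hml, h0]
      rw [e3, ← hlen, List.drop_left]
  · intro v hv v' hv' h
    have h3 := List.append_cancel_right h
    have h4 := List.append_cancel_left h3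
    exact List.map_injective_iff.2 (V.φ x).injective h4
  · intro w hw
    rw [mem_filter, mem_KD (Z := Z)] at hw
    obtain ⟨⟨⟨w0, w1, w2, w3⟩, wD⟩, w4, w5⟩ := hw
    obtain ⟨mid, hm, rfl⟩ := walk_split w0 w4 w5
    have e1 : ((0 : P) :: (mid.map (V.φ x).symm ++ [(V.φ x).symm y])).map (V.φ x) =
        x :: (mid ++ [y]) := by
      rw [List.map_cons, List.map_append, mp_symm, V.zero]
      simp
    refine ⟨0 :: (mid.map (V.φ x).symm ++ [(V.φ x).symm y]), ?_, by rw [e1]⟩
    rw [mem_filter, mem_KD (Z := Z)]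
    have n1 := List.nodup_append.1 w2
    have n2 := List.nodup_append.1 n1.1
    refine ⟨⟨⟨?_, ?_, ?_, ?_⟩, ?_⟩, ?_⟩
    · simp only [List.length_append, List.length_cons, List.length_nil, List.length_map]
      rw [hm]
    · simp
    · rw [← mp_nodup (V.φ x), e1]
      exact n2.2.1
    · rw [← mp_chain V (x := x), e1]
      exact (List.isChain_append.1 (List.isChain_append.1 w3).1).2.1
    · intro z hz
      have hz' : V.φ x z ∈ x :: (mid ++ [y]) := by
        rw [← e1]
        rw [List.mem_map]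
        exact ⟨z, hz, rfl⟩
      refine ⟨fun hc => ?_, fun hc => ?_, ?_⟩
      · exact n2.2.2 _ hc _ hz' rfl
      · exact n1.2.2 _ (by rw [List.mem_append]; exact Or.inr hz') _ hc rfl
      · exact wD _ (by rw [List.mem_append, List.mem_append]; exact Or.inl (Or.inr hz'))
    · unfold lst
      rw [← List.cons_append, List.getLast?_concat, Option.getD_some]
  · intro v hv
    rw [mem_filter, mem_KD (Z := Z)] at hv
    have hl : (v.map (V.φ x)).length = l + 1 + 1 := by
      rw [List.length_map]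
      exact hv.1.1.1
    unfold mid
    rw [List.append_assoc, ← h0, List.drop_left, ← hl, List.take_left]

/-- functionals determined by few points, with given end point -/
theorem fib_det {μ K : ℝ} (G : Growth Z μ K) (hsh : ∀ U U', Z.T U U' → ∀ x ∈ U, x ∈ U')
    (j : ℕ) :
    ∃ (R δ : ℝ) (n1 : ℕ), 0 < R ∧ 0 < δ ∧ ∀ (D E : Set P) (g : List P → ℝ), (∀ w, |g w| ≤ 1) →
      Det A j g → ∀ n : ℕ, n1 ≤ n → ∀ Λ : ℝ, Real.log n ^ 2 ≤ Λ → Λ ≤ δ * n →
      Real.exp (-Λ) * μ ^ n ≤ cD A D (ind E) n →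
      |cD A D (fun w => ind E w * g w) (n + Z.s) -
        μ ^ Z.s * cD A D (fun w => ind E w * g w) n| ≤
        R * √(Λ / n) * (μ ^ Z.s * cD A D (ind E) n) := by
  have hμ := G.hμ
  have hμ0 : 0 < μ := by linarith
  obtain ⟨k, hk⟩ : ∃ k : ℝ, k = (j * Z.CC : ℕ) * 2 := ⟨_, rfl⟩
  have hk0 : 0 ≤ k := by rw [hk]; positivity
  obtain ⟨R, δ, n1, hR, hδ, h⟩ := ratio_inf G hsh k hk0 2
  refine ⟨5 * R, δ, n1, by positivity, hδ, ?_⟩
  intro D E g hg1 hg n hn Λ hΛ1 hΛ2 hlow
  have hlst : ∀ w, Walk A w → ∀ q ∈ Z.B w, ind E (Rule.rep w q.2 q.1) = ind E w := by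
    intro w hw q hq
    obtain ⟨-, h3, -, -⟩ := rem_data hsh hw hq
    unfold ind
    rw [h3]
  have hlen : ∀ w, Walk A w → (4 : ℝ) ≤ (2 * (w.length : ℝ)) ^ 2 := by
    intro w hw
    have h3 : 1 ≤ w.length := List.length_pos_of_ne_nil (walk_ne hw)
    have h4 : (1 : ℝ) ≤ w.length := by exact_mod_cast h3
    nlinarith
  have i1 : InfD Z D k 2 (ind E) := by
    refine ⟨ind_nn E, fun w hw => ?_, fun w hw _ => ?_⟩
    · have := ind_le E w
      have := hlen w hw
      linarith
    · rw [sum_congr rfl fun q hq => by rw [hlst w hw q hq, sub_self, abs_zero], sum_const_zero]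
      exact mul_nonneg hk0 (ind_nn E w)
  have i2 : InfD Z D k 2 (fun w => ind E w * (2 + g w)) := by
    refine ⟨fun w => ?_, fun w hw => ?_, fun w hw hD => ?_⟩
    · have := (abs_le.1 (hg1 w)).1
      exact mul_nonneg (ind_nn E w) (by linarith)
    · have h2 := (abs_le.1 (hg1 w)).2
      have h3 := (abs_le.1 (hg1 w)).1
      have h4 : ind E w * (2 + g w) ≤ 1 * (2 + g w) :=
        mul_le_mul_of_nonneg_right (ind_le E w) (by linarith)
      have := hlen w hw
      linarith
    · have h2 : ∑ q ∈ Z.B w, |ind E (Rule.rep w q.2 q.1) * (2 + g (Rule.rep w q.2 q.1)) -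
          ind E w * (2 + g w)| = ind E w * ∑ q ∈ Z.B w, |g (Rule.rep w q.2 q.1) - g w| := by
        rw [mul_sum]
        refine sum_congr rfl fun q hq => ?_
        rw [hlst w hw q hq, ← mul_sub, abs_mul, abs_of_nonneg (ind_nn E w)]
        congr 2
        ring
      rw [h2]
      have h3 := inf_two hsh hg1 hg hw
      rw [← hk] at h3
      have h4 := (abs_le.1 (hg1 w)).1
      calc ind E w * ∑ q ∈ Z.B w, |g (Rule.rep w q.2 q.1) - g w| ≤ ind E w * k :=
            mul_le_mul_of_nonneg_left h3 (ind_nn E w)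
        _ = k * (ind E w * 1) := by ring
        _ ≤ k * (ind E w * (2 + g w)) := by
            refine mul_le_mul_of_nonneg_left (mul_le_mul_of_nonneg_left ?_ (ind_nn E w)) hk0
            linarith
  obtain ⟨c0, hc0⟩ : ∃ c0, c0 = cD A D (ind E) n := ⟨_, rfl⟩
  obtain ⟨c1, hc1⟩ : ∃ c1, c1 = cD A D (ind E) (n + Z.s) := ⟨_, rfl⟩
  obtain ⟨g0, hg0⟩ : ∃ g0, g0 = cD A D (fun w => ind E w * g w) n := ⟨_, rfl⟩
  obtain ⟨g1, hg1'⟩ : ∃ g1, g1 = cD A D (fun w => ind E w * g w) (n + Z.s) := ⟨_, rfl⟩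
  have e2 : ∀ m, cD A D (fun w => ind E w * (2 + g w)) m =
      2 * cD A D (ind E) m + cD A D (fun w => ind E w * g w) m := by
    intro m
    unfold cD
    rw [mul_sum, ← sum_add_distrib]
    exact sum_congr rfl fun w _ => by ring
  have hgc : |g0| ≤ c0 := by
    rw [hg0, hc0]
    unfold cD
    refine (abs_sum_le_sum_abs _ _).trans (sum_le_sum fun w _ => ?_)
    rw [abs_mul, abs_of_nonneg (ind_nn E w)]
    exact mul_le_of_le_one_right (ind_nn E w) (hg1 w)
  have hpos : 0 < c0 := by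
    rw [hc0]
    exact lt_of_lt_of_le (by positivity) hlow
  have a1 := h D _ i1 n hn Λ hΛ1 hΛ2 hlow
  have a2 := h D _ i2 n hn Λ hΛ1 hΛ2 (by
    refine hlow.trans ?_
    rw [e2]
    rw [← hc0, ← hg0]
    have := (abs_le.1 hgc).1
    linarith)
  rw [e2, e2] at a2
  rw [← hc0, ← hc1] at a1 a2
  rw [← hg0, ← hg1'] at a2
  rw [← hg1', ← hg0, ← hc0]
  obtain ⟨ε, hε⟩ : ∃ ε, ε = R * √(Λ / n) := ⟨_, rfl⟩
  have hε0 : 0 ≤ ε := by rw [hε]; positivity
  rw [← hε] at a1 a2
  obtain ⟨M, hM⟩ : ∃ M, M = μ ^ Z.s := ⟨_, rfl⟩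
  have hM0 : 0 < M := by rw [hM]; positivity
  rw [← hM] at a1 a2 ⊢
  have b1 : |c1 - M * c0| ≤ ε * (M * c0) := by
    have e3 : c1 - M * c0 = (c1 / c0 / M - 1) * (M * c0) := by field_simp
    rw [e3, abs_mul, abs_of_pos (mul_pos hM0 hpos)]
    exact mul_le_mul_of_nonneg_right a1 (mul_pos hM0 hpos).le
  have hq : 0 < 2 * c0 + g0 := by
    have := (abs_le.1 hgc).1
    linarith
  have b2 : |(2 * c1 + g1) - M * (2 * c0 + g0)| ≤ ε * (M * (2 * c0 + g0)) := by
    have e3 : (2 * c1 + g1) - M * (2 * c0 + g0) =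
        ((2 * c1 + g1) / (2 * c0 + g0) / M - 1) * (M * (2 * c0 + g0)) := by field_simp
    rw [e3, abs_mul, abs_of_pos (mul_pos hM0 hq)]
    exact mul_le_mul_of_nonneg_right a2 (mul_pos hM0 hq).le
  have e4 : g1 - M * g0 = ((2 * c1 + g1) - M * (2 * c0 + g0)) - 2 * (c1 - M * c0) := by ring
  rw [e4]
  refine (abs_sub _ _).trans ?_
  rw [abs_mul, abs_of_pos (show (0 : ℝ) < 2 by norm_num)]
  have b3 : ε * (M * (2 * c0 + g0)) ≤ ε * (M * (3 * c0)) := by
    refine mul_le_mul_of_nonneg_left (mul_le_mul_of_nonneg_left ?_ hM0.le) hε0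
    have := (abs_le.1 hgc).2
    linarith
  calc |(2 * c1 + g1) - M * (2 * c0 + g0)| + 2 * |c1 - M * c0| ≤
        ε * (M * (3 * c0)) + 2 * (ε * (M * c0)) := by linarith
    _ = 5 * R * √(Λ / n) * (M * c0) := by rw [hε]; ring

/-- elementary estimate -/
theorem algX {ι : Type*} (S T : Finset ι) (hTS : T ⊆ S) (F F' G G' k : ι → ℝ) (M ε η W : ℝ)
    (hM : 0 < M)
    (hk0 : ∀ i ∈ S, 0 ≤ k i) (hk1 : ∀ i ∈ S, k i ≤ 1)
    (hF : ∀ i ∈ S, |G i| ≤ F i) (hF' : ∀ i ∈ S, |G' i| ≤ F' i) (hε : 0 ≤ ε)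
    (hg : ∀ i ∈ S, i ∉ T → |G' i - M * G i| ≤ ε * (M * F i))
    (hb : ∑ i ∈ T, F i ≤ η * W)
    (hb' : ∑ i ∈ T, F' i ≤ η * (M * W)) :
    |∑ i ∈ S, k i * G' i - M * ∑ i ∈ S, k i * G i| ≤
      ε * (M * ∑ i ∈ S, k i * F i) + 2 * (η * (M * W)) := by
  have h1 : ∑ i ∈ S, k i * G' i - M * ∑ i ∈ S, k i * G i =
      ∑ i ∈ S, k i * (G' i - M * G i) := by
    rw [mul_sum, ← sum_sub_distrib]
    exact sum_congr rfl fun i _ => by ring
  rw [h1]
  refine (abs_sum_le_sum_abs _ _).trans ?_
  have h2 : ∀ i ∈ S, |k i * (G' i - M * G i)| ≤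
      ε * (M * (k i * F i)) + (if i ∈ T then F' i + M * F i else 0) := by
    intro i hi
    rw [abs_mul, abs_of_nonneg (hk0 i hi)]
    have h5 : 0 ≤ F i := (abs_nonneg _).trans (hF i hi)
    have h6 : 0 ≤ F' i := (abs_nonneg _).trans (hF' i hi)
    have h7 := hk0 i hi
    have h8 := hk1 i hi
    have h9 : 0 ≤ ε * (M * (k i * F i)) := by positivity
    by_cases hT : i ∈ T
    · rw [if_pos hT]
      have h3 : |G' i - M * G i| ≤ F' i + M * F i := by
        refine (abs_sub _ _).trans ?_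
        rw [abs_mul, abs_of_pos hM]
        exact add_le_add (hF' i hi) (mul_le_mul_of_nonneg_left (hF i hi) hM.le)
      have h4 : k i * |G' i - M * G i| ≤ 1 * |G' i - M * G i| :=
        mul_le_mul_of_nonneg_right h8 (abs_nonneg _)
      linarith
    · rw [if_neg hT, add_zero]
      have := mul_le_mul_of_nonneg_left (hg i hi hT) h7
      refine this.trans (le_of_eq ?_)
      ring
  refine (sum_le_sum h2).trans ?_
  rw [sum_add_distrib, ← sum_filter, filter_mem_eq_inter, inter_eq_right.2 hTS,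
    sum_add_distrib, ← mul_sum, ← mul_sum, ← mul_sum]
  have := mul_le_mul_of_nonneg_left hb hM.le
  linarith

end Q214.SF
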