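import Pool.Agent.Q214.SF.WinX

/-!
# The window theorem for functionals of the part in the window
-/

set_option autoImplicit false

namespace Q214.SF

open Finset Filter Topology TH966.AK Q219.SAW Q215.SAW
open scoped Classical

variable {A : P → P → Prop} {Z : Rule A}

/-- sums over the walks in the domain -/
noncomputable def WX (A : P → P → Prop) (D : Set P) (a L m : ℕ) (h : List P × List P → ℝ)
    (g : List P × List P → List P → ℝ) : ℝ :=
  ∑ w ∈ KD A D (a + L + m), h (out a L w) * g (out a L w) (mid a L w)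

/-- fibers -/
noncomputable def FX (A : P → P → Prop) (D : Set P) (a L m : ℕ) (o : List P × List P)
    (F : List P → ℝ) : ℝ :=
  ∑ w ∈ (KD A D (a + L + m)).filter (fun w => out a L w = o), F (mid a L w)

theorem FX_le {D : Set P} {a L m : ℕ} {o : List P × List P} {F : List P → ℝ}
    (hF : ∀ v, |F v| ≤ 1) : |FX A D a L m o F| ≤ FD A D a L m o := by
  unfold FX FD
  refine (abs_sum_le_sum_abs _ _).trans ?_
  rw [← nsmul_one, ← sum_const]
  exact sum_le_sum fun w _ => hF _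

theorem WX_eq {D : Set P} {a L m : ℕ} {S : Finset (List P × List P)}
    (hS : (KD A D (a + L + m)).image (out a L) ⊆ S) (h : List P × List P → ℝ)
    (g : List P × List P → List P → ℝ) :
    WX A D a L m h g = ∑ o ∈ S, h o * FX A D a L m o (g o) := by
  unfold WX FX
  have h1 : ∀ w ∈ KD A D (a + L + m), out a L w ∈ S := fun w hw => hS (mem_image_of_mem _ hw)
  rw [← sum_fiberwise_of_maps_to h1]
  refine sum_congr rfl fun o _ => ?_
  rw [mul_sum]
  refine sum_congr rfl fun w hw => ?_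
  rw [mem_filter] at hw
  rw [hw.2]

/-- **the walk outside a window and a functional of the part in the window** -/
theorem windowX {μ K : ℝ} (G : Growth Z μ K) (hsh : ∀ U U', Z.T U U' → ∀ x ∈ U, x ∈ U')
    (V : Vt A) (j : ℕ) :
    ∃ R δ : ℝ, 0 < R ∧ 0 < δ ∧ ∀ (a l m : ℕ) (D : Set P) (h : List P × List P → ℝ) (Λ : ℝ),
      2 ≤ a + (l + 1) + m → (∀ o, 0 ≤ h o) → (∀ o, h o ≤ 1) →
      Real.log (a + (l + 1) + m : ℕ) ^ 2 ≤ Λ → Λ ≤ δ * (l + 1 : ℕ) →
      Real.exp (-Λ) * μ ^ (a + (l + 1) + m) ≤ WD A D a (l + 1) m h →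
      ∀ g : List P × List P → List P → ℝ, (∀ o v, |g o v| ≤ 1) →
      (∀ o x, Det A j (fun v => g o (v.map (V.φ x)))) →
      |WX A D a (l + Z.s + 1) m h g - μ ^ Z.s * WX A D a (l + 1) m h g| ≤
        R * √(Λ / (l + 1 : ℕ)) * (μ ^ Z.s * WD A D a (l + 1) m h) := by
  have hμ := G.hμ
  have hμ0 : 0 < μ := by linarith
  have hs := G.hs
  have hl2 : 0 < Real.log 2 := Real.log_pos (by norm_num)
  have hl2' : 69 / 100 ≤ Real.log 2 := by
    have := Real.log_two_gt_d9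
    linarith
  have hs1 : (1 : ℝ) ≤ Z.s := by exact_mod_cast hs
  obtain ⟨K1, hK1, hup⟩ := growth_le G
  obtain ⟨R0, δ0, n0, hR0, hδ0, hrat⟩ := fib_det G hsh j
  obtain ⟨Cd, δd, nd, hCd, hδd, hdown⟩ := down_dom G hsh
  -- the constants
  obtain ⟨s2, hs2⟩ : ∃ s2 : ℝ, s2 = Real.log (4 * Z.s) / Real.log 2 := ⟨_, rfl⟩
  have hs20 : 0 ≤ s2 := by
    rw [hs2]
    exact div_nonneg (Real.log_nonneg (by linarith)) hl2.le
  obtain ⟨κ, hκ⟩ : ∃ κ : ℝ, κ = 2 * K1 + 4 * (s2 + 2) + 12 := ⟨_, rfl⟩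
  have hκ1 : 1 ≤ κ := by rw [hκ]; linarith
  have hκ0 : 0 < κ := by linarith
  have hCd0 : 0 < Cd := by linarith
  obtain ⟨δ, hδ⟩ : ∃ δ : ℝ, δ = min (min (δ0 / (Cd * κ)) (δd / κ))
    (min (1 / (4 * R0 + 1) ^ 2 / (Cd * κ) / 16) (1 / (4 * ((n0 : ℝ) + nd + 1)))) := ⟨_, rfl⟩
  have hδpos : 0 < δ := by
    rw [hδ]
    refine lt_min (lt_min ?_ ?_) (lt_min ?_ ?_) <;> positivity
  have hδ1 : δ ≤ δ0 / (Cd * κ) := by
    rw [hδ]; exact (min_le_left _ _).trans (min_le_left _ _)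
  have hδ2 : δ ≤ δd / κ := by
    rw [hδ]; exact (min_le_left _ _).trans (min_le_right _ _)
  have hδ3 : δ ≤ 1 / (4 * R0 + 1) ^ 2 / (Cd * κ) / 16 := by
    rw [hδ]; exact (min_le_right _ _).trans (min_le_left _ _)
  have hδ4 : δ ≤ 1 / (4 * ((n0 : ℝ) + nd + 1)) := by
    rw [hδ]; exact (min_le_right _ _).trans (min_le_right _ _)
  refine ⟨R0 * √(Cd * κ) + 1, δ, by positivity, hδpos, ?_⟩
  intro a l m D h Λ hN2 hh0 hh1 hΛ1 hΛ2 hW g hg1 hg
  obtain ⟨N, hN⟩ : ∃ N, N = a + (l + 1) + m := ⟨_, rfl⟩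
  obtain ⟨L, hL⟩ : ∃ L : ℕ, L = l + 1 := ⟨_, rfl⟩
  rw [← hN] at hΛ1 hN2 hW
  rw [← hL] at hΛ2 hW ⊢
  have hLs : l + Z.s + 1 = L + Z.s := by omega
  have hNs : a + (L + Z.s) + m = N + Z.s := by omega
  have hNL : a + L + m = N := by omega
  rw [hLs]
  have hN2' : (2 : ℝ) ≤ (N : ℝ) := by exact_mod_cast hN2
  have hN0 : (0 : ℝ) < N := by linarith
  have hL0 : (0 : ℝ) < L := by rw [hL]; positivity
  have hL1 : (1 : ℝ) ≤ L := by
    have : 1 ≤ L := by omega
    exact_mod_cast this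
  have hLN : (L : ℝ) ≤ N := by
    have : L ≤ N := by omega
    exact_mod_cast this
  obtain ⟨x, hx⟩ : ∃ x : ℝ, x = Real.log N := ⟨_, rfl⟩
  have hlN : Real.log 2 ≤ x := by rw [hx]; exact Real.log_le_log (by norm_num) hN2'
  have hx0 : 0 < x := by linarith
  rw [← hx] at hΛ1
  have hx2 : 47 / 100 ≤ x ^ 2 := by
    have h1 : ((69 / 100 : ℝ)) ^ 2 ≤ x ^ 2 := pow_le_pow_left₀ (by norm_num) (by linarith) 2
    norm_num at h1 ⊢
    linarith
  have hΛx : 47 / 100 ≤ Λ := hx2.trans hΛ1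
  have hΛ0 : 0 < Λ := by linarith
  have hcard : ∀ k, (0 : ℝ) < (Kw A k).card := fun k =>
    lt_of_lt_of_le (pow_pos hμ0 k) (G.low k)
  -- `L` is large
  have hLbig : n0 ≤ L ∧ nd ≤ L := by
    have h1 : 47 / 100 ≤ 1 / (4 * ((n0 : ℝ) + nd + 1)) * L :=
      hΛx.trans (hΛ2.trans (mul_le_mul_of_nonneg_right hδ4 hL0.le))
    rw [div_mul_eq_mul_div, le_div_iff₀ (by positivity)] at h1
    have h2 : ((n0 + nd : ℕ) : ℝ) ≤ L := by
      push_cast
      have h3 : (0 : ℝ) ≤ n0 := Nat.cast_nonneg _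
      have h4 : (0 : ℝ) ≤ nd := Nat.cast_nonneg _
      linarith
    have h5 : n0 + nd ≤ L := by exact_mod_cast h2
    omega
  -- the two thresholds
  obtain ⟨Λ1, hΛ1d⟩ : ∃ Λ1 : ℝ, Λ1 = κ * Λ := ⟨_, rfl⟩
  obtain ⟨Λ2, hΛ2d⟩ : ∃ Λ2 : ℝ, Λ2 = Cd * Λ1 := ⟨_, rfl⟩
  have hΛΛ1 : Λ ≤ Λ1 := by rw [hΛ1d]; exact le_mul_of_one_le_left hΛ0.le hκ1
  have hΛ10 : 0 < Λ1 := by linarith
  have hΛ12 : Λ1 ≤ Λ2 := by rw [hΛ2d]; exact le_mul_of_one_le_left hΛ10.le hCd
  have hlogL0 : 0 ≤ Real.log L := Real.log_nonneg hL1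
  have hlogL : Real.log L ^ 2 ≤ Λ := by
    have h1 : Real.log L ≤ x := by rw [hx]; exact Real.log_le_log hL0 hLN
    exact (pow_le_pow_left₀ hlogL0 h1 2).trans hΛ1
  have hΛ1L : Λ1 ≤ δd * L := by
    rw [hΛ1d]
    have h1 : κ * Λ ≤ κ * (δd / κ * L) :=
      mul_le_mul_of_nonneg_left (hΛ2.trans (mul_le_mul_of_nonneg_right hδ2 hL0.le)) hκ0.le
    refine h1.trans (le_of_eq ?_)
    field_simp
  have hΛ2L : Λ2 ≤ δ0 * L := by
    rw [hΛ2d, hΛ1d]
    have h1 : Cd * (κ * Λ) ≤ Cd * (κ * (δ0 / (Cd * κ) * L)) := by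
      refine mul_le_mul_of_nonneg_left (mul_le_mul_of_nonneg_left ?_ hκ0.le) hCd0.le
      exact hΛ2.trans (mul_le_mul_of_nonneg_right hδ1 hL0.le)
    refine h1.trans (le_of_eq ?_)
    field_simp
  obtain ⟨ε, hε⟩ : ∃ ε : ℝ, ε = R0 * √(Λ2 / L) := ⟨_, rfl⟩
  have hε0 : 0 ≤ ε := by rw [hε]; positivity
  have hεq : ε = R0 * √(Cd * κ) * √(Λ / L) := by
    rw [hε, hΛ2d, hΛ1d, ← mul_assoc, mul_div_assoc, Real.sqrt_mul (by positivity)]
    ring
  have hε4 : ε ≤ 1 / 16 := by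
    have h1 : Λ / L ≤ 1 / (4 * R0 + 1) ^ 2 / (Cd * κ) / 16 := by
      rw [div_le_iff₀ hL0]
      exact hΛ2.trans (mul_le_mul_of_nonneg_right hδ3 hL0.le)
    have h2 : Λ2 / L ≤ (1 / (4 * (4 * R0 + 1))) ^ 2 := by
      have h3 : Λ2 / L = Cd * κ * (Λ / L) := by rw [hΛ2d, hΛ1d]; ring
      rw [h3]
      have h4 := mul_le_mul_of_nonneg_left h1 (show 0 ≤ Cd * κ by positivity)
      refine h4.trans (le_of_eq ?_)
      field_simp
      norm_num
    have h5 : √(Λ2 / L) ≤ 1 / (4 * (4 * R0 + 1)) := by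
      rw [Real.sqrt_le_left (by positivity)]
      exact h2
    rw [hε]
    calc R0 * √(Λ2 / L) ≤ R0 * (1 / (4 * (4 * R0 + 1))) :=
          mul_le_mul_of_nonneg_left h5 hR0.le
      _ ≤ 1 / 16 := by
          rw [mul_one_div, div_le_div_iff₀ (by positivity) (by norm_num)]
          linarith
  obtain ⟨η, hη⟩ : ∃ η : ℝ, η = Real.exp (-(9 * Λ)) := ⟨_, rfl⟩
  have hη0 : 0 < η := by rw [hη]; exact Real.exp_pos _
  -- the set of outer parts
  obtain ⟨S, hS⟩ : ∃ S : Finset (List P × List P),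
    S = (KD A D (a + L + m)).image (out a L) ∪
      (KD A D (a + (L + Z.s) + m)).image (out a (L + Z.s)) := ⟨_, rfl⟩
  have hS1 : (KD A D (a + L + m)).image (out a L) ⊆ S := by
    rw [hS]; exact subset_union_left
  have hS2 : (KD A D (a + (L + Z.s) + m)).image (out a (L + Z.s)) ⊆ S := by
    rw [hS]; exact subset_union_right
  have hF : ∀ L o, 0 ≤ FD A D a L m o := fun L o => Nat.cast_nonneg _
  obtain ⟨T, hT⟩ : ∃ T : Finset (List P × List P),
    T = S.filter (fun o => FD A D a L m o < Real.exp (-Λ2) * μ ^ L) := ⟨_, rfl⟩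
  -- description of the fibers
  have hfib : ∀ o ∈ S, ∃ (D' : Set P) (E : Set P) (x : P),
      FD A D a L m o = cD A D' (ind E) L ∧
      FD A D a (L + Z.s) m o = cD A D' (ind E) (L + Z.s) ∧
      (∀ F, FX A D a L m o F = cD A D' (fun v => ind E v * F (v.map (V.φ x))) L) ∧
      (∀ F, FX A D a (L + Z.s) m o F = cD A D' (fun v => ind E v * F (v.map (V.φ x))) (L + Z.s)) := by
    intro o ho
    have hex : ∃ (k : ℕ) (w : List P), w ∈ KD A D (a + (k + 1) + m) ∧ out a (k + 1) w = o := by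
      rw [hS, mem_union, mem_image, mem_image] at ho
      rcases ho with ⟨w, hw, hwo⟩ | ⟨w, hw, hwo⟩
      · exact ⟨l, w, by rw [← hL]; exact hw, by rw [← hL]; exact hwo⟩
      · exact ⟨l + Z.s, w, by rw [hLs]; exact hw, by rw [hLs]; exact hwo⟩
    obtain ⟨k, w, hw, hwo⟩ := hex
    have hwK : w ∈ Kw A (a + (k + 1) + m) := (mem_filter.1 hw).1
    have hwD : In D w := (mem_filter.1 hw).2
    obtain ⟨g0, x, y, g1, h0, h1, h2, h3⟩ := out_split w (Z.mem_K.1 hwK).1
    have hgood := good_of hwK Z h2 h3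
    have hD0 : In D (g0 ++ [x]) := by
      rw [← h2]
      exact fun z hz => hwD z (List.mem_of_mem_take hz)
    have hD1 : In D (y :: g1) := by
      rw [← h3]
      exact fun z hz => hwD z (List.mem_of_mem_drop hz)
    have hout : ∀ (j : ℕ) (v : List P), out a (j + 1) v = o ↔
        (v.take (a + 1) = g0 ++ [x] ∧ v.drop (a + (j + 1)) = y :: g1) := by
      intro j v
      rw [← hwo]
      unfold out
      rw [h2, h3, Prod.mk.injEq]
    refine ⟨DomV V D g0 x g1, {(V.φ x).symm y}, x, ?_, ?_, ?_, ?_⟩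
    · have e := Q215.SAW.fill_eq Z V (l := l) h0 h1 hgood hD0 hD1
      unfold FD
      rw [hL]
      simp only [hout]
      exact e
    · have e := Q215.SAW.fill_eq Z V (l := l + Z.s) h0 h1 hgood hD0 hD1
      unfold FD
      rw [← hLs]
      simp only [hout]
      exact e
    · intro F
      have e := fill_sum Z V (l := l) h0 h1 hgood hD0 hD1 F
      unfold FX
      rw [hL]
      simp only [hout]
      exact e
    · intro F
      have e := fill_sum Z V (l := l + Z.s) h0 h1 hgood hD0 hD1 F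
      unfold FX
      rw [← hLs]
      simp only [hout]
      exact e
  have hgoodr : ∀ o ∈ S, o ∉ T →
      |FX A D a (L + Z.s) m o (g o) - μ ^ Z.s * FX A D a L m o (g o)| ≤
        ε * (μ ^ Z.s * FD A D a L m o) := by
    intro o ho hoT
    obtain ⟨D', E, x, e1, e2, e3, e4⟩ := hfib o ho
    have hlow : Real.exp (-Λ2) * μ ^ L ≤ FD A D a L m o := by
      by_contra hc
      exact hoT (by rw [hT, mem_filter]; exact ⟨ho, not_le.1 hc⟩)
    have h1 := hrat D' E (fun v => g o (v.map (V.φ x))) (fun v => hg1 o _) (hg o x) L hLbig.1 Λ2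
      (hlogL.trans (hΛΛ1.trans hΛ12)) hΛ2L (by rw [← e1]; exact hlow)
    rw [← e3, ← e4, ← e1, ← hε] at h1
    exact h1
  have hbad1 : ∀ o ∈ T, FD A D a L m o ≤ Real.exp (-Λ1) * μ ^ L := by
    intro o ho
    rw [hT, mem_filter] at ho
    refine ho.2.le.trans (mul_le_mul_of_nonneg_right ?_ (by positivity))
    exact Real.exp_le_exp.2 (by linarith)
  have hbad2 : ∀ o ∈ T, FD A D a (L + Z.s) m o ≤ Real.exp (-Λ1) * μ ^ (L + Z.s) := by
    intro o ho
    rw [hT, mem_filter] at ho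
    obtain ⟨D', E, x, e1, e2, -, -⟩ := hfib o ho.1
    by_contra hc
    push Not at hc
    rw [e2] at hc
    have h1 := hdown D' (ind E) (wtD_ind _ _) L hLbig.2 Λ1
      (hlogL.trans hΛΛ1) hΛ1L hc.le
    rw [← hΛ2d, ← e1] at h1
    exact absurd ho.2 (not_lt.2 h1)
  -- the number of outer parts
  have hSc : (S.card : ℝ) ≤ μ ^ a * μ ^ m * Real.exp ((κ - 12) * Λ) := by
    have h1 : ((KD A D (a + L + m)).image (out a L)).card ≤
        (Kw A a).card * ((2 * (N + Z.s) + 1) ^ 2 * (Kw A m).card) := by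
      refine (card_le_card (image_subset_image (filter_subset _ _))).trans ?_
      rw [hL]
      refine (Q215.SAW.card_out Z V a l m).trans ?_
      refine Nat.mul_le_mul_left _ (Nat.mul_le_mul_right _ (Nat.pow_le_pow_left ?_ 2))
      omega
    have h2 : ((KD A D (a + (L + Z.s) + m)).image (out a (L + Z.s))).card ≤
        (Kw A a).card * ((2 * (N + Z.s) + 1) ^ 2 * (Kw A m).card) := by
      refine (card_le_card (image_subset_image (filter_subset _ _))).trans ?_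
      rw [← hLs]
      refine (Q215.SAW.card_out Z V a (l + Z.s) m).trans ?_
      refine Nat.mul_le_mul_left _ (Nat.mul_le_mul_right _ (Nat.pow_le_pow_left ?_ 2))
      omega
    have h3 : S.card ≤ 2 * ((Kw A a).card * ((2 * (N + Z.s) + 1) ^ 2 * (Kw A m).card)) := by
      rw [hS]
      refine (card_union_le _ _).trans ?_
      omega
    have h3' : (S.card : ℝ) ≤
        2 * ((Kw A a).card * ((2 * (N + Z.s) + 1) ^ 2 * (Kw A m).card)) := by
      exact_mod_cast h3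
    have h4 := hup N hN2 a (by omega)
    have h5 := hup N hN2 m (by omega)
    rw [← hx] at h4 h5
    have h6 : 2 * (2 * ((N : ℝ) + Z.s) + 1) ^ 2 ≤ Real.exp (4 * (s2 + 2) * x ^ 2) := by
      have h8 : 2 * (2 * ((N : ℝ) + Z.s) + 1) ^ 2 ≤ (4 * Z.s * N * N) ^ 2 := aux2 hN2' hs1
      refine h8.trans ?_
      have h13 : (4 * Z.s * N * N : ℝ) = Real.exp (Real.log (4 * Z.s) + 2 * x) := by
        rw [Real.exp_add, Real.exp_log (by positivity),
          show (2 : ℝ) * x = x + x by ring, Real.exp_add, hx, Real.exp_log hN0]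
        ring
      rw [h13, ← Real.exp_nat_mul]
      refine Real.exp_le_exp.2 ?_
      have h14 : Real.log (4 * Z.s) ≤ s2 * x := by
        rw [hs2, div_mul_eq_mul_div, le_div_iff₀ hl2]
        exact mul_le_mul_of_nonneg_left hlN (Real.log_nonneg (by linarith))
      have h15 : Real.log (4 * Z.s) + 2 * x ≤ (s2 + 2) * x := by linarith
      have h16 : x ≤ 2 * x ^ 2 := by
        have : x * 1 ≤ x * (2 * x) := mul_le_mul_of_nonneg_left (by linarith) hx0.le
        linarith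
      push_cast
      have h17 : (s2 + 2) * x ≤ (s2 + 2) * (2 * x ^ 2) :=
        mul_le_mul_of_nonneg_left h16 (by linarith)
      linarith
    obtain ⟨E, hE⟩ : ∃ E : ℝ, E = Real.exp (K1 * x ^ 2) := ⟨_, rfl⟩
    rw [← hE] at h4 h5
    have hE0 : 0 < E := by rw [hE]; exact Real.exp_pos _
    calc (S.card : ℝ) ≤ 2 * ((Kw A a).card * ((2 * (N + Z.s) + 1) ^ 2 * (Kw A m).card)) := h3'
      _ = (2 * (2 * ((N : ℝ) + Z.s) + 1) ^ 2) * ((Kw A a).card * (Kw A m).card) := by ring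
      _ ≤ Real.exp (4 * (s2 + 2) * x ^ 2) * ((μ ^ a * E) * (μ ^ m * E)) := by
          refine mul_le_mul h6 ?_ (by positivity) (Real.exp_pos _).le
          exact mul_le_mul h4 h5 (by positivity) (by positivity)
      _ = μ ^ a * μ ^ m * (E * E * Real.exp (4 * (s2 + 2) * x ^ 2)) := by ring
      _ = μ ^ a * μ ^ m * Real.exp ((κ - 12) * x ^ 2) := by
          rw [hE, ← Real.exp_add, ← Real.exp_add, hκ]
          congr 2
          ring
      _ ≤ _ := by
          refine mul_le_mul_of_nonneg_left (Real.exp_le_exp.2 ?_) (by positivity)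
          refine mul_le_mul_of_nonneg_left hΛ1 ?_
          rw [hκ]
          linarith
  have hTS : T ⊆ S := by
    rw [hT]
    exact filter_subset _ _
  have hTc : (T.card : ℝ) ≤ μ ^ a * μ ^ m * Real.exp ((κ - 12) * Λ) := by
    refine le_trans ?_ hSc
    rw [hT]
    exact_mod_cast card_filter_le _ _
  have hexpW : Real.exp ((κ - 12) * Λ) * Real.exp (-Λ1) = Real.exp (-(12 * Λ)) := by
    rw [← Real.exp_add, hΛ1d]
    congr 1
    ring
  obtain ⟨W, hWd⟩ : ∃ W, W = WD A D a L m h := ⟨_, rfl⟩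
  rw [← hWd] at hW ⊢
  have hW0 : 0 < W := lt_of_lt_of_le (by positivity) hW
  have hηW : μ ^ N * Real.exp (-(12 * Λ)) ≤ η * W := by
    have h1 : η * (Real.exp (-Λ) * μ ^ N) ≤ η * W := mul_le_mul_of_nonneg_left hW hη0.le
    refine le_trans ?_ h1
    have h2 : η * (Real.exp (-Λ) * μ ^ N) = μ ^ N * Real.exp (-(10 * Λ)) := by
      rw [hη, ← mul_assoc, ← Real.exp_add, mul_comm]
      congr 2
      ring
    rw [h2]
    refine mul_le_mul_of_nonneg_left (Real.exp_le_exp.2 (by linarith)) (by positivity)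
  have hpow : μ ^ N = μ ^ a * μ ^ m * μ ^ L := by
    rw [← pow_add, ← pow_add]
    congr 1
    omega
  have hb1 : ∑ o ∈ T, FD A D a L m o ≤ η * W := by
    refine (sum_le_sum hbad1).trans ?_
    rw [sum_const, nsmul_eq_mul]
    refine le_trans ?_ hηW
    calc (T.card : ℝ) * (Real.exp (-Λ1) * μ ^ L) ≤
          (μ ^ a * μ ^ m * Real.exp ((κ - 12) * Λ)) * (Real.exp (-Λ1) * μ ^ L) :=
          mul_le_mul_of_nonneg_right hTc (by positivity)
      _ = μ ^ a * μ ^ m * μ ^ L * (Real.exp ((κ - 12) * Λ) * Real.exp (-Λ1)) := by ring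
      _ = _ := by rw [hexpW, hpow]
  have hb2 : ∑ o ∈ T, FD A D a (L + Z.s) m o ≤ η * (μ ^ Z.s * W) := by
    refine (sum_le_sum hbad2).trans ?_
    rw [sum_const, nsmul_eq_mul]
    have h1 : η * (μ ^ Z.s * W) = μ ^ Z.s * (η * W) := by ring
    rw [h1]
    refine le_trans ?_ (mul_le_mul_of_nonneg_left hηW (by positivity))
    calc (T.card : ℝ) * (Real.exp (-Λ1) * μ ^ (L + Z.s)) ≤
          (μ ^ a * μ ^ m * Real.exp ((κ - 12) * Λ)) * (Real.exp (-Λ1) * μ ^ (L + Z.s)) :=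
          mul_le_mul_of_nonneg_right hTc (by positivity)
      _ = μ ^ Z.s * (μ ^ a * μ ^ m * μ ^ L * (Real.exp ((κ - 12) * Λ) * Real.exp (-Λ1))) := by
          rw [pow_add]
          ring
      _ = _ := by rw [hexpW, hpow]
  have hmain : |WX A D a (L + Z.s) m h g - μ ^ Z.s * WX A D a L m h g| ≤
        ε * (μ ^ Z.s * W) + 2 * (η * (μ ^ Z.s * W)) := by
    rw [WX_eq hS1, WX_eq hS2, hWd, WD_eq hS1]
    rw [hWd, WD_eq hS1] at hb1 hb2
    exact algX S T hTS _ _ _ _ h _ ε η _ (by positivity) (fun o _ => hh0 o) (fun o _ => hh1 o)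
      (fun o _ => FX_le (hg1 o)) (fun o _ => FX_le (hg1 o)) hε0 hgoodr hb1 hb2
  have hη16 : 2 * η ≤ 1 / 16 ∧ 8 * η ≤ Real.exp (-Λ) := by
    have h1 : Real.exp (-(8 * Λ)) ≤ 1 / 32 := by
      have h2 : Real.exp (-(8 * Λ)) ≤ Real.exp (-(5 * Real.log 2)) := by
        refine Real.exp_le_exp.2 ?_
        have := Real.log_two_lt_d9
        linarith
      refine h2.trans (le_of_eq ?_)
      rw [Real.exp_neg, show (5 : ℝ) * Real.log 2 = ((5 : ℕ) : ℝ) * Real.log 2 by norm_num,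
        Real.exp_nat_mul, Real.exp_log (by norm_num)]
      norm_num
    have h3 : η = Real.exp (-(8 * Λ)) * Real.exp (-Λ) := by
      rw [hη, ← Real.exp_add]
      congr 1
      ring
    have h4 : Real.exp (-Λ) ≤ 1 := Real.exp_le_one_iff.2 (by linarith)
    have h5 := Real.exp_pos (-Λ)
    rw [h3]
    exact aux3 h1 h5 h4
  have hηs : 2 * η ≤ √(Λ / L) := by
    rw [Real.sqrt_div hΛ0.le, le_div_iff₀ (Real.sqrt_pos.2 hL0)]
    have h13 : √(L : ℝ) ≤ Real.exp (x / 2) := by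
      rw [Real.sqrt_le_left (Real.exp_pos _).le, ← Real.exp_nat_mul]
      have : ((2 : ℕ) : ℝ) * (x / 2) = x := by push_cast; ring
      rw [this, hx, Real.exp_log hN0]
      exact hLN
    have h14 : 1 / 2 ≤ √Λ := by
      refine Real.le_sqrt_of_sq_le ?_
      norm_num
      linarith
    refine le_trans ?_ h14
    calc 2 * η * √(L : ℝ) ≤ 2 * η * Real.exp (x / 2) :=
          mul_le_mul_of_nonneg_left h13 (by positivity)
      _ = 2 * Real.exp (-(9 * Λ) + x / 2) := by rw [hη, mul_assoc, ← Real.exp_add]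
      _ ≤ 2 * Real.exp (-(2 * Real.log 2)) := by
          refine mul_le_mul_of_nonneg_left (Real.exp_le_exp.2 ?_) (by norm_num)
          have h15 := Real.log_two_lt_d9
          have h16 : x / 2 ≤ x ^ 2 := by
            have : x * (1 / 2) ≤ x * x := mul_le_mul_of_nonneg_left (by linarith) hx0.le
            linarith
          linarith
      _ = 1 / 2 := by
          rw [Real.exp_neg, show (2 : ℝ) * Real.log 2 = ((2 : ℕ) : ℝ) * Real.log 2 by norm_num,
            Real.exp_nat_mul, Real.exp_log (by norm_num)]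
          norm_num
  have hMW : 0 ≤ μ ^ Z.s * W := by positivity
  refine hmain.trans ?_
  have h1 : ε * (μ ^ Z.s * W) + 2 * (η * (μ ^ Z.s * W)) = (ε + 2 * η) * (μ ^ Z.s * W) := by ring
  rw [h1]
  refine mul_le_mul_of_nonneg_right ?_ hMW
  rw [hεq, add_mul, one_mul]
  linarith

end Q214.SF
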